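import Pool.Agent.Lib.MP_216314_pr.Q4.PhD

/-!
# Symmetry of the determinants of divided differences

`PhF_swp`: `DD_swap`, `DD_swap_self`: the matrix at `swp i x` is the matrix at `x` with row `i` replaced by row `i` + const * row `i+1` (`Matrix.det_updateRow_add_smul_self`).
`PhF_list`: for all lists `p`: `l₁ ~ l₂` and `(p ++ l₁).length = N` imply equality for `p ++ l₁`, `p ++ l₂`: induction on the permutation (`List.Perm.rec`): `nil`; `cons x`: `p ++ x :: l = (p ++ [x]) ++ l`; `swap`: the sequences of
`p ++ y :: x :: l` and `p ++ x :: y :: l` differ by `swp p.length` (`PhF_swp`, `p.length + 1 < N`; `PhF_congr` for the indices `< N`); `trans`.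
-/

set_option autoImplicit false

noncomputable section

namespace Q4

open Finset Polynomial

theorem PhF_swp {N i : ℕ} (hi : i + 1 < N) (g : ℕ → ℂ[X]) (x : ℕ → ℂ) : PhF N g (swp i x) = PhF N g x := by
  have hM : (Matrix.of fun a j : Fin N => DD (swp i x) a (g j)) =
      Matrix.updateRow (Matrix.of fun a j : Fin N => DD x a (g j)) (⟨i, by omega⟩ : Fin N)
        ((Matrix.of fun a j : Fin N => DD x a (g j)) (⟨i, by omega⟩ : Fin N) +
          (x (i + 1) - x i) • (Matrix.of fun a j : Fin N => DD x a (g j)) (⟨i + 1, hi⟩ : Fin N)) := by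
    ext a j
    by_cases ha : a = (⟨i, by omega⟩ : Fin N)
    · subst ha
      rw [Matrix.updateRow_self]
      simp only [Matrix.of_apply, Pi.add_apply, Pi.smul_apply, smul_eq_mul]
      exact DD_swap_self x i (g j)
    · rw [Matrix.updateRow_ne ha]
      simp only [Matrix.of_apply]
      refine DD_swap x i a ?_ (g j)
      intro hai
      exact ha (Fin.ext hai)
  unfold PhF
  rw [hM]
  refine Matrix.det_updateRow_add_smul_self _ ?_ _
  intro h
  have h2 := congrArg Fin.val h
  simp at h2

private theorem PhA_getD (p l : List ℂ) (x y : ℂ) :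
    (fun i => (p ++ x :: y :: l).getD i 0) = swp p.length (fun i => (p ++ y :: x :: l).getD i 0) := by
  funext k
  show (p ++ x :: y :: l).getD k 0 = (p ++ y :: x :: l).getD (Equiv.swap p.length (p.length + 1) k) 0
  rcases lt_trichotomy k p.length with hk | hk | hk
  · rw [Equiv.swap_apply_of_ne_of_ne (by omega) (by omega), List.getD_append _ _ _ _ hk, List.getD_append _ _ _ _ hk]
  · subst hk
    rw [Equiv.swap_apply_left, List.getD_append_right _ _ _ _ (le_refl _),
      List.getD_append_right _ _ _ _ (by omega)]
    simp
  · obtain ⟨m, rfl⟩ : ∃ m, k = p.length + 1 + m := ⟨k - (p.length + 1), by omega⟩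
    rcases Nat.eq_zero_or_pos m with hm | hm
    · subst hm
      rw [Nat.add_zero, Equiv.swap_apply_right, List.getD_append_right _ _ _ _ (by omega),
        List.getD_append_right _ _ _ _ (le_refl _)]
      simp
    · obtain ⟨m', rfl⟩ : ∃ m', m = m' + 1 := ⟨m - 1, by omega⟩
      rw [Equiv.swap_apply_of_ne_of_ne (by omega) (by omega), List.getD_append_right _ _ _ _ (by omega),
        List.getD_append_right _ _ _ _ (by omega)]
      have e : p.length + 1 + (m' + 1) - p.length = m' + 1 + 1 := by omega
      rw [e]
      simp

private theorem PhA_perm {N : ℕ} (g : ℕ → ℂ[X]) {l l' : List ℂ} (h : l.Perm l') :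
    ∀ p : List ℂ, (p ++ l).length = N →
      PhF N g (fun i => (p ++ l).getD i 0) = PhF N g (fun i => (p ++ l').getD i 0) := by
  induction h with
  | nil => intro p _; rfl
  | cons x h ih =>
    intro p hp
    have h2 := ih (p ++ [x]) (by
      rw [← hp]
      simp only [List.length_append, List.length_cons, List.length_nil]
      omega)
    rw [List.append_assoc, List.append_assoc] at h2
    exact h2
  | swap x y l =>
    intro p hp
    have hi : p.length + 1 < N := by
      simp only [List.length_append, List.length_cons] at hp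
      omega
    rw [PhA_getD p l x y, PhF_swp hi]
  | trans h1 h2 ih1 ih2 =>
    intro p hp
    refine (ih1 p hp).trans (ih2 p ?_)
    rw [← hp, List.length_append, List.length_append, h1.length_eq]

theorem PhF_list {N : ℕ} (g : ℕ → ℂ[X]) {l l' : List ℂ} (h : l.Perm l') (hN : l.length = N) :
    PhF N g (fun i => l.getD i 0) = PhF N g (fun i => l'.getD i 0) :=
  PhA_perm g h [] hN

end Q4
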