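import Pool.Agent.Lib.MP_216314_pr.Q4.PhD

/-!
# Recursion of the determinants of divided differences

`f = (X - x_0)(X - x_1)(X - s) h`: `DD x 0 f = 0`, `DD x 1 f = 0` (`DD_root_zero`, `DD_root` and `DD_root_zero` for the shifted sequence), `DD x (i+2) f = DD x'' i ((X - s) h)`, `x'' = x (· + 2)`,
`= (x (i+2) - s) DD x'' i h + DD x'' (i-1) h` (`DD_lin`; the second term is absent for `i = 0`). The matrix (rows `i`, columns `j`; reindex `Fin (N+2)` as `Fin 2 ⊕ Fin N` by `finSumFinEquiv` and `finCongr`) has the block form `[A 0; * B]`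
(`Matrix.det_fromBlocks_zero₁₂`), `A = !![DD x 0 u, DD x 0 v; DD x 1 u, DD x 1 v]` (`Matrix.det_fin_two`), `B = T * H`, `T` lower triangular (bidiagonal) with diagonal `x (i+2) - s` (`Matrix.det_of_lowerTriangular`,
`Matrix.BlockTriangular`), `H i j = DD x'' i (h j)`.
-/

set_option autoImplicit false

noncomputable section

namespace Q4

open Finset Polynomial

theorem PhB_assoc (a b c f : ℂ[X]) : a * b * c * f = a * (b * (c * f)) := by ring

theorem PhB_row0 (x : ℕ → ℂ) (s : ℂ) (f : ℂ[X]) :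
    DD x 0 ((X - C (x 0)) * (X - C (x 1)) * (X - C s) * f) = 0 := by
  rw [PhB_assoc]
  exact DD_root_zero x _

theorem PhB_row1 (x : ℕ → ℂ) (s : ℂ) (f : ℂ[X]) :
    DD x 1 ((X - C (x 0)) * (X - C (x 1)) * (X - C s) * f) = 0 := by
  rw [PhB_assoc]
  have h1 := DD_root x 0 ((X - C (x 1)) * ((X - C s) * f))
  have h2 := DD_root_zero (fun l => x (l + 1)) ((X - C s) * f)
  exact h1.trans h2

theorem PhB_row2 (x : ℕ → ℂ) (s : ℂ) (f : ℂ[X]) (i : ℕ) :
    DD x (i + 2) ((X - C (x 0)) * (X - C (x 1)) * (X - C s) * f) =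
      DD (fun l => x (l + 2)) i ((X - C s) * f) := by
  rw [PhB_assoc]
  have h1 := DD_root x (i + 1) ((X - C (x 1)) * ((X - C s) * f))
  have h2 := DD_root (fun l => x (l + 1)) i ((X - C s) * f)
  exact h1.trans h2

/-- the bidiagonal matrix -/
def PhB_T (N : ℕ) (y : ℕ → ℂ) (s : ℂ) : Matrix (Fin N) (Fin N) ℂ :=
  Matrix.of fun i k => (if k = i then y i - s else 0) + (if (k : ℕ) + 1 = i then 1 else 0)

theorem PhB_detT (N : ℕ) (y : ℕ → ℂ) (s : ℂ) :
    (PhB_T N y s).det = ∏ i ∈ range N, (y i - s) := by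
  rw [Matrix.det_of_lowerTriangular, Finset.prod_range]
  · refine Finset.prod_congr rfl fun i _ => ?_
    show (if i = i then y i - s else 0) + (if (i : ℕ) + 1 = i then (1 : ℂ) else 0) = y i - s
    rw [if_pos rfl, if_neg (by omega), add_zero]
  · intro i j hij
    have h1 : i < j := hij
    have h2 : (i : ℕ) < j := h1
    show (if j = i then y i - s else 0) + (if (j : ℕ) + 1 = i then (1 : ℂ) else 0) = 0
    rw [if_neg (by intro h; rw [h] at h2; omega), if_neg (by omega), add_zero]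

theorem PhB_mul (N : ℕ) (h : ℕ → ℂ[X]) (y : ℕ → ℂ) (s : ℂ) :
    (Matrix.of fun i j : Fin N => DD y i ((X - C s) * h j)) =
      PhB_T N y s * (Matrix.of fun i j : Fin N => DD y i (h j)) := by
  ext i j
  rw [Matrix.mul_apply]
  show DD y i ((X - C s) * h j) = ∑ k : Fin N,
    ((if k = i then y i - s else 0) + (if (k : ℕ) + 1 = i then 1 else 0)) * DD y k (h j)
  rw [DD_lin]
  have e1 : ∀ k : Fin N,
      ((if k = i then y i - s else 0) + (if (k : ℕ) + 1 = i then 1 else 0)) * DD y k (h j) =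
      (if k = i then (y i - s) * DD y k (h j) else 0) +
        (if (k : ℕ) + 1 = i then DD y k (h j) else 0) := by
    intro k
    rw [add_mul, ite_mul, ite_mul, zero_mul, one_mul]
  rw [Finset.sum_congr rfl fun k _ => e1 k, Finset.sum_add_distrib, Finset.sum_ite_eq',
    if_pos (Finset.mem_univ i)]
  congr 1
  by_cases h0 : (i : ℕ) = 0
  · rw [if_pos h0]
    symm
    refine Finset.sum_eq_zero fun k _ => ?_
    rw [if_neg (by omega)]
  · rw [if_neg h0]
    have hi := i.isLt
    have hlt : (i : ℕ) - 1 < N := by omega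
    rw [Finset.sum_eq_single (⟨(i : ℕ) - 1, hlt⟩ : Fin N)]
    · rw [if_pos]
      show (i : ℕ) - 1 + 1 = i
      omega
    · intro k _ hk
      rw [if_neg]
      intro h1
      apply hk
      apply Fin.ext
      show (k : ℕ) = (i : ℕ) - 1
      omega
    · intro h1
      exact absurd (Finset.mem_univ _) h1

theorem PhF_rec (N : ℕ) (u v : ℂ[X]) (h : ℕ → ℂ[X]) (x : ℕ → ℂ) (s : ℂ) :
    PhF (N + 2) (pre u v fun j => (X - C (x 0)) * (X - C (x 1)) * (X - C s) * h j) x =
      (DD x 0 u * DD x 1 v - DD x 0 v * DD x 1 u) * (∏ i ∈ range N, (x (i + 2) - s)) *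
        PhF N h (fun i => x (i + 2)) := by
  set g : ℕ → ℂ[X] := pre u v fun j => (X - C (x 0)) * (X - C (x 1)) * (X - C s) * h j with hg
  have g0 : g 0 = u := rfl
  have g1 : g 1 = v := rfl
  have g2 : ∀ j, g (2 + j) = (X - C (x 0)) * (X - C (x 1)) * (X - C s) * h j := by
    intro j
    show (if 2 + j = 0 then u else if 2 + j = 1 then v else
      (X - C (x 0)) * (X - C (x 1)) * (X - C s) * h (2 + j - 2)) = _
    rw [if_neg (by omega), if_neg (by omega), Nat.add_sub_cancel_left]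
  let e : Fin 2 ⊕ Fin N ≃ Fin (N + 2) := finSumFinEquiv.trans (finCongr (by omega : 2 + N = N + 2))
  have el : ∀ a : Fin 2, ((e (Sum.inl a) : Fin (N + 2)) : ℕ) = a := fun a => rfl
  have er : ∀ a : Fin N, ((e (Sum.inr a) : Fin (N + 2)) : ℕ) = 2 + a := fun a => rfl
  let A : Matrix (Fin 2) (Fin 2) ℂ := Matrix.of fun i j => DD x i (g j)
  let Cc : Matrix (Fin N) (Fin 2) ℂ := Matrix.of fun i j => DD x (2 + i) (g j)
  let B : Matrix (Fin N) (Fin N) ℂ :=
    Matrix.of fun i j : Fin N => DD (fun l => x (l + 2)) i ((X - C s) * h j)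
  have hM : (Matrix.of fun i j : Fin (N + 2) => DD x i (g j)).submatrix e e =
      Matrix.fromBlocks A 0 Cc B := by
    ext i j
    rcases i with a | a <;> rcases j with b | b
    · show DD x (e (Sum.inl a) : Fin (N + 2)) (g (e (Sum.inl b) : Fin (N + 2))) = DD x a (g b)
      rw [el, el]
    · show DD x (e (Sum.inl a) : Fin (N + 2)) (g (e (Sum.inr b) : Fin (N + 2))) = 0
      rw [el, er, g2]
      fin_cases a
      · exact PhB_row0 x s (h b)
      · exact PhB_row1 x s (h b)
    · show DD x (e (Sum.inr a) : Fin (N + 2)) (g (e (Sum.inl b) : Fin (N + 2))) =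
        DD x (2 + a) (g b)
      rw [el, er]
    · show DD x (e (Sum.inr a) : Fin (N + 2)) (g (e (Sum.inr b) : Fin (N + 2))) =
        DD (fun l => x (l + 2)) a ((X - C s) * h b)
      rw [er, er, g2, Nat.add_comm 2 (a : ℕ)]
      exact PhB_row2 x s (h b) a
  have h1 : PhF (N + 2) g x = A.det * B.det := by
    unfold PhF
    rw [← Matrix.det_submatrix_equiv_self e, hM, Matrix.det_fromBlocks_zero₁₂]
  have h2 : A.det = DD x 0 u * DD x 1 v - DD x 0 v * DD x 1 u := by
    rw [Matrix.det_fin_two]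
    rfl
  have h3 : B.det = (∏ i ∈ range N, (x (i + 2) - s)) * PhF N h (fun i => x (i + 2)) := by
    show (Matrix.of fun i j : Fin N => DD (fun l => x (l + 2)) i ((X - C s) * h j)).det = _
    rw [PhB_mul, Matrix.det_mul, PhB_detT]
    rfl
  rw [h1, h2, h3, mul_assoc]

end Q4
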