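import Pool.Agent.Lib.MP_216314_pr.Q4.PhD

/-!
# The determinant as a polynomial in the last entry

Expand the determinant along the last row (`Matrix.det_succ_row _ (Fin.last N)`): the minors do not depend on the last entry (`DD_congr`: rows `i < N` use `x_0..x_i`); the entries of the last row are `DD (update x N b) N (g j)`:
`DD_update` with degree `≤ d - N`. The sum of `± minor_j * p_j`.
-/

set_option autoImplicit false

noncomputable section

namespace Q4

open Finset Polynomial

theorem PhF_update (N d : ℕ) (g : ℕ → ℂ[X]) (hg : ∀ j, j < N + 1 → (g j).natDegree ≤ d) (x : ℕ → ℂ) :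
    ∃ p : ℂ[X], p.natDegree ≤ d - N ∧ ∀ b : ℂ, PhF (N + 1) g (Function.update x N b) = p.eval b := by
  have h1 : ∀ j : Fin (N + 1), ∃ p : ℂ[X], p.natDegree ≤ d - N ∧
      ∀ b : ℂ, DD (Function.update x N b) N (g j) = p.eval b := fun j => DD_update x N (g j) (hg j j.2)
  choose P hP1 hP2 using h1
  refine ⟨∑ j : Fin (N + 1), C ((-1) ^ (N + (j : ℕ)) *
    Matrix.det ((Matrix.of fun i j : Fin (N + 1) => DD x i (g j)).submatrix (Fin.last N).succAbove j.succAbove)) * P j,
    ?_, ?_⟩
  · refine Polynomial.natDegree_sum_le_of_forall_le _ _ ?_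
    intro j _
    exact (Polynomial.natDegree_C_mul_le _ _).trans (hP1 j)
  · intro b
    unfold PhF
    rw [Matrix.det_succ_row _ (Fin.last N), Polynomial.eval_finsetSum]
    refine Finset.sum_congr rfl ?_
    intro j _
    have hm : (Matrix.of fun i j : Fin (N + 1) => DD (Function.update x N b) i (g j)).submatrix
        (Fin.last N).succAbove j.succAbove =
        (Matrix.of fun i j : Fin (N + 1) => DD x i (g j)).submatrix (Fin.last N).succAbove j.succAbove := by
      ext a c
      simp only [Matrix.submatrix_apply, Matrix.of_apply]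
      refine DD_congr ?_ _
      intro l hl
      rw [Fin.succAbove_last] at hl
      have ha : ((Fin.castSucc a : Fin (N + 1)) : ℕ) < N := a.2
      refine Function.update_of_ne ?_ _ _
      omega
    rw [hm, Polynomial.eval_mul, Polynomial.eval_C]
    have hl : (Matrix.of fun i j : Fin (N + 1) => DD (Function.update x N b) i (g j)) (Fin.last N) j = (P j).eval b := by
      simp only [Matrix.of_apply, Fin.val_last]
      exact hP2 j b
    rw [hl, Fin.val_last]
    ring

end Q4
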