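import Pool.Agent.Lib.MP_216314_pr.Q4.PhD

/-!
# Unimodular equivalence of families

`PhF_ueq`: the matrix of `g'` is the matrix of `g` times `U` (`DD_sum`, `DD_C_mul`), `Matrix.det_mul`. `UEq.trans`: product of the matrices (`Finset.sum_comm`, `map_mul`). `UEq.pre`: the block matrix `diag(1, 1, U)` : define
`U' : Matrix (Fin (N+2)) (Fin (N+2)) ℂ`, `U' i j = if i < 2 ∨ j < 2 then (if i = j then 1 else 0) else U (i-2) (j-2)`; determinant: reindex to `Fin 2 ⊕ Fin N`, `Matrix.det_fromBlocks_zero₁₂`.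
`UEq.add`: `U' i j = 1` if `i = j`; `c_j` if `i = 0`, `j ≥ 2`; `d_j` if `i = 1`, `j ≥ 2`; `0` otherwise: upper triangular with diagonal 1 (`Matrix.det_of_upperTriangular`). `Fin.sum_univ_succ` twice to split off the first two summands.
-/

set_option autoImplicit false

noncomputable section

namespace Q4

open Finset Polynomial

/-- unimodular equivalence of families -/
def UEq (N : ℕ) (g g' : ℕ → ℂ[X]) : Prop :=
  ∃ U : Matrix (Fin N) (Fin N) ℂ, U.det = 1 ∧ ∀ j : Fin N, g' j = ∑ i : Fin N, C (U i j) * g i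

theorem PhF_ueq {N : ℕ} {g g' : ℕ → ℂ[X]} (h : UEq N g g') (x : ℕ → ℂ) : PhF N g' x = PhF N g x := by
  obtain ⟨U, hU, hg⟩ := h
  unfold PhF
  have e : (Matrix.of fun i j : Fin N => DD x i (g' j)) =
      (Matrix.of fun i j : Fin N => DD x i (g j)) * U := by
    ext i j
    rw [Matrix.mul_apply, Matrix.of_apply, hg j, DD_sum]
    refine Finset.sum_congr rfl fun k _ => ?_
    rw [DD_C_mul, Matrix.of_apply, mul_comm]
  rw [e, Matrix.det_mul, hU, mul_one]

theorem UEq.refl (N : ℕ) (g : ℕ → ℂ[X]) : UEq N g g := by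
  refine ⟨1, Matrix.det_one, fun j => ?_⟩
  rw [Finset.sum_eq_single j]
  · rw [Matrix.one_apply_eq, map_one, one_mul]
  · intro i _ hi
    rw [Matrix.one_apply_ne hi, map_zero, zero_mul]
  · intro hj
    exact absurd (Finset.mem_univ j) hj

theorem UEq.trans {N : ℕ} {g g' g'' : ℕ → ℂ[X]} (h : UEq N g g') (h' : UEq N g' g'') : UEq N g g'' := by
  obtain ⟨U, hU, hg⟩ := h
  obtain ⟨V, hV, hg'⟩ := h'
  refine ⟨U * V, by rw [Matrix.det_mul, hU, hV, one_mul], fun j => ?_⟩
  have e1 : ∀ k : Fin N, C (V k j) * g' k = ∑ i : Fin N, C (U i k * V k j) * g i := by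
    intro k
    rw [hg k, Finset.mul_sum]
    refine Finset.sum_congr rfl fun i _ => ?_
    rw [map_mul]
    ring
  rw [hg' j, Finset.sum_congr rfl fun k _ => e1 k, Finset.sum_comm]
  refine Finset.sum_congr rfl fun i _ => ?_
  rw [Matrix.mul_apply, map_sum, Finset.sum_mul]

/-- `(u, g_0, g_1, ...)` -/
private def PhEc (u : ℂ[X]) (g : ℕ → ℂ[X]) : ℕ → ℂ[X] := fun j => if j = 0 then u else g (j - 1)

private theorem PhEc_zero (u : ℂ[X]) (g : ℕ → ℂ[X]) : PhEc u g 0 = u := rfl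

private theorem PhEc_succ (u : ℂ[X]) (g : ℕ → ℂ[X]) (j : ℕ) : PhEc u g (j + 1) = g j := rfl

private theorem PhE_pre (u v : ℂ[X]) (g : ℕ → ℂ[X]) : Q4.pre u v g = PhEc u (PhEc v g) := by
  funext j
  rcases j with _ | _ | j
  · rfl
  · rfl
  · rfl

private theorem PhE_cons {N : ℕ} {u : ℂ[X]} {g g1 g' : ℕ → ℂ[X]} (h : UEq N g g1)
    (hc : ∀ j : Fin N, ∃ c : ℂ, g' j = C c * u + g1 j) : UEq (N + 1) (PhEc u g) (PhEc u g') := by
  obtain ⟨U, hU, hg⟩ := h
  choose c hc' using hc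
  let U' : Matrix (Fin (N + 1)) (Fin (N + 1)) ℂ :=
    fun i j => Fin.cases (Fin.cases 1 c j) (fun i' => Fin.cases 0 (U i') j) i
  have h00 : U' 0 0 = 1 := rfl
  have h0s : ∀ j : Fin N, U' 0 j.succ = c j := fun j => rfl
  have hs0 : ∀ i : Fin N, U' i.succ 0 = 0 := fun i => rfl
  have hss : ∀ i j : Fin N, U' i.succ j.succ = U i j := fun i j => rfl
  refine ⟨U', ?_, ?_⟩
  · rw [Matrix.det_succ_column_zero, Fin.sum_univ_succ, h00]
    have e1 : ∑ i : Fin N, (-1) ^ (i.succ : ℕ) * U' i.succ 0 *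
        (U'.submatrix i.succ.succAbove Fin.succ).det = 0 := by
      refine Finset.sum_eq_zero fun i _ => ?_
      rw [hs0, mul_zero, zero_mul]
    have e2 : U'.submatrix (Fin.succAbove 0) Fin.succ = U := by
      ext i j
      rw [Matrix.submatrix_apply, Fin.succAbove_zero]
      exact hss i j
    rw [e1, e2, hU, add_zero]
    simp
  · intro j
    refine Fin.cases ?_ (fun j => ?_) j
    · rw [Fin.sum_univ_succ, h00]
      have e1 : ∑ i : Fin N, C (U' i.succ 0) * PhEc u g (i.succ : ℕ) = 0 := by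
        refine Finset.sum_eq_zero fun i _ => ?_
        rw [hs0, map_zero, zero_mul]
      rw [e1, map_one, one_mul, add_zero]
      rfl
    · rw [Fin.sum_univ_succ, h0s]
      have e1 : ∑ i : Fin N, C (U' i.succ j.succ) * PhEc u g (i.succ : ℕ) = g1 j := by
        rw [hg j]
        refine Finset.sum_congr rfl fun i _ => ?_
        rw [hss, Fin.val_succ, PhEc_succ]
      rw [e1, Fin.val_succ, PhEc_succ, hc' j]
      rfl

theorem UEq.pre {N : ℕ} {g g' : ℕ → ℂ[X]} (h : UEq N g g') (u v f : ℂ[X]) :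
    UEq (N + 2) (Q4.pre u v fun j => f * g j) (Q4.pre u v fun j => f * g' j) := by
  have h1 : UEq N (fun j => f * g j) (fun j => f * g' j) := by
    obtain ⟨U, hU, hg⟩ := h
    refine ⟨U, hU, fun j => ?_⟩
    show f * g' j = ∑ i : Fin N, C (U i j) * (f * g i)
    rw [hg j, Finset.mul_sum]
    refine Finset.sum_congr rfl fun i _ => ?_
    ring
  rw [PhE_pre, PhE_pre]
  have h2 : UEq (N + 1) (PhEc v fun j => f * g j) (PhEc v fun j => f * g' j) :=
    PhE_cons (u := v) (g' := fun j => f * g' j) h1 fun j =>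
      ⟨0, by rw [map_zero, zero_mul, zero_add]⟩
  exact PhE_cons (u := u) (g' := PhEc v fun j => f * g' j) h2 fun j =>
    ⟨0, by rw [map_zero, zero_mul, zero_add]⟩

/-- adding multiples of the first two columns to the others -/
theorem UEq.add {N : ℕ} (u v : ℂ[X]) {g g' : ℕ → ℂ[X]}
    (h : ∀ j, j < N → ∃ c d : ℂ, g' j = g j + C c * u + C d * v) : UEq (N + 2) (Q4.pre u v g) (Q4.pre u v g') := by
  choose! c d hcd using h
  rw [PhE_pre, PhE_pre]
  have h1 : UEq (N + 1) (PhEc v g) (PhEc v fun j => g j + C (d j) * v) :=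
    PhE_cons (UEq.refl N g) fun j => ⟨d j, by ring⟩
  refine PhE_cons (u := u) h1 fun j => ?_
  refine Fin.cases ?_ (fun j => ?_) j
  · exact ⟨0, by
      show v = C 0 * u + v
      rw [map_zero, zero_mul, zero_add]⟩
  · refine ⟨c j, ?_⟩
    rw [Fin.val_succ, PhEc_succ, PhEc_succ, hcd j j.2]
    ring

end Q4
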