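import Pool.Agent.Lib.MP_216314_pr.Q4.WBil
import Pool.Agent.Lib.MP_216314_pr.Z.ZLim

/-!
# Limit of the probability of four legs on the infinite cylinder

As `CY.tendsto_law` (Z/ZLim): `WB` is a finite sum, hence continuous; `TT_conv`; `WB_smul`; `EE_one`. `tendsto_WB` is `tendsto_finsetSum` twice, as `tendsto_BB`.
`law_re`: the terms `WB 2 2 (TT^[2m] single) (TT^[2m] single)` are nonnegative real numbers: `TT` maps nonnegative vectors to nonnegative vectors (see Z/Til, Z/Conv; `TT` is a composition of maps `lin` and convex combinations of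
them; if there is a lemma on nonnegativity in Z/Conv use it), `wW` is `0` or `1`; so the limit is a nonnegative real number (`ge_of_tendsto`, closedness of the set of nonnegative reals in `ℂ`), i.e. equal to its norm.
-/

set_option autoImplicit false

noncomputable section

namespace Q4

open Finset CY Filter Topology

theorem tendsto_WB (kb kt : ℕ) {L : ℕ} {u v : ℕ → V L} {a b : V L} (hu : Tendsto u atTop (𝓝 a)) (hv : Tendsto v atTop (𝓝 b)) :
    Tendsto (fun m => WB kb kt (u m) (v m)) atTop (𝓝 (WB kb kt a b)) := by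
  unfold WB
  refine tendsto_finsetSum _ fun β _ => tendsto_finsetSum _ fun α _ => ?_
  exact ((tendsto_pi_nhds.1 hu β).mul (tendsto_pi_nhds.1 hv α)).mul tendsto_const_nhds

theorem tendsto_legs {q : ℂ} (hq : q ^ 2 + q + 1 = 0) (kb kt : ℕ) {L : ℕ} (hL : 0 < L) (hE : Even L)
    {Pb P : Pat L → MvPolynomial ℕ ℂ} (hPb : IsPsi (q ^ 2) L Pb) (hP : IsPsi q L P) (β α : Pat L) :
    Tendsto (fun m : ℕ => WB kb kt ((TT^[2 * m]) (Pi.single β 1)) ((TT^[2 * m]) (Pi.single α 1))) atTop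
      (𝓝 (WB kb kt (ev Pb fun _ => 1) (ev P fun _ => 1) / EE 1 Pb P (fun _ => 1))) := by
  have hq2 : (q ^ 2) ^ 2 + q ^ 2 + 1 = 0 := by linear_combination (q ^ 2 - q + 1) * hq
  have h2 : Tendsto (fun m : ℕ => 2 * m) atTop atTop :=
    tendsto_id.const_mul_atTop' (by norm_num)
  have s1 : ∀ γ : Pat L, ∑ δ, (Pi.single γ (1 : ℂ) : V L) δ = 1 := by
    intro γ
    rw [Finset.sum_eq_single γ]
    · simp
    · intro b _ hb
      simp [hb]
    · intro h
      exact absurd (Finset.mem_univ _) h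
  have hb := (TT_conv hq2 hL hE hPb (Pi.single β 1) (s1 β)).comp h2
  have ha := (TT_conv hq hL hE hP (Pi.single α 1) (s1 α)).comp h2
  have h := tendsto_WB kb kt hb ha
  have e : WB kb kt ((∑ α, ev Pb (fun _ => 1) α)⁻¹ • ev Pb (fun _ => 1))
      ((∑ α, ev P (fun _ => 1) α)⁻¹ • ev P (fun _ => 1)) =
      WB kb kt (ev Pb fun _ => 1) (ev P fun _ => 1) / EE 1 Pb P (fun _ => 1) := by
    rw [WB_smul, EE_one, div_eq_mul_inv, mul_inv]
    ring
  rw [← e]
  exact h

/-- nonnegative real numbers in `ℂ` -/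
def ValI_nn (z : ℂ) : Prop := 0 ≤ z.re ∧ z.im = 0

theorem ValI_mul {z w : ℂ} (hz : ValI_nn z) (hw : ValI_nn w) : ValI_nn (z * w) := by
  refine ⟨?_, ?_⟩
  · rw [Complex.mul_re, hz.2, zero_mul, sub_zero]
    exact mul_nonneg hz.1 hw.1
  · rw [Complex.mul_im, hz.2, hw.2, mul_zero, zero_mul, add_zero]

theorem ValI_zero : ValI_nn 0 := ⟨le_rfl, rfl⟩

theorem ValI_one : ValI_nn 1 := by
  refine ⟨?_, ?_⟩
  · rw [Complex.one_re]
    exact zero_le_one
  · exact Complex.one_im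

theorem ValI_sum {A : Type*} (s : Finset A) (f : A → ℂ) (h : ∀ a ∈ s, ValI_nn (f a)) : ValI_nn (∑ a ∈ s, f a) := by
  refine ⟨?_, ?_⟩
  · rw [Complex.re_sum]
    exact Finset.sum_nonneg fun a ha => (h a ha).1
  · rw [Complex.im_sum]
    exact Finset.sum_eq_zero fun a ha => (h a ha).2

theorem ValI_TT {L : ℕ} {v : V L} (hv : ∀ α, ValI_nn (v α)) (α : Pat L) : ValI_nn (TT v α) := by
  rw [Conv_TT_apply]
  refine ValI_mul ?_ (ValI_sum _ _ fun t _ => ?_)
  · have h1 : ((2 : ℂ) ^ L)⁻¹ = ((((2 : ℝ) ^ L)⁻¹ : ℝ) : ℂ) := by push_cast; rfl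
    rw [h1]
    refine ⟨?_, Complex.ofReal_im _⟩
    rw [Complex.ofReal_re]
    positivity
  · rw [lin_apply]
    refine ValI_sum _ _ fun a _ => ?_
    split_ifs
    · exact hv a
    · exact ValI_zero

theorem ValI_iter {L : ℕ} (m : ℕ) {v : V L} (hv : ∀ α, ValI_nn (v α)) (α : Pat L) :
    ValI_nn ((TT^[m]) v α) := by
  induction m generalizing α with
  | zero => exact hv α
  | succ m ih =>
    rw [Function.iterate_succ_apply']
    exact ValI_TT ih α

theorem ValI_single {L : ℕ} (β α : Pat L) : ValI_nn ((Pi.single β (1 : ℂ) : V L) α) := by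
  by_cases h : α = β
  · rw [h, Pi.single_eq_same]
    exact ValI_one
  · rw [Pi.single_eq_of_ne h]
    exact ValI_zero

theorem ValI_WB (kb kt : ℕ) {L : ℕ} {v w : V L} (hv : ∀ α, ValI_nn (v α)) (hw : ∀ α, ValI_nn (w α)) :
    ValI_nn (WB kb kt v w) := by
  unfold WB
  refine ValI_sum _ _ fun β _ => ValI_sum _ _ fun α _ => ValI_mul (ValI_mul (hv β) (hw α)) ?_
  unfold wW
  split_ifs
  · exact ValI_one
  · exact ValI_zero

theorem ValI_lim {u : ℕ → ℂ} {z : ℂ} (h : Tendsto u atTop (𝓝 z)) (hu : ∀ m, ValI_nn (u m)) : ValI_nn z := by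
  refine ⟨?_, ?_⟩
  · exact ge_of_tendsto' ((Complex.continuous_re.tendsto z).comp h) fun m => (hu m).1
  · have h1 := (Complex.continuous_im.tendsto z).comp h
    have h2 : Tendsto (Complex.im ∘ u) atTop (𝓝 0) :=
      tendsto_const_nhds.congr fun m => ((hu m).2).symm
    exact tendsto_nhds_unique h1 h2

theorem ValI_norm {z : ℂ} (h : ValI_nn z) : z = ((‖z‖ : ℝ) : ℂ) := by
  have h1 : z = ((z.re : ℝ) : ℂ) := Complex.ext (Complex.ofReal_re _).symm (by rw [h.2, Complex.ofReal_im])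
  have h2 : ‖z‖ = z.re := by
    rw [h1, Complex.norm_real, Real.norm_eq_abs, Complex.ofReal_re, abs_of_nonneg h.1]
  rw [h2]
  exact h1

/-- the limit is a nonnegative real number -/
theorem legs_real {q : ℂ} (hq : q ^ 2 + q + 1 = 0) (kb kt : ℕ) {L : ℕ} (hL : 0 < L) (hE : Even L)
    {Pb P : Pat L → MvPolynomial ℕ ℂ} (hPb : IsPsi (q ^ 2) L Pb) (hP : IsPsi q L P) :
    WB kb kt (ev Pb fun _ => 1) (ev P fun _ => 1) / EE 1 Pb P (fun _ => 1) =
      ((‖WB kb kt (ev Pb fun _ => 1) (ev P fun _ => 1) / EE 1 Pb P (fun _ => 1)‖ : ℝ) : ℂ) := by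
  rcases isEmpty_or_nonempty (Pat L) with h | ⟨⟨α⟩⟩
  · have h0 : WB kb kt (ev Pb fun _ => 1) (ev P fun _ => 1) = 0 := by
      unfold WB
      rw [Finset.univ_eq_empty, Finset.sum_empty]
    rw [h0, zero_div, norm_zero, Complex.ofReal_zero]
  · exact ValI_norm (ValI_lim (tendsto_legs hq kb kt hL hE hPb hP α α) fun m =>
      ValI_WB kb kt (ValI_iter _ (ValI_single α)) (ValI_iter _ (ValI_single α)))

end Q4
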