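import Pool.Agent.Lib.MP_216314_pr.Q4.ValW

/-!
# The product formula for `rr` and the bounds

`rr 0 = 9 * 144/(4 * 27 * 24) = 1/2`. `rr_succ` from `Tw_rec` with `M = 2n+1` (`6n+8`, `6n+10`, `2n+3`, `2n+4`) and `(6n+10)! = (6n+4)! (6n+5)(6n+6)(6n+7)(6n+8)(6n+9)(6n+10)`, `(2n+2)! = (2n)! (2n+1)(2n+2)`, `27^(2n+3) = 27^(2n+1) 729`.
Bounds: `s n = (n+1) rr n`; with `N = n+1`: `s (n+1)/s n = (4N²-1)(3N+1)(3N+2)/((36N²-1) N (N+1)) ≤ 1`, and it is `≥ g (N+1)/g N` for `g N = 1 + 1/N` because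
`(4N²-1)(3N+1)(3N+2)(N+1)² ≥ (36N²-1) N (N+1) (N (N+2))` for `N ≥ 1` [`(36N⁴+36N³-N²-9N-2)(N+1)² ≥ (36N⁴+36N³-N²-N)((N+1)²-1)`, i.e. `36N⁴+36N³-N²-N ≥ (8N+2)(N+1)²`]. So `s n ≤ s 0 = 1/2` and `s n/g (n+1) ≥ s 0/g 1 = 1/4`.
-/

set_option autoImplicit false

noncomputable section

namespace Q4

open Finset

theorem rr_zero : rr 0 = 1 / 2 := by
  unfold rr
  have h1 : Tw (2 * 0 + 1) = 12 := Tw_one
  rw [h1]
  have h2 : ((6 * 0 + 4).factorial : ℝ) = 24 := by norm_num [Nat.factorial]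
  have h3 : ((2 * 0).factorial : ℝ) = 1 := by norm_num [Nat.factorial]
  rw [h2, h3]
  norm_num

theorem rr_succ (n : ℕ) : rr (n + 1) = rr n * ((2 * (n : ℝ) + 1) * (2 * n + 3) * (3 * n + 4) * (3 * n + 5) /
    (((n : ℝ) + 2) ^ 2 * (6 * n + 5) * (6 * n + 7))) := by
  have hT : Tw (2 * (n + 1) + 1) = 81 * (6 * (n : ℝ) + 8) * (6 * n + 10) * (2 * n + 3) * Tw (2 * n + 1) /
      (2 * (n : ℝ) + 4) := by
    have h1 := Tw_rec (2 * n + 1)
    rw [eq_div_iff (by positivity)]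
    have e1 : 2 * (n + 1) + 1 = 2 * n + 1 + 2 := by ring
    rw [e1]
    push_cast at h1
    calc Tw (2 * n + 1 + 2) * (2 * (n : ℝ) + 4) = Tw (2 * n + 1 + 2) * (2 * (n : ℝ) + 1 + 3) := by ring
      _ = 81 * (3 * (2 * (n : ℝ) + 1) + 5) * (3 * (2 * (n : ℝ) + 1) + 7) * (2 * (n : ℝ) + 1 + 2) * Tw (2 * n + 1) := h1
      _ = _ := by ring
  have hf1 : ((2 * (n + 1)).factorial : ℝ) = (2 * n).factorial * ((2 * (n : ℝ) + 1) * (2 * n + 2)) := by
    have e1 : 2 * (n + 1) = 2 * n + 1 + 1 := by ring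
    rw [e1, Nat.factorial_succ, Nat.factorial_succ]
    push_cast
    ring
  have hf2 : ((6 * (n + 1) + 4).factorial : ℝ) = (6 * n + 4).factorial *
      ((6 * (n : ℝ) + 5) * (6 * n + 6) * (6 * n + 7) * (6 * n + 8) * (6 * n + 9) * (6 * n + 10)) := by
    have e1 : 6 * (n + 1) + 4 = 6 * n + 4 + 1 + 1 + 1 + 1 + 1 + 1 := by ring
    rw [e1, Nat.factorial_succ, Nat.factorial_succ, Nat.factorial_succ, Nat.factorial_succ, Nat.factorial_succ,
      Nat.factorial_succ]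
    push_cast
    ring
  have hp : (27 : ℝ) ^ (2 * (n + 1) + 1) = 27 ^ (2 * n + 1) * 729 := by
    have e1 : 2 * (n + 1) + 1 = 2 * n + 1 + 2 := by ring
    rw [e1, pow_add]
    norm_num
  have hF : ((6 * n + 4).factorial : ℝ) ≠ 0 := Nat.cast_ne_zero.2 (Nat.factorial_ne_zero _)
  have hP : (27 : ℝ) ^ (2 * n + 1) ≠ 0 := by positivity
  unfold rr
  rw [hT, hf1, hf2, hp]
  generalize ((6 * n + 4).factorial : ℝ) = F at hF
  generalize (27 : ℝ) ^ (2 * n + 1) = P at hP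
  generalize Tw (2 * n + 1) = T
  generalize ((2 * n).factorial : ℝ) = G
  have hn : (0 : ℝ) ≤ n := Nat.cast_nonneg n
  generalize (n : ℝ) = x at hn
  have h1 : x + 1 ≠ 0 := by positivity
  have h2 : x + 2 ≠ 0 := by positivity
  have h3 : 2 * x + 3 ≠ 0 := by positivity
  have h4 : 3 * x + 4 ≠ 0 := by positivity
  have h5 : 3 * x + 5 ≠ 0 := by positivity
  have h6 : 6 * x + 5 ≠ 0 := by positivity
  have h7 : 6 * x + 7 ≠ 0 := by positivity
  have e1 : 6 * x + 6 = 6 * (x + 1) := by ring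
  have e2 : 6 * x + 8 = 2 * (3 * x + 4) := by ring
  have e3 : 6 * x + 9 = 3 * (2 * x + 3) := by ring
  have e4 : 6 * x + 10 = 2 * (3 * x + 5) := by ring
  have e5 : 2 * x + 4 = 2 * (x + 2) := by ring
  have e6 : 2 * x + 2 = 2 * (x + 1) := by ring
  rw [e1, e2, e3, e4, e5, e6]
  rw [div_mul_div_comm, div_eq_div_iff (by positivity) (by positivity)]
  field_simp
  ring

theorem ValR_step (n : ℕ) : ((n : ℝ) + 2) * rr (n + 1) = (((n : ℝ) + 1) * rr n) *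
    ((2 * (n : ℝ) + 1) * (2 * n + 3) * (3 * n + 4) * (3 * n + 5) /
      (((n : ℝ) + 1) * (n + 2) * (6 * n + 5) * (6 * n + 7))) := by
  rw [rr_succ]
  have hn : (0 : ℝ) ≤ n := Nat.cast_nonneg n
  field_simp

theorem ValR_both (n : ℕ) : 1 / 4 * (((n : ℝ) + 2) / ((n : ℝ) + 1)) ≤ ((n : ℝ) + 1) * rr n ∧
    ((n : ℝ) + 1) * rr n ≤ 1 / 2 := by
  induction n with
  | zero =>
    rw [rr_zero]
    norm_num
  | succ n ih =>
    obtain ⟨h1, h2⟩ := ih
    have h3 := ValR_step n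
    have hn : (0 : ℝ) ≤ n := Nat.cast_nonneg n
    have e1 : (((n + 1 : ℕ) : ℝ) + 1) * rr (n + 1) = ((n : ℝ) + 2) * rr (n + 1) := by
      push_cast
      ring
    have e2 : 1 / 4 * ((((n + 1 : ℕ) : ℝ) + 2) / (((n + 1 : ℕ) : ℝ) + 1)) = 1 / 4 * (((n : ℝ) + 3) / ((n : ℝ) + 2)) := by
      push_cast
      ring
    rw [e1, e2, h3]
    generalize ((n : ℝ) + 1) * rr n = s at h1 h2
    generalize (n : ℝ) = x at hn h1
    have hρ0 : 0 ≤ (2 * x + 1) * (2 * x + 3) * (3 * x + 4) * (3 * x + 5) /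
      ((x + 1) * (x + 2) * (6 * x + 5) * (6 * x + 7)) := by positivity
    have hρ1 : (2 * x + 1) * (2 * x + 3) * (3 * x + 4) * (3 * x + 5) /
      ((x + 1) * (x + 2) * (6 * x + 5) * (6 * x + 7)) ≤ 1 := by
      rw [div_le_one (by positivity)]
      have : (x + 1) * (x + 2) * (6 * x + 5) * (6 * x + 7) - (2 * x + 1) * (2 * x + 3) * (3 * x + 4) * (3 * x + 5) =
          8 * (x + 1) + 2 := by ring
      linarith
    have hρ2 : (x + 3) / (x + 2) ≤ (x + 2) / (x + 1) * ((2 * x + 1) * (2 * x + 3) * (3 * x + 4) * (3 * x + 5) /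
      ((x + 1) * (x + 2) * (6 * x + 5) * (6 * x + 7))) := by
      rw [div_mul_div_comm, div_le_div_iff₀ (by positivity) (by positivity)]
      have : (x + 2) * ((2 * x + 1) * (2 * x + 3) * (3 * x + 4) * (3 * x + 5)) * (x + 2) -
          (x + 3) * ((x + 1) * ((x + 1) * (x + 2) * (6 * x + 5) * (6 * x + 7))) =
          (x + 2) * (36 * x ^ 3 + 100 * x ^ 2 + 81 * x + 15) := by ring
      have h5 : 0 ≤ (x + 2) * (36 * x ^ 3 + 100 * x ^ 2 + 81 * x + 15) := by positivity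
      linarith
    generalize (2 * x + 1) * (2 * x + 3) * (3 * x + 4) * (3 * x + 5) /
      ((x + 1) * (x + 2) * (6 * x + 5) * (6 * x + 7)) = ρ at hρ0 hρ1 hρ2
    have hs : 0 ≤ s := le_trans (by positivity) h1
    constructor
    · calc 1 / 4 * ((x + 3) / (x + 2)) ≤ 1 / 4 * ((x + 2) / (x + 1) * ρ) :=
          mul_le_mul_of_nonneg_left hρ2 (by norm_num)
        _ = 1 / 4 * ((x + 2) / (x + 1)) * ρ := by ring
        _ ≤ s * ρ := mul_le_mul_of_nonneg_right h1 hρ0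
    · calc s * ρ ≤ s * 1 := mul_le_mul_of_nonneg_left hρ1 hs
        _ = s := mul_one s
        _ ≤ 1 / 2 := h2

theorem rr_bound (n : ℕ) : 1 / 4 ≤ ((n : ℝ) + 1) * rr n ∧ ((n : ℝ) + 1) * rr n ≤ 1 / 2 := by
  obtain ⟨h1, h2⟩ := ValR_both n
  refine ⟨le_trans ?_ h1, h2⟩
  have hn : (0 : ℝ) ≤ n := Nat.cast_nonneg n
  have h3 : 1 ≤ ((n : ℝ) + 2) / ((n : ℝ) + 1) := by
    rw [one_le_div (by positivity)]
    linarith
  linarith

end Q4
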