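import Pool.Agent.Lib.MP_216314_pr.Q4.ValH
import Pool.Agent.Lib.MP_216314_pr.Q4.ValR
import Pool.Agent.Lib.MP_216314_pr.Q4.ValI

/-!
# The four-leg probability on the cylinder of circumference `L` decays like `L^(-5/4)`
-/

set_option autoImplicit false

noncomputable section

namespace Q4

open Finset CY Filter Topology

theorem four_asy {q : ℂ} (hq : q ^ 2 + q + 1 = 0) : ∃ c C : ℝ, 0 < c ∧ 0 < C ∧ ∀ (n : ℕ)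
    (Pb P : Pat (2 * n + 2) → MvPolynomial ℕ ℂ), IsPsi (q ^ 2) (2 * n + 2) Pb → IsPsi q (2 * n + 2) P →
    c * ((n : ℝ) + 1) ^ (-(5 / 4) : ℝ) ≤
        ‖WB 2 2 (ev Pb fun _ => 1) (ev P fun _ => 1) / EE 1 Pb P (fun _ => 1)‖ ∧
      ‖WB 2 2 (ev Pb fun _ => 1) (ev P fun _ => 1) / EE 1 Pb P (fun _ => 1)‖ ≤
        C * ((n : ℝ) + 1) ^ (-(5 / 4) : ℝ) := by
  obtain ⟨c, C, hc, hC, H⟩ := CYQ.ratio_neg_one hq
  refine ⟨c / 4 * 2 ^ (-(1 / 4) : ℝ), C / 2 * 2 ^ (-(1 / 4) : ℝ), by positivity, by positivity, ?_⟩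
  intro n Pb P hPb hP
  obtain ⟨h1, h2⟩ := H n Pb P hPb hP
  obtain ⟨r1, r2⟩ := rr_bound n
  have hn : (0 : ℝ) < (n : ℝ) + 1 := by positivity
  have hr : 0 < rr n := by
    by_contra h
    have h3 : ((n : ℝ) + 1) * rr n ≤ 0 := mul_nonpos_of_nonneg_of_nonpos hn.le (not_lt.1 h)
    linarith
  have e0 : ((2 * n + 2 : ℕ) : ℝ) = 2 * ((n : ℝ) + 1) := by
    push_cast
    ring
  have e1 : ((2 * n + 2 : ℕ) : ℝ) ^ (-(1 / 4) : ℝ) = 2 ^ (-(1 / 4) : ℝ) * ((n : ℝ) + 1) ^ (-(1 / 4) : ℝ) := by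
    rw [e0, Real.mul_rpow (by norm_num) hn.le]
  have e2 : ((n : ℝ) + 1) ^ (-(5 / 4) : ℝ) = ((n : ℝ) + 1) ^ (-(1 / 4) : ℝ) / ((n : ℝ) + 1) := by
    have h : (-(5 / 4) : ℝ) = -(1 / 4) - 1 := by norm_num
    rw [h, Real.rpow_sub hn, Real.rpow_one]
  have e3 : WB 2 2 (ev Pb fun _ => 1) (ev P fun _ => 1) / EE 1 Pb P (fun _ => 1) =
      (rr n : ℂ) * (EE (-1) Pb P (fun _ => 1) / EE 1 Pb P (fun _ => 1)) := by
    rw [four_value n hq hPb hP, mul_div_assoc]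
  rw [e3, norm_mul, Complex.norm_real, Real.norm_eq_abs, abs_of_pos hr, e2]
  rw [e1] at h1 h2
  have hx : 0 < ((n : ℝ) + 1) ^ (-(1 / 4) : ℝ) := Real.rpow_pos_of_pos hn _
  have h2p : (0 : ℝ) < 2 ^ (-(1 / 4) : ℝ) := Real.rpow_pos_of_pos (by norm_num) _
  have b1 : 1 / 4 / ((n : ℝ) + 1) ≤ rr n := by
    rw [div_le_iff₀ hn]
    linarith
  have b2 : rr n ≤ 1 / 2 / ((n : ℝ) + 1) := by
    rw [le_div_iff₀ hn]
    linarith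
  constructor
  · calc c / 4 * 2 ^ (-(1 / 4) : ℝ) * (((n : ℝ) + 1) ^ (-(1 / 4) : ℝ) / ((n : ℝ) + 1))
        = (1 / 4 / ((n : ℝ) + 1)) * (c * (2 ^ (-(1 / 4) : ℝ) * ((n : ℝ) + 1) ^ (-(1 / 4) : ℝ))) := by
          field_simp
      _ ≤ rr n * ‖EE (-1) Pb P (fun _ => 1) / EE 1 Pb P (fun _ => 1)‖ :=
          mul_le_mul b1 h1 (by positivity) hr.le
  · calc rr n * ‖EE (-1) Pb P (fun _ => 1) / EE 1 Pb P (fun _ => 1)‖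
        ≤ (1 / 2 / ((n : ℝ) + 1)) * (C * (2 ^ (-(1 / 4) : ℝ) * ((n : ℝ) + 1) ^ (-(1 / 4) : ℝ))) :=
          mul_le_mul b2 h2 (norm_nonneg _) (by positivity)
      _ = C / 2 * 2 ^ (-(1 / 4) : ℝ) * (((n : ℝ) + 1) ^ (-(1 / 4) : ℝ) / ((n : ℝ) + 1)) := by
          field_simp

/-- FOUR LEGS ON THE INFINITE CYLINDER: the limit exists, is real and decays like `(n+1)^(-5/4)` -/
theorem four_law {q : ℂ} (hq : q ^ 2 + q + 1 = 0) : ∃ c C : ℝ, 0 < c ∧ 0 < C ∧ ∀ (n : ℕ)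
    (Pb P : Pat (2 * n + 2) → MvPolynomial ℕ ℂ), IsPsi (q ^ 2) (2 * n + 2) Pb → IsPsi q (2 * n + 2) P →
    ∃ r : ℝ, c * ((n : ℝ) + 1) ^ (-(5 / 4) : ℝ) ≤ r ∧ r ≤ C * ((n : ℝ) + 1) ^ (-(5 / 4) : ℝ) ∧
      ∀ β α : Pat (2 * n + 2),
        Tendsto (fun m : ℕ => WB 2 2 ((TT^[2 * m]) (Pi.single β 1)) ((TT^[2 * m]) (Pi.single α 1))) atTop (𝓝 (r : ℂ)) := by
  obtain ⟨c, C, hc, hC, H⟩ := four_asy hq
  refine ⟨c, C, hc, hC, fun n Pb P hPb hP => ?_⟩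
  obtain ⟨h1, h2⟩ := H n Pb P hPb hP
  refine ⟨_, h1, h2, fun β α => ?_⟩
  rw [← legs_real hq 2 2 (by omega) ⟨n + 1, by ring⟩ hPb hP]
  exact tendsto_legs hq 2 2 (by omega) ⟨n + 1, by ring⟩ hPb hP β α

end Q4
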