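import Mathlib

/-!
# Definitions for the value at the homogeneous point

`ee : 1, 2, 4, 5, 7, 8, ...`; `hE m k = ∏ (k - ee j)`; `VE m` the Vandermonde determinant of `ee 0, .., ee (2m+1)`; `aa i = (3i)!/(i!)²`, `Tw M = ∑ (-1)^i (M - 2i) a_i a_{M-i}`, `rr n` the value of
(four legs)/(two legs) on the cylinder of circumference `2n+2`.
-/

set_option autoImplicit false

noncomputable section

namespace Q4

open Finset

/-- `1, 2, 4, 5, 7, 8, ...` -/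
def ee (j : ℕ) : ℕ := 3 * (j / 2) + 1 + j % 2

def hE (m : ℕ) (k : ℝ) : ℝ := ∏ j ∈ range (2 * m + 2), (k - (ee j : ℝ))

def VE (m : ℕ) : ℝ := (Matrix.vandermonde fun j : Fin (2 * m + 2) => ((ee j : ℕ) : ℝ)).det

def aa (i : ℕ) : ℝ := ((3 * i).factorial : ℝ) / ((i.factorial : ℝ) ^ 2)

def Tw (M : ℕ) : ℝ := ∑ i ∈ range (M + 1), (-1) ^ i * ((M : ℝ) - 2 * i) * (aa i * aa (M - i))

def rr (n : ℕ) : ℝ := 9 * ((2 * n).factorial : ℝ) * Tw (2 * n + 1) ^ 2 /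
  (4 * 27 ^ (2 * n + 1) * ((6 * n + 4).factorial : ℝ))

/-- the double sum -/
def SS (m : ℕ) (h : ℕ → ℝ) : ℝ := ∑ i ∈ range (m + 1), ∑ j ∈ range (m + 1),
  (-1) ^ (i + j) * ((m.choose i : ℝ) * (m.choose j : ℝ)) * ((3 * ((j : ℝ) + 1) - 3 * i) * (h i * h (j + 1)))

end Q4
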