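import Pool.Agent.Lib.MP_216314_pr.Q4.Phi
import Pool.Agent.Lib.MP_216314_pr.Q4.ValD

/-!
# The family `G_m(1)` up to unimodular column operations

`FF m j = X^(ee j)` for `j < 2m+2`, `(X³-1)^m`, `X³ (X³-1)^m`. `ueq_FF` by induction on `m`. `m = 0`: equal (`ee 0 = 1`, `ee 1 = 2`; `UEq.refl` up to `j < 4`; prove `UEq_congr`: if `g j = g' j` for `j < N` then `UEq N g g'`).
Step: `GG (m+1) 1 = pre X (X²) (fun j => (X³ - C (1^3)) * GG m 1 j)`. By `UEq.pre` with the induction hypothesis (`f = X³ - C (1^3)`) it is equivalent to `pre X (X²) (fun j => (X³ - C (1^3)) * FF m j)`. The last family is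
`X, X², X^4 - X, X^5 - X², X^7 - X^4, X^8 - X^5, ..., (X³-1)^(m+1), X³ (X³-1)^(m+1)`, and `X^(ee (j+2)) = X^(ee j + 3) = ∑_{i ≤ j, i = j mod 2} (X^(ee i + 3) - X^(ee i)) + X^(ee (j mod 2))`: so
`FF (m+1) j = ∑ i, C (U i j) * (that family) i` with `U i j = 1` if `i ≤ j`, `i = j mod 2`, `j < 2m+4`, or if `i = j`, and `0` otherwise; upper triangular with diagonal 1 (`Matrix.det_of_upperTriangular`). Then `UEq.trans`.
-/

set_option autoImplicit false

noncomputable section

namespace Q4

open Finset Polynomial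

def FF (m j : ℕ) : ℂ[X] := if j < 2 * m + 2 then X ^ (ee j) else if j = 2 * m + 2 then (X ^ 3 - 1) ^ m
  else X ^ 3 * (X ^ 3 - 1) ^ m

/-- unit upper triangular column operations -/
private theorem ValB_tri {N : ℕ} {g g' : ℕ → ℂ[X]} (c : ℕ → ℕ → ℂ)
    (h : ∀ j, j < N → g' j = (∑ i ∈ range j, C (c i j) * g i) + g j) : UEq N g g' := by
  refine ⟨Matrix.of fun i j : Fin N => if (i : ℕ) = j then (1 : ℂ) else if (i : ℕ) < j then c i j else 0, ?_, ?_⟩
  · rw [Matrix.det_of_isUpperTriangular]
    · refine Finset.prod_eq_one fun i _ => ?_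
      rw [Matrix.of_apply, if_pos rfl]
    · intro i j hij
      have h1 : (j : ℕ) < i := hij
      rw [Matrix.of_apply, if_neg (by omega), if_neg (by omega)]
  · intro j
    have h1 : ∑ i : Fin N, C ((Matrix.of fun i j : Fin N =>
        if (i : ℕ) = j then (1 : ℂ) else if (i : ℕ) < j then c i j else 0) i j) * g i =
        ∑ i ∈ range N, C (if i = j then (1 : ℂ) else if i < j then c i j else 0) * g i :=
      Fin.sum_univ_eq_sum_range
        (fun i => C (if i = j then (1 : ℂ) else if i < j then c i j else 0) * g i) N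
    rw [h1]
    have h2 : ∑ i ∈ range ((j : ℕ) + 1), C (if i = j then (1 : ℂ) else if i < j then c i j else 0) * g i =
        ∑ i ∈ range N, C (if i = j then (1 : ℂ) else if i < j then c i j else 0) * g i := by
      refine Finset.sum_subset (Finset.range_subset_range.2 j.2) fun i _ hi => ?_
      rw [Finset.mem_range, not_lt] at hi
      rw [if_neg (by omega), if_neg (by omega), map_zero, zero_mul]
    rw [← h2, Finset.sum_range_succ, if_pos rfl, map_one, one_mul, h j j.2]
    congr 1
    refine Finset.sum_congr rfl fun i hi => ?_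
    rw [Finset.mem_range] at hi
    rw [if_neg (by omega), if_pos hi]

theorem UEq_congr {N : ℕ} {g g' : ℕ → ℂ[X]} (h : ∀ j, j < N → g j = g' j) : UEq N g g' := by
  refine ValB_tri (fun _ _ => 0) fun j hj => ?_
  rw [Finset.sum_eq_zero fun i _ => by rw [map_zero, zero_mul], zero_add, h j hj]

private theorem ValB_ee (j : ℕ) : ee (j + 2) = ee j + 3 := by
  unfold ee
  omega

/-- the family before the last step -/
private def ValBg (m : ℕ) : ℕ → ℂ[X] := Q4.pre X (X ^ 2) (fun j => (X ^ 3 - C 1) * FF m j)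

private theorem ValBg_zero (m : ℕ) : ValBg m 0 = X := rfl

private theorem ValBg_one (m : ℕ) : ValBg m 1 = X ^ 2 := rfl

private theorem ValBg_add (m j : ℕ) : ValBg m (j + 2) = (X ^ 3 - C 1) * FF m j := by
  unfold ValBg Q4.pre
  rw [if_neg (by omega), if_neg (by omega)]
  rfl

private theorem ValBg_low (m j : ℕ) (hj : j < 2 * m + 2) :
    ValBg m (j + 2) = X ^ (ee (j + 2)) - X ^ (ee j) := by
  rw [ValBg_add]
  unfold FF
  rw [if_pos hj, ValB_ee, map_one, pow_add]
  ring

/-- the telescoping sum -/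
private theorem ValB_sum (m : ℕ) : ∀ j, j < 2 * m + 4 →
    ∑ i ∈ range (j + 1), C (if i % 2 = j % 2 then (1 : ℂ) else 0) * ValBg m i = X ^ (ee j) := by
  intro j
  induction j using Nat.strong_induction_on with
  | _ j ih =>
    intro hj
    match j, ih, hj with
    | 0, _, _ =>
      rw [zero_add, Finset.sum_range_one, if_pos rfl, map_one, one_mul, ValBg_zero]
      show X = X ^ 1
      rw [pow_one]
    | 1, _, _ =>
      rw [Finset.sum_range_succ, Finset.sum_range_one, if_neg (by omega), if_pos rfl, map_zero, zero_mul,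
        zero_add, map_one, one_mul, ValBg_one]
      rfl
    | j + 2, ih, hj =>
      rw [Finset.sum_range_succ, Finset.sum_range_succ, if_pos rfl, if_neg (by omega), map_zero, zero_mul,
        add_zero, map_one, one_mul, ValBg_low m j (by omega)]
      have h1 := ih j (by omega) (by omega)
      have h2 : ∑ i ∈ range (j + 1), C (if i % 2 = (j + 2) % 2 then (1 : ℂ) else 0) * ValBg m i = X ^ (ee j) := by
        rw [← h1]
        refine Finset.sum_congr rfl fun i _ => ?_
        have e : (j + 2) % 2 = j % 2 := by omega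
        rw [e]
      rw [h2]
      ring

theorem ueq_step (m : ℕ) : UEq (2 * m + 6) (pre X (X ^ 2) (fun j => (X ^ 3 - C 1) * FF m j)) (FF (m + 1)) := by
  refine ValB_tri (g := ValBg m) (fun i j => if j < 2 * m + 4 ∧ i % 2 = j % 2 then 1 else 0) fun j hj => ?_
  by_cases h : j < 2 * m + 4
  · have h1 := ValB_sum m j h
    rw [Finset.sum_range_succ, if_pos rfl, map_one, one_mul] at h1
    unfold FF
    rw [if_pos (by omega), ← h1]
    congr 1
    refine Finset.sum_congr rfl fun i _ => ?_
    by_cases h2 : i % 2 = j % 2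
    · rw [if_pos h2, if_pos ⟨h, h2⟩]
    · rw [if_neg h2, if_neg fun c => h2 c.2]
  · rw [Finset.sum_eq_zero fun i _ => by rw [if_neg fun c => h c.1, map_zero, zero_mul], zero_add]
    obtain ⟨i, rfl⟩ : ∃ i, j = i + 2 := ⟨j - 2, by omega⟩
    rw [ValBg_add]
    unfold FF
    have a1 : ¬ i + 2 < 2 * (m + 1) + 2 := by omega
    have a2 : ¬ i < 2 * m + 2 := by omega
    rw [if_neg a1, if_neg a2]
    by_cases h3 : i = 2 * m + 2
    · have a3 : i + 2 = 2 * (m + 1) + 2 := by omega
      rw [if_pos a3, if_pos h3, map_one, pow_succ]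
      ring
    · have a3 : ¬ i + 2 = 2 * (m + 1) + 2 := by omega
      rw [if_neg a3, if_neg h3, map_one, pow_succ]
      ring

theorem ueq_FF (m : ℕ) : UEq (2 * m + 4) (GG m fun _ => 1) (FF m) := by
  induction m with
  | zero =>
    refine UEq_congr fun j hj => ?_
    unfold FF
    match j, hj with
    | 0, _ =>
      rw [if_pos (by omega)]
      show X = X ^ 1
      rw [pow_one]
    | 1, _ =>
      rw [if_pos (by omega)]
      rfl
    | 2, _ =>
      rw [if_neg (by omega), if_pos (by omega), pow_zero]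
      rfl
    | 3, _ =>
      rw [if_neg (by omega), if_neg (by omega), pow_zero, mul_one]
      rfl
    | j + 4, hj => exact absurd hj (by omega)
  | succ m ih =>
    have h1 := UEq.pre ih X (X ^ 2) (X ^ 3 - C 1)
    have h2 := UEq.trans h1 (ueq_step m)
    have e : (GG (m + 1) fun _ => 1) = Q4.pre X (X ^ 2) fun j => (X ^ 3 - C 1) * GG m (fun _ => 1) j := by
      show Q4.pre X (X ^ 2) (fun j => (X ^ 3 - C ((1 : ℂ) ^ 3)) * GG m (fun _ => 1) j) = _
      rw [one_pow]
    rw [e]
    exact h2

theorem PhF_FF (m : ℕ) : PhF (2 * m + 4) (GG m fun _ => 1) (fun _ => 1) = PhF (2 * m + 4) (FF m) (fun _ => 1) :=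
  (PhF_ueq (ueq_FF m) _).symm

end Q4
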