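import Pool.Agent.Lib.MP_216314_pr.Q4.ValD

/-!
# The products `hE`

`∏_{j < 2t} (3t - ee j) = (3t)!/(3^t t!)`: the factors are the numbers `f ≤ 3t` not divisible by 3; induction on `t` in the form `∏_{j < 2t} (3t - ee j)`: not stable; better: reflect the product (`Finset.prod_range_reflect`): `3t - ee (2t-1-j) = ee j`
(so `∏_{j<2t} ee j = (3t)!/(3^t t!)`, induction: `ee (2t) ee (2t+1) = (3t+1)(3t+2)`). For `i ≤ m+1`: split the range at `2i`: `∏_{j < 2i} (3i - ee j) * ∏_{2i ≤ j < 2m+2} (3i - ee j)`, `ee (2i + j) = 3i + ee j`, the second product is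
`∏_{j < 2(m+1-i)} (-(ee j))`, an even number of signs.
-/

set_option autoImplicit false

noncomputable section

namespace Q4

open Finset

theorem prod_ee (t : ℕ) : ∏ j ∈ range (2 * t), (ee j : ℝ) = ((3 * t).factorial : ℝ) / (3 ^ t * (t.factorial : ℝ)) := by
  induction t with
  | zero => simp
  | succ t ih =>
    have h1 : ee (2 * t) = 3 * t + 1 := by
      unfold ee
      omega
    have h2 : ee (2 * t + 1) = 3 * t + 2 := by
      unfold ee
      omega
    have h3 : (3 * (t + 1)).factorial = (3 * t + 3) * ((3 * t + 2) * ((3 * t + 1) * (3 * t).factorial)) := by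
      rw [show 3 * (t + 1) = 3 * t + 2 + 1 by ring, Nat.factorial_succ, Nat.factorial_succ,
        Nat.factorial_succ]
    rw [show 2 * (t + 1) = 2 * t + 1 + 1 by ring, prod_range_succ, prod_range_succ, ih, h1, h2, h3,
      Nat.factorial_succ, pow_succ]
    have h4 : (t.factorial : ℝ) ≠ 0 := Nat.cast_ne_zero.2 (Nat.factorial_ne_zero t)
    have h5 : ((t : ℝ) + 1) ≠ 0 := by positivity
    push_cast
    field_simp

private theorem ValE_a (i : ℕ) : ∏ j ∈ range (2 * i), (3 * (i : ℝ) - (ee j : ℝ)) =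
    ∏ j ∈ range (2 * i), (ee j : ℝ) := by
  rw [← prod_range_reflect (fun j => (ee j : ℝ)) (2 * i)]
  refine prod_congr rfl fun j hj => ?_
  rw [mem_range] at hj
  have h1 : ee (2 * i - 1 - j) + ee j = 3 * i := by
    unfold ee
    omega
  have h2 : ((ee (2 * i - 1 - j) : ℕ) : ℝ) + ((ee j : ℕ) : ℝ) = 3 * (i : ℝ) := by
    rw [← Nat.cast_add, h1]
    push_cast
    rfl
  linarith

private theorem ValE_b (i s : ℕ) : ∏ j ∈ range (2 * s), (3 * (i : ℝ) - (ee (2 * i + j) : ℝ)) =
    ∏ j ∈ range (2 * s), (ee j : ℝ) := by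
  have h0 : ∀ j ∈ range (2 * s), (3 * (i : ℝ) - (ee (2 * i + j) : ℝ)) = (-1) * (ee j : ℝ) := by
    intro j _
    have h1 : ee (2 * i + j) = 3 * i + ee j := by
      unfold ee
      omega
    rw [h1]
    push_cast
    ring
  rw [prod_congr rfl h0, prod_mul_distrib, prod_const, card_range, pow_mul, neg_one_sq, one_pow,
    one_mul]

theorem hE_val (m i : ℕ) (hi : i ≤ m + 1) : hE m (3 * i) =
    ((3 * i).factorial : ℝ) * ((3 * (m + 1 - i)).factorial : ℝ) /
      (3 ^ (m + 1) * ((i.factorial : ℝ) * ((m + 1 - i).factorial : ℝ))) := by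
  obtain ⟨s, hs⟩ := Nat.exists_eq_add_of_le hi
  have h1 : m + 1 - i = s := by omega
  unfold hE
  rw [h1, hs, show 2 * m + 2 = 2 * i + 2 * s by omega, prod_range_add, ValE_a, ValE_b, prod_ee,
    prod_ee, pow_add, div_mul_div_comm]
  congr 1
  ring

end Q4
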