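import Pool.Agent.Lib.MP_216314_pr.Q4.ValA
import Pool.Agent.Lib.MP_216314_pr.Q4.ValE
import Pool.Agent.Lib.MP_216314_pr.Q.QDef

/-!
# The Vandermonde determinant of `1, 2, 4, 5, ...`

`VE (m+1) = VE m * ∏_{j < 2m+2} (ee (2m+2) - ee j) * ∏_{j < 2m+3} (ee (2m+3) - ee j)` (`vdm_succ` twice), with `M = m+1`: `ee (2m+2) = 3M+1`, `ee (2m+3) = 3M+2`, last factor 1.
`∏_{j<2M} (3M+1 - ee j)(3M+2 - ee j) = 3^M M! (3M+1)!` (reflect: `3M - ee (2M-1-j) = ee j`, so it is `∏_{j<2M} (ee j + 1)(ee j + 2)`; induction on `M`).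
`VE_val` by induction.
-/

set_option autoImplicit false

noncomputable section

namespace Q4

open Finset

private theorem ValF_ee_even (t : ℕ) : ee (2 * t) = 3 * t + 1 := by
  unfold ee
  omega

private theorem ValF_ee_odd (t : ℕ) : ee (2 * t + 1) = 3 * t + 2 := by
  unfold ee
  omega

/-- `∏ (ee j + 1) (ee j + 2)` -/
private theorem ValF_prod (M : ℕ) : ∏ j ∈ range (2 * M), (((ee j : ℝ) + 1) * ((ee j : ℝ) + 2)) =
    3 ^ M * (M.factorial : ℝ) * ((3 * M + 1).factorial : ℝ) := by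
  induction M with
  | zero => simp
  | succ M ih =>
    rw [show 2 * (M + 1) = 2 * M + 1 + 1 from by ring, Finset.prod_range_succ,
      Finset.prod_range_succ, ih, ValF_ee_even, ValF_ee_odd,
      show 3 * (M + 1) + 1 = 3 * M + 1 + 1 + 1 + 1 from by ring]
    simp only [Nat.factorial_succ (3 * M + 1 + 1 + 1), Nat.factorial_succ (3 * M + 1 + 1),
      Nat.factorial_succ (3 * M + 1), Nat.factorial_succ M]
    push_cast
    ring

private theorem ValF_refl (M j : ℕ) (hj : j < 2 * M) : ee (2 * M - 1 - j) + ee j = 3 * M := by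
  unfold ee
  omega

private theorem ValF_prod' (M : ℕ) :
    ∏ j ∈ range (2 * M), (((3 * M + 1 : ℕ) : ℝ) - (ee j : ℝ)) *
      (((3 * M + 2 : ℕ) : ℝ) - (ee j : ℝ)) =
    3 ^ M * (M.factorial : ℝ) * ((3 * M + 1).factorial : ℝ) := by
  rw [← ValF_prod, ← Finset.prod_range_reflect]
  refine Finset.prod_congr rfl fun j hj => ?_
  have h := ValF_refl M j (Finset.mem_range.1 hj)
  have h' : (ee (2 * M - 1 - j) : ℝ) + (ee j : ℝ) = 3 * M := by exact_mod_cast h
  have e1 : ((3 * M + 1 : ℕ) : ℝ) - (ee (2 * M - 1 - j) : ℝ) = (ee j : ℝ) + 1 := by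
    push_cast
    linarith
  have e2 : ((3 * M + 2 : ℕ) : ℝ) - (ee (2 * M - 1 - j) : ℝ) = (ee j : ℝ) + 2 := by
    push_cast
    linarith
  rw [e1, e2]

private theorem ValF_VE (N : ℕ) (v : ℕ → ℝ) :
    (Matrix.vandermonde fun j : Fin (N + 1) => v j).det =
      (Matrix.vandermonde fun j : Fin N => v j).det * ∏ j ∈ range N, (v N - v j) := by
  have key : ∀ K : ℕ, (Matrix.vandermonde fun j : Fin K => ((v j : ℝ) : ℂ)).det =
      (((Matrix.vandermonde fun j : Fin K => v j).det : ℝ) : ℂ) := by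
    intro K
    rw [← Complex.ofRealHom_eq_coe, RingHom.map_det]
    congr 1
    ext i j
    rw [RingHom.mapMatrix_apply, Matrix.map_apply, Matrix.vandermonde_apply,
      Matrix.vandermonde_apply, map_pow, Complex.ofRealHom_eq_coe]
  have h := vdm_succ N (fun j => ((v j : ℝ) : ℂ))
  have h1 := key (N + 1)
  have h2 := key N
  rw [h1, h2] at h
  have h3 : ∏ j ∈ range N, (((v N : ℝ) : ℂ) - ((v j : ℝ) : ℂ)) =
      ((∏ j ∈ range N, (v N - v j) : ℝ) : ℂ) := by
    push_cast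
    rfl
  rw [h3, ← Complex.ofReal_mul, Complex.ofReal_inj] at h
  exact h

theorem VE_succ (m : ℕ) : VE (m + 1) = VE m * (3 ^ (m + 1) * ((m + 1).factorial : ℝ) * ((3 * m + 4).factorial : ℝ)) := by
  have h1 := ValF_VE (2 * m + 3) (fun j => ((ee j : ℕ) : ℝ))
  have h2 := ValF_VE (2 * m + 2) (fun j => ((ee j : ℕ) : ℝ))
  have h0 : VE (m + 1) = (Matrix.vandermonde fun j : Fin (2 * m + 3 + 1) => ((ee j : ℕ) : ℝ)).det := by
    unfold VE
    rfl
  have h0' : VE m = (Matrix.vandermonde fun j : Fin (2 * m + 2) => ((ee j : ℕ) : ℝ)).det := rfl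
  have hp := ValF_prod' (m + 1)
  rw [show 2 * (m + 1) = 2 * m + 2 from by ring, show 3 * (m + 1) + 1 = 3 * m + 4 from by ring,
    show 3 * (m + 1) + 2 = 3 * m + 5 from by ring, Finset.prod_mul_distrib] at hp
  have e1 : ee (2 * m + 2) = 3 * m + 4 := by
    unfold ee
    omega
  have e2 : ee (2 * m + 3) = 3 * m + 5 := by
    unfold ee
    omega
  have hlast : ∏ j ∈ range (2 * m + 3), (((ee (2 * m + 3) : ℕ) : ℝ) - ((ee j : ℕ) : ℝ)) =
      ∏ j ∈ range (2 * m + 2), (((3 * m + 5 : ℕ) : ℝ) - ((ee j : ℕ) : ℝ)) := by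
    rw [Finset.prod_range_succ (fun j => ((ee (2 * m + 3) : ℕ) : ℝ) - ((ee j : ℕ) : ℝ)) (2 * m + 2),
      e1, e2]
    have : ((3 * m + 5 : ℕ) : ℝ) - ((3 * m + 4 : ℕ) : ℝ) = 1 := by
      push_cast
      ring
    rw [this, mul_one]
  rw [h0, h1, h2, ← h0', e1, hlast, mul_assoc, hp]

theorem VE_val (m : ℕ) : VE m * (((m + 1).factorial : ℝ) * ((3 * m + 4).factorial : ℝ)) =
    CYQ.An (m + 2) * 3 ^ ((m + 1) * m / 2) * ∏ l ∈ range (2 * m + 4), (l.factorial : ℝ) := by
  induction m with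
  | zero =>
    have hV : VE 0 = 1 := by
      unfold VE
      rw [Matrix.det_fin_two]
      simp [Matrix.vandermonde_apply, ee]
    rw [hV]
    unfold CYQ.An
    norm_num [Finset.prod_range_succ, Nat.factorial]
  | succ m ih =>
    have hA : CYQ.An (m + 1 + 2) = CYQ.An (m + 2) *
        ((((3 * (m + 2) + 1).factorial : ℝ) * ((m + 2).factorial : ℝ)) /
          (((2 * (m + 2)).factorial : ℝ) * ((2 * (m + 2) + 1).factorial : ℝ))) := by
      unfold CYQ.An
      rw [Finset.prod_range_succ (n := m + 2)]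
    have hE : (m + 1 + 1) * (m + 1) / 2 = (m + 1) * m / 2 + (m + 1) := by
      have : (m + 1 + 1) * (m + 1) = (m + 1) * m + (m + 1) * 2 := by ring
      rw [this, Nat.add_mul_div_right _ _ (by norm_num)]
    have hP : ∏ l ∈ range (2 * (m + 1) + 4), (l.factorial : ℝ) =
        (∏ l ∈ range (2 * m + 4), (l.factorial : ℝ)) * ((2 * (m + 2)).factorial : ℝ) *
          ((2 * (m + 2) + 1).factorial : ℝ) := by
      rw [show 2 * (m + 1) + 4 = 2 * m + 4 + 1 + 1 from by ring, Finset.prod_range_succ,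
        Finset.prod_range_succ, show 2 * (m + 2) = 2 * m + 4 from by ring]
    rw [VE_succ, hA, hE, hP, pow_add 3 ((m + 1) * m / 2) (m + 1), show m + 1 + 1 = m + 2 from rfl,
      show 3 * (m + 1) + 4 = 3 * (m + 2) + 1 from by ring]
    have n1 : ((2 * (m + 2)).factorial : ℝ) ≠ 0 := by positivity
    have n2 : ((2 * (m + 2) + 1).factorial : ℝ) ≠ 0 := by positivity
    calc VE m * (3 ^ (m + 1) * ((m + 1).factorial : ℝ) * ((3 * m + 4).factorial : ℝ)) *
          (((m + 2).factorial : ℝ) * ((3 * (m + 2) + 1).factorial : ℝ))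
        = (VE m * (((m + 1).factorial : ℝ) * ((3 * m + 4).factorial : ℝ))) * 3 ^ (m + 1) *
          (((m + 2).factorial : ℝ) * ((3 * (m + 2) + 1).factorial : ℝ)) := by ring
      _ = _ := by
        rw [ih]
        field_simp


end Q4
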