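import Pool.Agent.Lib.MP_216314_pr.Q4.LSym

/-!
# Two strands: all sites are legs

Period `2`, `kb = kt = 2`: nothing is glued (`2 ≤ x % 2` is impossible). A pattern `α : Pat 2` has `α 0 = 1` or `α 0 = -1` (`Pat.lt_per`, `Pat.parity`); the second one is the
reference pattern (`IsRef`: `α x = -1-x` for `-2 ≤ 2x < 2`, i.e. `x = -1, 0`). `WL 2 2 β α` iff `α 0 ≠ 1` and `β 0 ≠ 1`: if `α 0 = 1` the legs `(true,0)`, `(true,1)` are joined.
Conversely if `α 0 = -1` (so `α 1 = 2`, by periodicity) and `β 0 = -1`: separating sets: `{(true,0),(true,-1)}` (closed), `{(true,1),(true,2)}`, `{(false,0),(false,-1)}`,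
`{(false,1),(false,2)}`.
-/

set_option autoImplicit false

noncomputable section

namespace CY

open Finset

theorem LB_ref {α : Pat 2} (h : α.f 0 ≠ 1) : IsRef α := by
  have h1 := α.lt_per 0
  have h2 := α.ne 0
  rw [sub_zero] at h1
  rw [abs_lt] at h1
  obtain ⟨h3, h4⟩ := h1
  push_cast at h3 h4
  have h5 : α.f 0 = -1 := by omega
  intro x hx1 hx2
  push_cast at hx1 hx2
  have hx : x = -1 ∨ x = 0 := by omega
  rcases hx with rfl | rfl
  · rw [← h5, α.inv, h5]
    norm_num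
  · rw [h5]
    norm_num

theorem LB_not {α : Pat 2} (h : IsRef α) : α.f 0 = -1 ∧ α.f 1 = 2 := by
  have h0 := h 0 (by norm_num) (by norm_num)
  have h1 := h (-1) (by norm_num) (by norm_num)
  rw [sub_zero] at h0
  refine ⟨h0, ?_⟩
  have h2 := α.per (-1)
  rw [h1] at h2
  norm_num at h2
  exact h2

/-- the separating set of a node -/
def LB_S (β α : Pat 2) (u : Bool × ℤ) : Set (Bool × ℤ) :=
  {w | w.1 = u.1 ∧ (w.2 = u.2 ∨ (w.1 = true ∧ w.2 = α.f u.2) ∨ (w.1 = false ∧ w.2 = β.f u.2))}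

theorem LB_closed (β α : Pat 2) (u : Bool × ℤ) : LCl 2 2 β α (LB_S β α u) := by
  refine ⟨?_, ?_, ?_⟩
  · intro x hx
    obtain ⟨h1, h2⟩ := hx
    refine ⟨h1, ?_⟩
    rcases h2 with h2 | ⟨_, h2⟩ | ⟨h3, _⟩
    · right
      left
      refine ⟨rfl, ?_⟩
      change x = u.2 at h2
      show α.f x = α.f u.2
      rw [h2]
    · left
      change x = α.f u.2 at h2
      show α.f x = u.2
      rw [h2, α.inv]
    · exact absurd h3 (by simp)
  · intro x hx
    obtain ⟨h1, h2⟩ := hx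
    refine ⟨h1, ?_⟩
    rcases h2 with h2 | ⟨h3, _⟩ | ⟨_, h2⟩
    · right
      right
      refine ⟨rfl, ?_⟩
      change x = u.2 at h2
      show β.f x = β.f u.2
      rw [h2]
    · exact absurd h3 (by simp)
    · left
      change x = β.f u.2 at h2
      show β.f x = u.2
      rw [h2, β.inv]
  · intro x hx
    exfalso
    have h1 := Int.emod_lt_of_pos x (show (0 : ℤ) < ((2 : ℕ) : ℤ) by norm_num)
    omega

theorem LB_self (β α : Pat 2) (u : Bool × ℤ) : u ∈ LB_S β α u := ⟨rfl, Or.inl rfl⟩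

theorem wl_two (β α : Pat 2) : WL 2 2 β α ↔ IsRef β ∧ IsRef α := by
  constructor
  · intro hw
    constructor
    · refine LB_ref (fun h0 => ?_)
      obtain ⟨S, hS, h1, h2⟩ := hw (false, 0) (false, 1)
        ⟨le_refl _, Or.inr ⟨rfl, by show (0 : ℤ) < ((2 : ℕ) : ℤ); norm_num⟩⟩
        ⟨by show (0 : ℤ) ≤ 1; norm_num, Or.inr ⟨rfl, by show (1 : ℤ) < ((2 : ℕ) : ℤ); norm_num⟩⟩
        (by simp)
      have h3 := hS.bot _ h1
      rw [h0] at h3
      exact h2 h3
    · refine LB_ref (fun h0 => ?_)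
      obtain ⟨S, hS, h1, h2⟩ := hw (true, 0) (true, 1)
        ⟨le_refl _, Or.inl ⟨rfl, by show (0 : ℤ) < ((2 : ℕ) : ℤ); norm_num⟩⟩
        ⟨by show (0 : ℤ) ≤ 1; norm_num, Or.inl ⟨rfl, by show (1 : ℤ) < ((2 : ℕ) : ℤ); norm_num⟩⟩
        (by simp)
      have h3 := hS.top _ h1
      rw [h0] at h3
      exact h2 h3
  · rintro ⟨hβ, hα⟩ u v hu hv huv
    refine ⟨LB_S β α u, LB_closed β α u, LB_self β α u, ?_⟩
    obtain ⟨b1, b2⟩ := LB_not hβ
    obtain ⟨a1, a2⟩ := LB_not hα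
    have cu : u.2 = 0 ∨ u.2 = 1 := by
      obtain ⟨h0, ⟨_, h1⟩ | ⟨_, h1⟩⟩ := hu
      · push_cast at h1
        omega
      · push_cast at h1
        omega
    have cv : v.2 = 0 ∨ v.2 = 1 := by
      obtain ⟨h0, ⟨_, h1⟩ | ⟨_, h1⟩⟩ := hv
      · push_cast at h1
        omega
      · push_cast at h1
        omega
    rintro ⟨h1, h2 | ⟨_, h2⟩ | ⟨_, h2⟩⟩
    · exact huv (Prod.ext h1.symm h2.symm)
    · rcases cu with cu | cu
      · rw [cu, a1] at h2
        omega
      · rw [cu, a2] at h2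
        omega
    · rcases cu with cu | cu
      · rw [cu, b1] at h2
        omega
      · rw [cu, b2] at h2
        omega

end CY
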