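import Pool.Agent.Lib.MP_216314_pr.Q4.LSym

/-!
# A monoid between the two patterns

`WL (e (kb+i) β) α ↔ WL β (e (kt+i) α)` for `0 ≤ i`, `i + 1 < m` (`m` = number of glued sites per period). One direction is enough (`wl_comm`).
Notation: `a = kt + i`, `a' = kb + i`; the top sites `≡ a, a+1 (mod Lt)` are glued to the bottom sites `≡ a', a'+1 (mod Lb)` (`tb_apply`).
Let `S` be closed for `(e a' β, α)`. Define `S'` : `(t, x) ∈ S'` iff
  `t = true`, `x ≢ a, a+1`: `(true, x) ∈ S`;  `t = false`, `x ≢ a', a'+1`: `(false, x) ∈ S`;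
  `t = false`, `x ≡ a'` or `a'+1`: `(false, β.f x) ∈ S` if `β.f x ≢ a', a'+1`; and if `β.f x ≡ a'` or `a'+1` (then `x`, `β.f x` are different, one is `≡ a'` and
     the other is `≡ a'+1` by parity, `Pat.parity`): `False` (or any value constant on such pairs: see below);
  `t = true`, `x ≡ a` or `a+1`: `(false, tb x) ∈ S'`.
Claim: `S'` is closed for `(β, e a α)`. glue: by definition. bot: `x ∉ {a', a'+1}`, `y = β x ∉ {a',a'+1}`: `(e a' β) x = y`. `x ∉`, `y = β x ∈ {a', a'+1}`: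
`(false, y) ∈ S' ↔ (false, β y) = (false, x) ∈ S` by definition. top: `e a α`: (1) `x ≡ a`, image `x+1`: need `(true,x) ∈ S' ↔ (true,x+1) ∈ S'`: with
`x' = tb x`, `tb (x+1) = x'+1`: `(false, x') ∈ S' ↔ (false, β x') ∈ S`; `(false, x'+1) ∈ S' ↔ (false, β (x'+1)) ∈ S`, and `e a' β` maps `β x'` to `β (x'+1)` (if
`β x'` is not `≡ a', a'+1`); in the other case both are `False` (if `β x' ≡ a'+1` then `β (x'+1) ≡ a'` as well, by periodicity and involution).
(2) `x ∉ {a, a+1}`, `α x ∉ {a, a+1}`: unchanged. (3) `x ∉ {a,a+1}`, `y = α x ≡ a`: image `α (y+1)`. If `α (y+1) ≢ a, a+1`: in `S`: `(true, x) ∈ S ↔ (true, y) ∈ S ↔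
(false, tb y) ∈ S ↔ (false, (e a' β)(tb y)) = (false, tb y + 1) ∈ S ↔ (true, y+1) ∈ S ↔ (true, α (y+1)) ∈ S`. (`α (y+1) ≡ a` or `a+1` is impossible: `α (y+1) = y' `
with `y' ≡ a`, then `y+1 = α y'`, and by periodicity `α y ≡ a+1`, contradiction; `y' ≡ a+1` contradicts the parity.) Same for `y ≡ a+1`.
Legs `u` (residues `< kt` above, `< kb` below) are in `S'` iff they are in `S`. (`IsLeg` and `kt ≤ a`, `kb ≤ a'`, `a + 1 < Lt`, `a' + 1 < Lb`.)
It is convenient to use `Pat.e_of_dvd`, `e_of_dvd'`, `e_of_partner`, `e_of_partner'`, `e_of_not` (Z/RelA).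
-/

set_option autoImplicit false

noncomputable section

namespace CY

open Finset

section

open Pat

variable {L : ℕ}

theorem LE_nbnb (α : Pat L) {i x : ℤ} (h : RelA_In L i x) :
    RelA_nb L i (RelA_nb L i x) = x := by
  have h1 := RelA_e_in α h
  have h2 := RelA_e_in α (RelA_nb_in h)
  rw [← h2, ← h1, (e i α).inv]

theorem LE_notin (α : Pat L) {i x : ℤ} (h : ¬ RelA_In L i x) (h' : RelA_In L i (α.f x)) :
    ¬ RelA_In L i (α.f (RelA_nb L i (α.f x))) := by
  intro hw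
  have hn : RelA_In L i (RelA_nb L i (α.f x)) := RelA_nb_in h'
  rcases RelA_pair hn hw with ⟨k, hk⟩ | ⟨k, hk⟩
  · have h1 := α.parity (RelA_nb L i (α.f x))
    have h2 : α.f (RelA_nb L i (α.f x)) - RelA_nb L i (α.f x) = k * L := by
      rw [hk]
      ring
    rw [h2] at h1
    have h3 : Even (k * (L : ℤ)) := ((Int.even_coe_nat L).2 α.even).mul_left k
    exact (Int.not_even_iff_odd.2 h1) h3
  · rw [LE_nbnb α h'] at hk
    have h1 := congrArg α.f hk
    rw [α.inv, α.per_mul, α.inv] at h1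
    apply h
    refine RelA_In_add k ?_
    rw [← h1]
    exact hn

/-- residues -/
theorem LE_res {L : ℕ} (s r c : ℤ) (hr0 : 0 ≤ r) (hrL : r < L) (hc0 : 0 ≤ c) (hcL : c < L) :
    (L : ℤ) ∣ L * s + r - c ↔ r = c := by
  constructor
  · intro h
    have h1 : (L : ℤ) ∣ r - c := by
      have h2 : r - c = (L * s + r - c) - L * s := by ring
      rw [h2]
      exact dvd_sub h ⟨s, rfl⟩
    have h3 : r - c = 0 := by
      apply Int.eq_zero_of_abs_lt_dvd h1
      rw [abs_lt]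
      constructor <;> linarith
    linarith
  · rintro rfl
    exact ⟨s, by ring⟩

end

section

open Pat

variable {Lb Lt kb kt : ℕ}

theorem LE_in_iff {L : ℕ} (s r a : ℤ) (hr0 : 0 ≤ r) (hrL : r < L) (ha0 : 0 ≤ a)
    (haL : a + 1 < L) : RelA_In L a (L * s + r) ↔ r = a ∨ r = a + 1 := by
  unfold RelA_In
  rw [sub_sub, LE_res s r a hr0 hrL ha0 (by linarith),
    LE_res s r (a + 1) hr0 hrL (by linarith) haL]

theorem LE_nb {L : ℕ} (s r a : ℤ) (hr0 : 0 ≤ r) (hrL : r < L) (ha0 : 0 ≤ a) (haL : a + 1 < L) :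
    RelA_nb L a (L * s + r) = if r = a then L * s + r + 1 else L * s + r - 1 := by
  unfold RelA_nb
  by_cases h : r = a
  · rw [if_pos h, if_pos ((LE_res s r a hr0 hrL ha0 (by linarith)).2 h)]
  · rw [if_neg h, if_neg (fun h1 => h ((LE_res s r a hr0 hrL ha0 (by linarith)).1 h1))]

theorem LE_split {L : ℕ} (hL : 0 < L) (x : ℤ) :
    ∃ s r : ℤ, x = L * s + r ∧ 0 ≤ r ∧ r < L ∧ x % L = r := by
  have hL0 : (0 : ℤ) < L := by exact_mod_cast hL
  refine ⟨x / L, x % L, ?_, Int.emod_nonneg _ hL0.ne', Int.emod_lt_of_pos _ hL0, rfl⟩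
  have h := Int.emod_add_mul_ediv x L
  linarith

theorem LE_dir (h : LOk Lb Lt kb kt) (i : ℕ) (hi : kt + i + 1 < Lt) (β : Pat Lb) (α : Pat Lt)
    (hw : WL kb kt (Pat.e ((kb : ℤ) + i) β) α) : WL kb kt β (Pat.e ((kt : ℤ) + i) α) := by
  have hok := h
  obtain ⟨hkb, hkt, hL, hLb, hLt⟩ := h
  have hi' : kb + i + 1 < Lb := by omega
  set a : ℤ := (kt : ℤ) + i with ha
  set a' : ℤ := (kb : ℤ) + i with ha'
  have ha0 : 0 ≤ a := by omega
  have ha0' : 0 ≤ a' := by omega
  have haL : a + 1 < (Lt : ℤ) := by omega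
  have haL' : a' + 1 < (Lb : ℤ) := by omega
  have T1 : ∀ x, RelA_In Lt a x → (kt : ℤ) ≤ x % (Lt : ℤ) := by
    intro x hx
    obtain ⟨s, r, rfl, h0, h1, h2⟩ := LE_split hLt x
    rw [h2]
    rcases (LE_in_iff s r a h0 h1 ha0 haL).1 hx with h3 | h3 <;> omega
  have T2 : ∀ x : ℤ, (kt : ℤ) ≤ x % (Lt : ℤ) →
      (RelA_In Lt a x ↔ RelA_In Lb a' (tb Lt kb kt x)) := by
    intro x hx
    obtain ⟨s, r, rfl, h0, h1, h2⟩ := LE_split hLt x
    rw [h2] at hx
    rw [tb_apply hok s r hx h1, LE_in_iff s r a h0 h1 ha0 haL,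
      LE_in_iff s (r - kt + kb) a' (by omega) (by omega) ha0' haL']
    constructor
    · rintro (h3 | h3)
      · left; omega
      · right; omega
    · rintro (h3 | h3)
      · left; omega
      · right; omega
  have T3 : ∀ x, RelA_In Lt a x → tb Lt kb kt (RelA_nb Lt a x) =
      RelA_nb Lb a' (tb Lt kb kt x) := by
    intro x hx
    have hx' := T1 x hx
    obtain ⟨s, r, rfl, h0, h1, h2⟩ := LE_split hLt x
    rw [h2] at hx'
    rw [tb_apply hok s r hx' h1, LE_nb s r a h0 h1 ha0 haL,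
      LE_nb s (r - kt + kb) a' (by omega) (by omega) ha0' haL']
    rcases (LE_in_iff s r a h0 h1 ha0 haL).1 hx with h3 | h3
    · rw [if_pos h3, if_pos (by omega), add_assoc, tb_apply hok s (r + 1) (by omega) (by omega)]
      ring
    · rw [if_neg (by omega), if_neg (by omega)]
      have e1 : (Lt : ℤ) * s + r - 1 = Lt * s + (r - 1) := by ring
      rw [e1, tb_apply hok s (r - 1) (by omega) (by omega)]
      ring
  intro u v hu hv huv
  obtain ⟨S, hS, huS, hvS⟩ := hw u v hu hv huv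
  let P : ℤ → Prop := fun x => (true, x) ∈ S
  let R : ℤ → Prop := fun x => (false, x) ∈ S
  have hP : ∀ x, P x → P (α.f x) := hS.top
  have hR : ∀ x, R x → R ((Pat.e a' β).f x) := hS.bot
  have hG : ∀ x : ℤ, (kt : ℤ) ≤ x % (Lt : ℤ) → (P x ↔ R (tb Lt kb kt x)) := hS.glue
  let R' : ℤ → Prop := fun x =>
    (RelA_In Lb a' x ∧ ¬ RelA_In Lb a' (β.f x) ∧ R (β.f x)) ∨ (¬ RelA_In Lb a' x ∧ R x)
  let P' : ℤ → Prop := fun x =>
    (RelA_In Lt a x ∧ R' (tb Lt kb kt x)) ∨ (¬ RelA_In Lt a x ∧ P x)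
  have R'out : ∀ x, ¬ RelA_In Lb a' x → (R' x ↔ R x) := by
    intro x hx
    constructor
    · rintro (h1 | h1)
      · exact absurd h1.1 hx
      · exact h1.2
    · intro h1
      exact Or.inr ⟨hx, h1⟩
  have P'out : ∀ x, ¬ RelA_In Lt a x → (P' x ↔ P x) := by
    intro x hx
    constructor
    · rintro (h1 | h1)
      · exact absurd h1.1 hx
      · exact h1.2
    · intro h1
      exact Or.inr ⟨hx, h1⟩
  have P'in : ∀ x, RelA_In Lt a x → (P' x ↔ R' (tb Lt kb kt x)) := by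
    intro x hx
    constructor
    · rintro (h1 | h1)
      · exact h1.2
      · exact absurd hx h1.1
    · intro h1
      exact Or.inl ⟨hx, h1⟩
  have hbot : ∀ x, R' x → R' (β.f x) := by
    intro x hx
    rcases hx with ⟨h1, h2, h3⟩ | ⟨h1, h2⟩
    · exact (R'out _ h2).2 h3
    · by_cases h3 : RelA_In Lb a' (β.f x)
      · left
        rw [β.inv]
        exact ⟨h3, h1, h2⟩
      · rw [R'out _ h3]
        have h4 := hR x h2
        rw [RelA_e_out β h1 h3] at h4
        exact h4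
  have hK : ∀ y, RelA_In Lb a' y → R' y → R' (RelA_nb Lb a' y) := by
    intro y hy hRy
    rcases hRy with ⟨h1, h2, h3⟩ | ⟨h1, h2⟩
    · have h4 : RelA_In Lb a' (β.f (β.f y)) := by rw [β.inv]; exact hy
      have h5 := LE_notin β h2 h4
      have h6 := hR _ h3
      rw [RelA_e_par β h2 h4] at h6
      rw [β.inv] at h5 h6
      exact Or.inl ⟨RelA_nb_in hy, h5, h6⟩
    · exact absurd hy h1
  have hglue : ∀ x : ℤ, (kt : ℤ) ≤ x % (Lt : ℤ) → (P' x ↔ R' (tb Lt kb kt x)) := by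
    intro x hx
    by_cases h1 : RelA_In Lt a x
    · exact P'in x h1
    · have h2 : ¬ RelA_In Lb a' (tb Lt kb kt x) := fun h3 => h1 ((T2 x hx).2 h3)
      rw [P'out x h1, R'out _ h2]
      exact hG x hx
  have htop : ∀ x, P' x → P' ((Pat.e a α).f x) := by
    intro x hx
    by_cases h1 : RelA_In Lt a x
    · rw [RelA_e_in α h1, P'in _ (RelA_nb_in h1), T3 x h1]
      exact hK _ ((T2 x (T1 x h1)).1 h1) ((P'in x h1).1 hx)
    · have h2 : P x := (P'out x h1).1 hx
      by_cases h3 : RelA_In Lt a (α.f x)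
      · have h4 := LE_notin α h1 h3
        rw [RelA_e_par α h1 h3, P'out _ h4]
        apply hP
        have h5 : P (α.f x) := hP x h2
        have h6 := T1 _ h3
        have h7 : RelA_In Lb a' (tb Lt kb kt (α.f x)) := (T2 _ h6).1 h3
        have h8 := hR _ ((hG _ h6).1 h5)
        rw [RelA_e_in β h7, ← T3 _ h3] at h8
        exact (hG _ (T1 _ (RelA_nb_in h3))).2 h8
      · rw [RelA_e_out α h1 h3, P'out _ h3]
        exact hP x h2
  have hleg : ∀ w : Bool × ℤ, IsLeg kb kt w →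
      ((w.1 = true ∧ P' w.2 ∨ w.1 = false ∧ R' w.2) ↔ w ∈ S) := by
    rintro ⟨t, x⟩ ⟨hx0, hx1⟩
    dsimp only at hx0 hx1 ⊢
    rcases hx1 with ⟨rfl, hx1⟩ | ⟨rfl, hx1⟩
    · have h1 : ¬ RelA_In Lt a x := by
        have h2 := LE_in_iff (L := Lt) 0 x a hx0 (by omega) ha0 haL
        rw [mul_zero, zero_add] at h2
        rw [h2]
        omega
      constructor
      · rintro (h2 | h2)
        · exact (P'out x h1).1 h2.2
        · exact absurd h2.1 (by decide)
      · intro h2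
        exact Or.inl ⟨rfl, (P'out x h1).2 h2⟩
    · have h1 : ¬ RelA_In Lb a' x := by
        have h2 := LE_in_iff (L := Lb) 0 x a' hx0 (by omega) ha0' haL'
        rw [mul_zero, zero_add] at h2
        rw [h2]
        omega
      constructor
      · rintro (h2 | h2)
        · exact absurd h2.1 (by decide)
        · exact (R'out x h1).1 h2.2
      · intro h2
        exact Or.inr ⟨rfl, (R'out x h1).2 h2⟩
  refine ⟨{w | w.1 = true ∧ P' w.2 ∨ w.1 = false ∧ R' w.2}, ⟨?_, ?_, ?_⟩, ?_, ?_⟩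
  · intro x hx
    rcases hx with hx | hx
    · exact Or.inl ⟨rfl, htop x hx.2⟩
    · exact absurd hx.1 (by simp)
  · intro x hx
    rcases hx with hx | hx
    · exact absurd hx.1 (by simp)
    · exact Or.inr ⟨rfl, hbot x hx.2⟩
  · intro x hx
    constructor
    · rintro (h1 | h1)
      · exact Or.inr ⟨rfl, (hglue x hx).1 h1.2⟩
      · exact absurd h1.1 (by simp)
    · rintro (h1 | h1)
      · exact absurd h1.1 (by simp)
      · exact Or.inl ⟨rfl, (hglue x hx).2 h1.2⟩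
  · exact (hleg u hu).2 huS
  · intro h1
    exact hvS ((hleg v hv).1 h1)

end

section

variable {Lb Lt kb kt : ℕ}

theorem wl_e (h : LOk Lb Lt kb kt) (i : ℕ) (hi : kt + i + 1 < Lt) (β : Pat Lb) (α : Pat Lt) :
    WL kb kt (Pat.e ((kb : ℤ) + i) β) α ↔ WL kb kt β (Pat.e ((kt : ℤ) + i) α) := by
  refine ⟨LE_dir h i hi β α, fun hw => ?_⟩
  have h1 := LOk.symm h
  have hi' : kb + i + 1 < Lb := by
    obtain ⟨hkb, hkt, hL, hLb, hLt⟩ := h
    omega
  rw [wl_comm h] at hw ⊢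
  exact LE_dir h1 i hi' α β hw

end

end CY
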