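import Pool.Agent.Lib.MP_216314_pr.Q4.LSym

/-!
# Right fusion: the last top leg is joined to the first glued top site

Top pattern `ins kt α` (period `Lt + 2`), `kt + 1` legs above, `kb` legs below: the leg `(true, kt)` is joined to `(true, kt+1)`, which is glued to `(false, kb)`: this is
the new last leg below. The other top sites are `up Lt kt k`, `k` a site of `α`. Precisely, for `k = Lt * s + r`, `0 ≤ r < Lt`: `up Lt kt k = (Lt+2) * s + r` if `r < kt`,
and `(Lt+2) * s + r + 2` if `r ≥ kt`; for `r ≥ kt` it is glued (with `kb`, `kt+1`) to `Lb * s + (r + 2 - (kt+1) + kb) = Lb * s + (r - kt + (kb+1))`, which is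
`tb Lt (kb+1) kt k`. The top sites `≡ kt` (mod `Lt+2`) are legs (not glued), the sites `≡ kt+1` are glued to `≡ kb` (mod `Lb`).
(→) from `S` closed for `(kb, kt+1, β, ins kt α)`: `S' = {(true, k) | (true, up k) ∈ S} ∪ {(false, y) | (false, y) ∈ S}`: closed for `(kb+1, kt, β, α)` (`ins_up`).
(←) from `S'` closed for `(kb+1, kt, β, α)`: `S`: `(false, y) ∈ S ↔ (false, y) ∈ S'`, `(true, up k) ∈ S ↔ (true, k) ∈ S'`; for `x ≡ kt+1 (mod Lt+2)`: `(true, x) ∈ S ↔ (false, tb x) ∈ S'`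
(`tb (Lt+2) kb (kt+1) x`), and for `x ≡ kt`: `(true, x) ∈ S ↔ (true, x+1) ∈ S`. Closed: the inserted arcs join `x ≡ kt` and `x+1`.
(define `S` with `dn Lt kt x`, `up_dn`, `dn_up`).
Legs: `(true, i)`, `i < kt`: `up i = i`; `(true, kt)` corresponds to `(false, kb)`; `(false, j)`, `j < kb`. For two different legs `u`, `v` on one side take the
corresponding legs on the other side.
-/

set_option autoImplicit false

noncomputable section

namespace CY

open Finset

section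

variable {Lb Lt kb kt : ℕ}

private theorem LF_div {N x a r : ℤ} (h : x = N * a + r) (h0 : 0 ≤ r) (h1 : r < N) :
    x / N = a ∧ x % N = r :=
  (Int.ediv_emod_unique (lt_of_le_of_lt h0 h1)).2 ⟨by rw [h]; ring, h0, h1⟩

private theorem LF_split {N : ℤ} (hN : 0 < N) (x : ℤ) : ∃ s r : ℤ, x = N * s + r ∧ 0 ≤ r ∧ r < N :=
  ⟨x / N, x % N, (Int.mul_ediv_add_emod x N).symm, Int.emod_nonneg _ hN.ne', Int.emod_lt_of_pos _ hN⟩

private theorem LF_up_lt (hkt : kt ≤ Lt) (s r : ℤ) (h0 : 0 ≤ r) (h1 : r < kt) :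
    up Lt kt ((Lt : ℤ) * s + r) = ((Lt + 2 : ℕ) : ℤ) * s + r := by
  have h2 : (kt : ℤ) ≤ Lt := by exact_mod_cast hkt
  have h3 := (LF_div (N := (Lt : ℤ)) (x := (Lt : ℤ) * s + r - kt) (a := s - 1) (r := r - kt + Lt)
    (by ring) (by omega) (by omega)).1
  unfold up
  rw [h3]
  push_cast
  ring

private theorem LF_up_ge (s r : ℤ) (h0 : (kt : ℤ) ≤ r) (h1 : r < Lt) :
    up Lt kt ((Lt : ℤ) * s + r) = ((Lt + 2 : ℕ) : ℤ) * s + (r + 2) := by
  have h3 := (LF_div (N := (Lt : ℤ)) (x := (Lt : ℤ) * s + r - kt) (a := s) (r := r - kt)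
    (by ring) (by omega) (by omega)).1
  unfold up
  rw [h3]
  push_cast
  ring

private theorem LF_ok (h : LOk Lb Lt (kb + 1) kt) : LOk Lb (Lt + 2) kb (kt + 1) := by
  obtain ⟨h1, h2, h3, h4, h5⟩ := h
  exact ⟨by omega, by omega, by omega, h4, by omega⟩

/-- the gluing of the old sites -/
private theorem LF_tb (h : LOk Lb Lt (kb + 1) kt) (k : ℤ) (hk : (kt : ℤ) ≤ k % (Lt : ℤ)) :
    tb (Lt + 2) kb (kt + 1) (up Lt kt k) = tb Lt (kb + 1) kt k := by
  have hL : (0 : ℤ) < Lt := by exact_mod_cast h.2.2.2.2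
  obtain ⟨s, r, rfl, h0, h1⟩ := LF_split hL k
  rw [(LF_div rfl h0 h1).2] at hk
  rw [LF_up_ge s r hk h1, tb_apply (LF_ok h) s (r + 2) (by push_cast; omega) (by push_cast; omega),
    tb_apply h s r hk h1]
  push_cast
  ring

/-- the residue of the old sites -/
private theorem LF_res (h : LOk Lb Lt (kb + 1) kt) (k : ℤ) :
    (((kt + 1 : ℕ) : ℤ) ≤ up Lt kt k % ((Lt + 2 : ℕ) : ℤ)) ↔ (kt : ℤ) ≤ k % (Lt : ℤ) := by
  have hL : (0 : ℤ) < Lt := by exact_mod_cast h.2.2.2.2
  obtain ⟨s, r, rfl, h0, h1⟩ := LF_split hL k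
  rw [(LF_div rfl h0 h1).2]
  rcases lt_or_ge r (kt : ℤ) with h2 | h2
  · rw [LF_up_lt h.2.1 s r h0 h2, (LF_div rfl h0 (by push_cast; omega)).2]
    push_cast
    omega
  · rw [LF_up_ge s r h2 h1, (LF_div rfl (by omega) (by push_cast; omega)).2]
    push_cast
    omega

private theorem LF_res0 (h : LOk Lb Lt (kb + 1) kt) {x : ℤ} (hx : ((Lt + 2 : ℕ) : ℤ) ∣ x - kt) :
    ¬ ((kt + 1 : ℕ) : ℤ) ≤ x % ((Lt + 2 : ℕ) : ℤ) := by
  obtain ⟨k, rfl⟩ := Pat.RelB_dvd hx
  have h2 : (kt : ℤ) ≤ Lt := by exact_mod_cast h.2.1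
  rw [(LF_div (N := ((Lt + 2 : ℕ) : ℤ)) (x := (kt : ℤ) + k * ((Lt + 2 : ℕ) : ℤ)) (a := k) (r := kt) (by ring)
    (by omega) (by push_cast; omega)).2]
  push_cast
  omega

private theorem LF_tb0 (h : LOk Lb Lt (kb + 1) kt) :
    tb (Lt + 2) kb (kt + 1) ((kt : ℤ) + 1) = (kb : ℤ) := by
  have h2 : (kt : ℤ) ≤ Lt := by exact_mod_cast h.2.1
  have h3 := tb_apply (LF_ok h) 0 ((kt : ℤ) + 1) (by push_cast; omega) (by push_cast; omega)
  rw [mul_zero, mul_zero, zero_add, zero_add] at h3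
  rw [h3]
  push_cast
  ring

/-- the corresponding leg of `ins kt α` -/
private def LF_phi (kb kt : ℕ) (u : Bool × ℤ) : Bool × ℤ := if u = (false, (kb : ℤ)) then (true, (kt : ℤ)) else u

private theorem LF_top {L kb' kt' : ℕ} {β : Pat Lb} {α : Pat L} {S : Set (Bool × ℤ)} (hS : LCl kb' kt' β α S)
    (x : ℤ) : (true, x) ∈ S ↔ (true, α.f x) ∈ S := by
  refine ⟨hS.top x, fun h => ?_⟩
  have h1 := hS.top _ h
  rwa [α.inv] at h1

/-- transfer from `ins kt α` to `α` -/
private theorem LF_fwd (h : LOk Lb Lt (kb + 1) kt) {β : Pat Lb} {α : Pat Lt} {S : Set (Bool × ℤ)}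
    (hS : LCl kb (kt + 1) β (Pat.ins (kt : ℤ) α) S) :
    ∃ S', LCl (kb + 1) kt β α S' ∧ ∀ u, IsLeg (kb + 1) kt u → (u ∈ S' ↔ LF_phi kb kt u ∈ S) := by
  refine ⟨{u | if u.1 = true then (true, up Lt kt u.2) ∈ S else (false, u.2) ∈ S}, ⟨?_, ?_, ?_⟩, ?_⟩
  · intro x hx
    simp only [Set.mem_ofPred_eq, if_true] at hx ⊢
    rw [← Pat.ins_up]
    exact hS.top _ hx
  · intro x hx
    simp only [Set.mem_ofPred_eq, Bool.false_eq_true, if_false] at hx ⊢
    exact hS.bot _ hx
  · intro x hx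
    simp only [Set.mem_ofPred_eq, if_true, Bool.false_eq_true, if_false]
    rw [← LF_tb h x hx]
    exact hS.glue _ ((LF_res h x).2 hx)
  · rintro ⟨b, x⟩ ⟨h0, hl⟩
    rcases hl with ⟨hb, hx⟩ | ⟨hb, hx⟩
    · simp only at h0 hb hx
      subst hb
      have h1 : up Lt kt x = x := by
        have h2 := LF_up_lt h.2.1 0 x h0 hx
        rwa [mul_zero, mul_zero, zero_add] at h2
      have h3 : LF_phi kb kt (true, x) = (true, x) := by
        unfold LF_phi
        rw [if_neg (by simp)]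
      rw [h3]
      simp only [Set.mem_ofPred_eq, if_true, h1]
    · simp only at h0 hb hx
      subst hb
      simp only [Set.mem_ofPred_eq, Bool.false_eq_true, if_false]
      by_cases hxk : x = kb
      · subst hxk
        have h3 : LF_phi kb kt (false, (kb : ℤ)) = (true, (kt : ℤ)) := by
          unfold LF_phi
          rw [if_pos rfl]
        have h2 : (kt : ℤ) ≤ Lt := by exact_mod_cast h.2.1
        have h4 := hS.glue ((kt : ℤ) + 1) (by
          rw [Int.emod_eq_of_lt (by omega) (by push_cast; omega)]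
          push_cast
          omega)
        rw [LF_tb0 h] at h4
        have h5 := LF_top hS (kt : ℤ)
        rw [Pat.ins_left] at h5
        rw [h3, h5]
        exact h4.symm
      · have h3 : LF_phi kb kt (false, x) = (false, x) := by
          unfold LF_phi
          rw [if_neg (by simp [hxk])]
        rw [h3]

/-- transfer from `α` to `ins kt α` -/
private theorem LF_bwd (h : LOk Lb Lt (kb + 1) kt) {β : Pat Lb} {α : Pat Lt} {S' : Set (Bool × ℤ)}
    (hS : LCl (kb + 1) kt β α S') :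
    ∃ S, LCl kb (kt + 1) β (Pat.ins (kt : ℤ) α) S ∧
      ∀ u, IsLeg (kb + 1) kt u → (u ∈ S' ↔ LF_phi kb kt u ∈ S) := by
  have hL : 0 < Lt := h.2.2.2.2
  let P : ℤ → Prop := fun x =>
    if ((Lt + 2 : ℕ) : ℤ) ∣ x - kt then (false, tb (Lt + 2) kb (kt + 1) (x + 1)) ∈ S'
    else if ((Lt + 2 : ℕ) : ℤ) ∣ x - kt - 1 then (false, tb (Lt + 2) kb (kt + 1) x) ∈ S'
    else (true, dn Lt kt x) ∈ S'
  have P0 : ∀ x, ((Lt + 2 : ℕ) : ℤ) ∣ x - kt → (P x ↔ (false, tb (Lt + 2) kb (kt + 1) (x + 1)) ∈ S') := by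
    intro x hx
    simp only [P]
    rw [if_pos hx]
  have P1 : ∀ x, ((Lt + 2 : ℕ) : ℤ) ∣ x - kt - 1 → (P x ↔ (false, tb (Lt + 2) kb (kt + 1) x) ∈ S') := by
    intro x hx
    have hx0 : ¬ ((Lt + 2 : ℕ) : ℤ) ∣ x - kt := by
      intro h1
      have h2 := dvd_sub h1 hx
      have e : x - kt - (x - kt - 1) = 1 := by ring
      rw [e] at h2
      have h3 := Int.le_of_dvd one_pos h2
      push_cast at h3
      omega
    simp only [P]
    rw [if_neg hx0, if_pos hx]
  have P2 : ∀ k, (P (up Lt kt k) ↔ (true, k) ∈ S') := by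
    intro k
    simp only [P]
    rw [if_neg (Pat.RelB_nl hL (kt : ℤ) k), if_neg (Pat.RelB_nr hL (kt : ℤ) k), dn_up hL]
  refine ⟨{u | if u.1 = true then P u.2 else (false, u.2) ∈ S'}, ⟨?_, ?_, ?_⟩, ?_⟩
  · intro x hx
    simp only [Set.mem_ofPred_eq, if_true] at hx ⊢
    rcases Pat.RelB_cases hL (kt : ℤ) x with h1 | h1 | ⟨k, rfl⟩
    · rw [Pat.RelB_ins_dvd α (kt : ℤ) x h1]
      rw [P0 x h1] at hx
      rw [P1 (x + 1) (by
        have e : x + 1 - kt - 1 = x - kt := by ring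
        rw [e]
        exact h1)]
      exact hx
    · rw [Pat.RelB_ins_dvd1 α (kt : ℤ) x h1]
      rw [P1 x h1] at hx
      have e : x - 1 + 1 = x := by ring
      rw [P0 (x - 1) (by
        have e : x - 1 - kt = x - kt - 1 := by ring
        rw [e]
        exact h1), e]
      exact hx
    · rw [Pat.ins_up, P2]
      rw [P2] at hx
      exact hS.top _ hx
  · intro x hx
    simp only [Set.mem_ofPred_eq, Bool.false_eq_true, if_false] at hx ⊢
    exact hS.bot _ hx
  · intro x hx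
    simp only [Set.mem_ofPred_eq, if_true, Bool.false_eq_true, if_false]
    rcases Pat.RelB_cases hL (kt : ℤ) x with h1 | h1 | ⟨k, rfl⟩
    · exact absurd hx (LF_res0 h h1)
    · exact P1 x h1
    · rw [P2]
      have h2 := (LF_res h k).1 hx
      rw [LF_tb h k h2]
      exact hS.glue k h2
  · rintro ⟨b, x⟩ ⟨h0, hl⟩
    rcases hl with ⟨hb, hx⟩ | ⟨hb, hx⟩
    · simp only at h0 hb hx
      subst hb
      have h1 : up Lt kt x = x := by
        have h2 := LF_up_lt h.2.1 0 x h0 hx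
        rwa [mul_zero, mul_zero, zero_add] at h2
      have h3 : LF_phi kb kt (true, x) = (true, x) := by
        unfold LF_phi
        rw [if_neg (by simp)]
      rw [h3]
      simp only [Set.mem_ofPred_eq, if_true]
      have h4 := P2 x
      rw [h1] at h4
      exact h4.symm
    · simp only at h0 hb hx
      subst hb
      by_cases hxk : x = kb
      · subst hxk
        have h3 : LF_phi kb kt (false, (kb : ℤ)) = (true, (kt : ℤ)) := by
          unfold LF_phi
          rw [if_pos rfl]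
        rw [h3]
        simp only [Set.mem_ofPred_eq, if_true]
        have h4 := P0 (kt : ℤ) (by rw [sub_self]; exact dvd_zero _)
        rw [LF_tb0 h] at h4
        exact h4.symm
      · have h3 : LF_phi kb kt (false, x) = (false, x) := by
          unfold LF_phi
          rw [if_neg (by simp [hxk])]
        rw [h3]
        simp only [Set.mem_ofPred_eq, Bool.false_eq_true, if_false]

private theorem LF_leg {u : Bool × ℤ} (hu : IsLeg (kb + 1) kt u) : IsLeg kb (kt + 1) (LF_phi kb kt u) := by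
  obtain ⟨b, x⟩ := u
  obtain ⟨h0, hl⟩ := hu
  unfold LF_phi
  split_ifs with h1
  · exact ⟨Int.natCast_nonneg _, Or.inl ⟨rfl, by push_cast; omega⟩⟩
  · refine ⟨h0, ?_⟩
    rcases hl with ⟨hb, hx⟩ | ⟨hb, hx⟩
    · refine Or.inl ⟨hb, ?_⟩
      push_cast
      omega
    · refine Or.inr ⟨hb, ?_⟩
      have h2 : x ≠ kb := by
        intro h3
        apply h1
        simp only at hb
        rw [hb, h3]
      push_cast at hx
      simp only at hx ⊢
      omega

private theorem LF_inj {u v : Bool × ℤ} (hu : IsLeg (kb + 1) kt u) (hv : IsLeg (kb + 1) kt v)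
    (h : LF_phi kb kt u = LF_phi kb kt v) : u = v := by
  unfold LF_phi at h
  split_ifs at h with h1 h2 h2
  · rw [h1, h2]
  · exfalso
    obtain ⟨_, hl⟩ := hv
    rw [← h] at hl
    rcases hl with ⟨_, hx⟩ | ⟨hb, _⟩
    · simp only at hx
      omega
    · simp at hb
  · exfalso
    obtain ⟨_, hl⟩ := hu
    rw [h] at hl
    rcases hl with ⟨_, hx⟩ | ⟨hb, _⟩
    · simp only at hx
      omega
    · simp at hb
  · exact h

private theorem LF_surj {u : Bool × ℤ} (hu : IsLeg kb (kt + 1) u) :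
    ∃ v, IsLeg (kb + 1) kt v ∧ LF_phi kb kt v = u := by
  obtain ⟨b, x⟩ := u
  obtain ⟨h0, hl⟩ := hu
  rcases hl with ⟨hb, hx⟩ | ⟨hb, hx⟩
  · simp only at h0 hb hx
    subst hb
    by_cases hxk : x = kt
    · subst hxk
      refine ⟨(false, (kb : ℤ)), ⟨Int.natCast_nonneg _, Or.inr ⟨rfl, by push_cast; omega⟩⟩, ?_⟩
      unfold LF_phi
      rw [if_pos rfl]
    · refine ⟨(true, x), ⟨h0, Or.inl ⟨rfl, ?_⟩⟩, ?_⟩
      · push_cast at hx
        show x < (kt : ℤ)
        omega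
      · unfold LF_phi
        rw [if_neg (by simp)]
  · simp only at h0 hb hx
    subst hb
    refine ⟨(false, x), ⟨h0, Or.inr ⟨rfl, ?_⟩⟩, ?_⟩
    · show x < ((kb + 1 : ℕ) : ℤ)
      push_cast
      omega
    · unfold LF_phi
      rw [if_neg (by
        intro h1
        have h2 := congrArg Prod.snd h1
        simp only at h2
        omega)]

theorem wl_fuse (h : LOk Lb Lt (kb + 1) kt) (β : Pat Lb) (α : Pat Lt) :
    WL kb (kt + 1) β (Pat.ins (kt : ℤ) α) ↔ WL (kb + 1) kt β α := by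
  constructor
  · intro hW u v hu hv huv
    obtain ⟨S, hS, h1, h2⟩ := hW _ _ (LF_leg hu) (LF_leg hv) (fun e => huv (LF_inj hu hv e))
    obtain ⟨S', hS', h3⟩ := LF_fwd h hS
    exact ⟨S', hS', (h3 u hu).2 h1, fun h4 => h2 ((h3 v hv).1 h4)⟩
  · intro hW u v hu hv huv
    obtain ⟨u', hu', rfl⟩ := LF_surj hu
    obtain ⟨v', hv', rfl⟩ := LF_surj hv
    obtain ⟨S', hS', h1, h2⟩ := hW u' v' hu' hv' (fun e => huv (by rw [e]))
    obtain ⟨S, hS, h3⟩ := LF_bwd h hS'
    exact ⟨S, hS, (h3 u' hu').1 h1, fun h4 => h2 ((h3 v' hv').2 h4)⟩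

end

end CY
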