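import Pool.Agent.Lib.MP_216314_pr.Q4.LSym

/-!
# Left fusion: the first top leg is joined to the last glued top site of the previous copy

Top pattern `insS α = rot (ins 0 α)` (period `Lt + 2`), `kt + 1` legs above, bottom pattern `rot β` (period `Lb`), `kb` legs below. `(insS α).f x = (ins 0 α).f (x+1) - 1`: the leg
`(true, 0)` is joined to `(true, -1)`, glued to `(false, -1)` of `rot β`, i.e. to the site `0` of `β`: the new FIRST leg below of `(β, α)` with `kb + 1` legs below, `kt` above.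
Correspondence of the nodes: `(false, y)` of `rot β` ↔ `(false, y+1)` of `β`. `(true, x)` with `x + 1 ≢ 0, 1 (mod Lt+2)` ↔ `(true, k)` of `α`, `x + 1 = up Lt 0 k`
(`up Lt 0 (Lt * s + r) = (Lt+2) * s + r + 2`, so `x = (Lt+2)s + r + 1`). Gluing: for `r ≥ kt`: `x` is glued (with `kb`, `kt+1`, period `Lt+2`) to `Lb * s + (r + 1 - (kt+1) + kb)`
of `rot β`, i.e. to `Lb * s + (r - kt + kb + 1)` of `β` = `tb Lt (kb+1) kt (Lt s + r)`. The legs `r < kt` of `α` ↔ the legs `r + 1` above (`1..kt`).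
The sites `x ≡ -1 (mod Lt+2)` are glued (residue `Lt+1 ≥ kt+1` as `kt ≤ Lt`) to the sites `≡ -1 (mod Lb)` of `rot β` ↔ `≡ 0` of `β`; `x ≡ 0` are the first legs, joined to `x - 1`.
Both directions as in `LF`.
-/

set_option autoImplicit false

noncomputable section

namespace CY

open Finset

section

variable {Lb Lt kb kt : ℕ}

/-- nodes of `(rot β, insS α)` to nodes of `(β, α)` -/
def LG_psi (Lb Lt : ℕ) (u : Bool × ℤ) : Bool × ℤ :=
  if u.1 = true then
    (if (Lt + 2 : ℤ) ∣ u.2 + 1 then (false, (Lb : ℤ) * ((u.2 + 1) / (Lt + 2 : ℤ)))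
    else if (Lt + 2 : ℤ) ∣ u.2 then (false, (Lb : ℤ) * (u.2 / (Lt + 2 : ℤ)))
    else (true, dn Lt 0 (u.2 + 1)))
  else (false, u.2 + 1)

theorem LG_psi_false (Lb Lt : ℕ) (y : ℤ) : LG_psi Lb Lt (false, y) = (false, y + 1) := by
  unfold LG_psi
  rw [if_neg (by simp)]

theorem LG_psi_left (Lb Lt : ℕ) {x : ℤ} (h : (Lt + 2 : ℤ) ∣ x + 1) :
    LG_psi Lb Lt (true, x) = (false, (Lb : ℤ) * ((x + 1) / (Lt + 2 : ℤ))) := by
  unfold LG_psi
  rw [if_pos rfl, if_pos h]

theorem LG_nd (Lt : ℕ) {x : ℤ} (h : (Lt + 2 : ℤ) ∣ x) : ¬ (Lt + 2 : ℤ) ∣ x + 1 := by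
  intro h1
  have h2 : (Lt + 2 : ℤ) ∣ 1 := by
    have h3 := dvd_sub h1 h
    rwa [add_sub_cancel_left] at h3
  have h3 := Int.le_of_dvd one_pos h2
  omega

theorem LG_psi_right (Lb Lt : ℕ) {x : ℤ} (h : (Lt + 2 : ℤ) ∣ x) :
    LG_psi Lb Lt (true, x) = (false, (Lb : ℤ) * (x / (Lt + 2 : ℤ))) := by
  unfold LG_psi
  rw [if_pos rfl, if_neg (LG_nd Lt h), if_pos h]

theorem LG_psi_mid (Lb Lt : ℕ) {x : ℤ} (h1 : ¬ (Lt + 2 : ℤ) ∣ x + 1) (h2 : ¬ (Lt + 2 : ℤ) ∣ x) :
    LG_psi Lb Lt (true, x) = (true, dn Lt 0 (x + 1)) := by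
  unfold LG_psi
  rw [if_pos rfl, if_neg h1, if_neg h2]

theorem LG_psi_up (Lb : ℕ) {Lt : ℕ} (hL : 0 < Lt) (k : ℤ) :
    LG_psi Lb Lt (true, up Lt 0 k - 1) = (true, k) := by
  have h1 := up_not_left hL 0 k
  have h2 := up_not_right hL 0 k
  rw [sub_zero] at h1 h2
  rw [LG_psi_mid Lb Lt (by rw [sub_add_cancel]; exact h1) h2, sub_add_cancel, dn_up hL]

/-- nodes of `(β, α)` to nodes of `(rot β, insS α)` -/
def LG_phi (Lt : ℕ) (u : Bool × ℤ) : Bool × ℤ :=
  if u.1 = true then (true, up Lt 0 u.2 - 1) else (false, u.2 - 1)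

theorem LG_phi_true (Lt : ℕ) (k : ℤ) : LG_phi Lt (true, k) = (true, up Lt 0 k - 1) := by
  unfold LG_phi
  rw [if_pos rfl]

theorem LG_phi_false (Lt : ℕ) (y : ℤ) : LG_phi Lt (false, y) = (false, y - 1) := by
  unfold LG_phi
  rw [if_neg (by simp)]

theorem LG_ins_left (α : Pat Lt) {x : ℤ} (h : (Lt + 2 : ℤ) ∣ x + 1) : (Pat.insS α).f x = x + 1 := by
  have h1 := Pat.RelB_ins_dvd α 0 (x + 1) (by
    rw [sub_zero]
    push_cast
    exact h)
  show (Pat.ins 0 α).f (x + 1) - 1 = x + 1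
  rw [h1]
  ring

theorem LG_ins_right (α : Pat Lt) {x : ℤ} (h : (Lt + 2 : ℤ) ∣ x) : (Pat.insS α).f x = x - 1 := by
  have h1 := Pat.RelB_ins_dvd1 α 0 (x + 1) (by
    rw [sub_zero, add_sub_cancel_right]
    push_cast
    exact h)
  show (Pat.ins 0 α).f (x + 1) - 1 = x - 1
  rw [h1]
  ring

theorem LG_ins_up (α : Pat Lt) (k : ℤ) :
    (Pat.insS α).f (up Lt 0 k - 1) = up Lt 0 (α.f k) - 1 := by
  show (Pat.ins 0 α).f (up Lt 0 k - 1 + 1) - 1 = up Lt 0 (α.f k) - 1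
  rw [sub_add_cancel, Pat.ins_up]

theorem LG_uniq {N m a r : ℤ} (h : m = N * a + r) (h0 : 0 ≤ r) (h1 : r < N) :
    m / N = a ∧ m % N = r := by
  have hN : 0 < N := lt_of_le_of_lt h0 h1
  exact (Int.ediv_emod_unique hN).2 ⟨by rw [h]; ring, h0, h1⟩

theorem LG_arith (h : LOk Lb Lt (kb + 1) kt) (k : ℤ) :
    tb (Lt + 2) kb (kt + 1) (up Lt 0 k - 1) = tb Lt (kb + 1) kt k - 1 ∧
      (up Lt 0 k - 1) % ((Lt + 2 : ℕ) : ℤ) = k % (Lt : ℤ) + 1 := by
  have hL : (0 : ℤ) < Lt := by exact_mod_cast h.2.2.2.2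
  have e0 : k = Lt * (k / (Lt : ℤ)) + k % (Lt : ℤ) := (Int.mul_ediv_add_emod k Lt).symm
  have r0 := Int.emod_nonneg k hL.ne'
  have r1 := Int.emod_lt_of_pos k hL
  have eu : up Lt 0 k = k + 2 + 2 * (k / (Lt : ℤ)) := by
    unfold up
    rw [sub_zero]
  have e1 : up Lt 0 k - 1 = ((Lt + 2 : ℕ) : ℤ) * (k / (Lt : ℤ)) + (k % (Lt : ℤ) + 1) := by
    rw [eu]
    push_cast
    linarith
  obtain ⟨d1, d2⟩ := LG_uniq e1 (by omega) (by push_cast; omega)
  refine ⟨?_, d2⟩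
  unfold tb
  rw [d1, eu]
  push_cast
  ring

theorem LG_arith_neg (h : LOk Lb Lt (kb + 1) kt) {x : ℤ} (hx : (Lt + 2 : ℤ) ∣ x + 1) :
    tb (Lt + 2) kb (kt + 1) x + 1 = Lb * ((x + 1) / (Lt + 2 : ℤ)) ∧
      x % ((Lt + 2 : ℕ) : ℤ) = Lt + 1 := by
  obtain ⟨t, ht⟩ := hx
  have hL : (0 : ℤ) < Lt := by exact_mod_cast h.2.2.2.2
  have hLb : (Lb : ℤ) = Lt + (kb + 1) - kt := by
    have h1 : ((Lb + kt : ℕ) : ℤ) = ((Lt + (kb + 1) : ℕ) : ℤ) := by exact_mod_cast h.2.2.1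
    push_cast at h1
    linarith
  have e1 : x = ((Lt + 2 : ℕ) : ℤ) * (t - 1) + (Lt + 1) := by
    push_cast
    linarith
  obtain ⟨d1, d2⟩ := LG_uniq e1 (by omega) (by push_cast; omega)
  refine ⟨?_, d2⟩
  have e2 : (x + 1) / (Lt + 2 : ℤ) = t := by
    rw [ht]
    exact Int.mul_ediv_cancel_left t (by omega)
  unfold tb
  rw [d1, e2, hLb, e1]
  push_cast
  ring

theorem LG_closed_phi (h : LOk Lb Lt (kb + 1) kt) {β : Pat Lb} {α : Pat Lt} {S : Set (Bool × ℤ)}
    (hS : LCl kb (kt + 1) (Pat.rot β) (Pat.insS α) S) : LCl (kb + 1) kt β α {u | LG_phi Lt u ∈ S} := by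
  refine ⟨?_, ?_, ?_⟩
  · intro x hx
    change LG_phi Lt (true, x) ∈ S at hx
    show LG_phi Lt (true, α.f x) ∈ S
    rw [LG_phi_true] at hx ⊢
    rw [← LG_ins_up]
    exact hS.top _ hx
  · intro x hx
    change LG_phi Lt (false, x) ∈ S at hx
    show LG_phi Lt (false, β.f x) ∈ S
    rw [LG_phi_false] at hx ⊢
    have h1 := hS.bot _ hx
    have e : (Pat.rot β).f (x - 1) = β.f x - 1 := by
      show β.f (x - 1 + 1) - 1 = β.f x - 1
      rw [sub_add_cancel]
    rwa [e] at h1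
  · intro x hx
    show LG_phi Lt (true, x) ∈ S ↔ LG_phi Lt (false, tb Lt (kb + 1) kt x) ∈ S
    rw [LG_phi_true, LG_phi_false]
    obtain ⟨e1, e2⟩ := LG_arith h x
    rw [← e1]
    refine hS.glue _ ?_
    rw [e2]
    push_cast
    linarith

theorem LG_closed_psi (h : LOk Lb Lt (kb + 1) kt) {β : Pat Lb} {α : Pat Lt} {S : Set (Bool × ℤ)}
    (hS : LCl (kb + 1) kt β α S) :
    LCl kb (kt + 1) (Pat.rot β) (Pat.insS α) {u | LG_psi Lb Lt u ∈ S} := by
  have hL : 0 < Lt := h.2.2.2.2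
  have hc : ∀ x : ℤ, (Lt + 2 : ℤ) ∣ x + 1 ∨ (Lt + 2 : ℤ) ∣ x ∨ ∃ k, x = up Lt 0 k - 1 := by
    intro x
    rcases PatI_cases hL 0 (x + 1) with h1 | h1 | ⟨k, hk⟩
    · rw [sub_zero] at h1
      exact Or.inl h1
    · rw [sub_zero, add_sub_cancel_right] at h1
      exact Or.inr (Or.inl h1)
    · exact Or.inr (Or.inr ⟨k, by rw [← hk, add_sub_cancel_right]⟩)
  refine ⟨?_, ?_, ?_⟩
  · intro x hx
    change LG_psi Lb Lt (true, x) ∈ S at hx
    show LG_psi Lb Lt (true, (Pat.insS α).f x) ∈ S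
    rcases hc x with h1 | h1 | ⟨k, rfl⟩
    · rw [LG_ins_left α h1, LG_psi_right Lb Lt h1]
      rwa [LG_psi_left Lb Lt h1] at hx
    · rw [LG_ins_right α h1, LG_psi_left Lb Lt (by rw [sub_add_cancel]; exact h1), sub_add_cancel]
      rwa [LG_psi_right Lb Lt h1] at hx
    · rw [LG_ins_up, LG_psi_up Lb hL]
      rw [LG_psi_up Lb hL] at hx
      exact hS.top _ hx
  · intro x hx
    change LG_psi Lb Lt (false, x) ∈ S at hx
    show LG_psi Lb Lt (false, (Pat.rot β).f x) ∈ S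
    rw [LG_psi_false] at hx ⊢
    have h1 := hS.bot _ hx
    have e : (Pat.rot β).f x + 1 = β.f (x + 1) := by
      show β.f (x + 1) - 1 + 1 = β.f (x + 1)
      rw [sub_add_cancel]
    rwa [e]
  · intro x hx
    show LG_psi Lb Lt (true, x) ∈ S ↔ LG_psi Lb Lt (false, tb (Lt + 2) kb (kt + 1) x) ∈ S
    rw [LG_psi_false]
    rcases hc x with h1 | h1 | ⟨k, rfl⟩
    · rw [LG_psi_left Lb Lt h1, (LG_arith_neg h h1).1]
    · exfalso
      have h2 : x % ((Lt + 2 : ℕ) : ℤ) = 0 := by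
        refine Int.emod_eq_zero_of_dvd ?_
        push_cast
        exact h1
      rw [h2] at hx
      push_cast at hx
      omega
    · rw [LG_psi_up Lb hL]
      obtain ⟨e1, e2⟩ := LG_arith h k
      rw [e1, sub_add_cancel]
      refine hS.glue _ ?_
      rw [e2] at hx
      push_cast at hx
      linarith

/-- the legs of `(β, α)` to the legs of `(rot β, insS α)` -/
def LG_leg (u : Bool × ℤ) : Bool × ℤ :=
  if u.1 = true then (true, u.2 + 1) else if u.2 = 0 then (true, 0) else (false, u.2 - 1)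

theorem LG_leg_true (x : ℤ) : LG_leg (true, x) = (true, x + 1) := by
  unfold LG_leg
  rw [if_pos rfl]

theorem LG_leg_zero : LG_leg (false, 0) = (true, 0) := by
  unfold LG_leg
  rw [if_neg (by simp), if_pos rfl]

theorem LG_leg_false {x : ℤ} (h : x ≠ 0) : LG_leg (false, x) = (false, x - 1) := by
  unfold LG_leg
  rw [if_neg (by simp), if_neg h]

theorem LG_isLeg {u : Bool × ℤ} (hu : IsLeg (kb + 1) kt u) : IsLeg kb (kt + 1) (LG_leg u) := by
  obtain ⟨b, x⟩ := u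
  obtain ⟨h0, h1 | h1⟩ := hu
  · obtain ⟨h1, h2⟩ := h1
    change b = true at h1
    subst h1
    change x < (kt : ℤ) at h2
    change 0 ≤ x at h0
    rw [LG_leg_true]
    refine ⟨?_, Or.inl ⟨rfl, ?_⟩⟩
    · show 0 ≤ x + 1
      omega
    · show x + 1 < ((kt + 1 : ℕ) : ℤ)
      push_cast
      omega
  · obtain ⟨h1, h2⟩ := h1
    change b = false at h1
    subst h1
    change x < ((kb + 1 : ℕ) : ℤ) at h2
    change 0 ≤ x at h0
    push_cast at h2
    by_cases hx : x = 0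
    · subst hx
      rw [LG_leg_zero]
      refine ⟨le_refl _, Or.inl ⟨rfl, ?_⟩⟩
      show (0 : ℤ) < ((kt + 1 : ℕ) : ℤ)
      push_cast
      omega
    · rw [LG_leg_false hx]
      refine ⟨?_, Or.inr ⟨rfl, ?_⟩⟩
      · show 0 ≤ x - 1
        omega
      · show x - 1 < (kb : ℤ)
        omega

theorem LG_leg_inj {u v : Bool × ℤ} (hu : IsLeg (kb + 1) kt u) (hv : IsLeg (kb + 1) kt v)
    (h : LG_leg u = LG_leg v) : u = v := by
  obtain ⟨b, x⟩ := u
  obtain ⟨c, y⟩ := v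
  have h0 : 0 ≤ x := hu.1
  have h1 : 0 ≤ y := hv.1
  cases b <;> cases c
  · by_cases hx : x = 0
    · by_cases hy : y = 0
      · rw [hx, hy]
      · exfalso
        rw [hx, LG_leg_zero, LG_leg_false hy] at h
        have h2 := congrArg Prod.fst h
        exact absurd h2 (by simp)
    · by_cases hy : y = 0
      · exfalso
        rw [hy, LG_leg_zero, LG_leg_false hx] at h
        have h2 := congrArg Prod.fst h
        exact absurd h2 (by simp)
      · rw [LG_leg_false hx, LG_leg_false hy] at h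
        have h2 : x - 1 = y - 1 := congrArg Prod.snd h
        have h3 : x = y := by omega
        rw [h3]
  · exfalso
    by_cases hx : x = 0
    · rw [hx, LG_leg_zero, LG_leg_true] at h
      have h2 : (0 : ℤ) = y + 1 := congrArg Prod.snd h
      omega
    · rw [LG_leg_false hx, LG_leg_true] at h
      have h2 := congrArg Prod.fst h
      exact absurd h2 (by simp)
  · exfalso
    by_cases hy : y = 0
    · rw [hy, LG_leg_zero, LG_leg_true] at h
      have h2 : x + 1 = (0 : ℤ) := congrArg Prod.snd h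
      omega
    · rw [LG_leg_false hy, LG_leg_true] at h
      have h2 := congrArg Prod.fst h
      exact absurd h2 (by simp)
  · rw [LG_leg_true, LG_leg_true] at h
    have h2 : x + 1 = y + 1 := congrArg Prod.snd h
    have h3 : x = y := by omega
    rw [h3]

/-- every leg of `(rot β, insS α)` comes from a leg -/
theorem LG_leg_surj {u : Bool × ℤ} (hu : IsLeg kb (kt + 1) u) :
    ∃ v, IsLeg (kb + 1) kt v ∧ LG_leg v = u := by
  obtain ⟨b, x⟩ := u
  have h0 : 0 ≤ x := hu.1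
  obtain ⟨_, h1 | h1⟩ := hu
  · obtain ⟨h1, h2⟩ := h1
    change b = true at h1
    subst h1
    change x < ((kt + 1 : ℕ) : ℤ) at h2
    push_cast at h2
    by_cases hx : x = 0
    · refine ⟨(false, 0), ⟨le_refl _, Or.inr ⟨rfl, ?_⟩⟩, ?_⟩
      · show (0 : ℤ) < ((kb + 1 : ℕ) : ℤ)
        push_cast
        omega
      · rw [LG_leg_zero, hx]
    · refine ⟨(true, x - 1), ⟨?_, Or.inl ⟨rfl, ?_⟩⟩, ?_⟩
      · show 0 ≤ x - 1
        omega
      · show x - 1 < (kt : ℤ)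
        omega
      · rw [LG_leg_true, sub_add_cancel]
  · obtain ⟨h1, h2⟩ := h1
    change b = false at h1
    subst h1
    change x < (kb : ℤ) at h2
    refine ⟨(false, x + 1), ⟨?_, Or.inr ⟨rfl, ?_⟩⟩, ?_⟩
    · show 0 ≤ x + 1
      omega
    · show x + 1 < ((kb + 1 : ℕ) : ℤ)
      push_cast
      omega
    · rw [LG_leg_false (by omega), add_sub_cancel_right]

theorem LG_mem_phi (h : LOk Lb Lt (kb + 1) kt) {β : Pat Lb} {α : Pat Lt} {S : Set (Bool × ℤ)}
    (hS : LCl kb (kt + 1) (Pat.rot β) (Pat.insS α) S) {u : Bool × ℤ} (hu : IsLeg (kb + 1) kt u) :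
    LG_phi Lt u ∈ S ↔ LG_leg u ∈ S := by
  have hkt : (kt : ℤ) ≤ Lt := by exact_mod_cast h.2.1
  have hL : (0 : ℤ) < Lt := by exact_mod_cast h.2.2.2.2
  obtain ⟨b, x⟩ := u
  have h0 : 0 ≤ x := hu.1
  obtain ⟨_, h1 | h1⟩ := hu
  · obtain ⟨h1, h2⟩ := h1
    change b = true at h1
    subst h1
    change x < (kt : ℤ) at h2
    rw [LG_phi_true, LG_leg_true]
    have e : up Lt 0 x - 1 = x + 1 := by
      unfold up
      rw [sub_zero, Int.ediv_eq_zero_of_lt h0 (by omega)]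
      ring
    rw [e]
  · obtain ⟨h1, h2⟩ := h1
    change b = false at h1
    subst h1
    rw [LG_phi_false]
    by_cases hx : x = 0
    · subst hx
      rw [LG_leg_zero, zero_sub]
      have d1 : (Lt + 2 : ℤ) ∣ -1 + 1 := by
        rw [neg_add_cancel]
        exact dvd_zero _
      obtain ⟨e1, e2⟩ := LG_arith_neg h d1
      have g := hS.glue (-1) (by
        rw [e2]
        push_cast
        linarith)
      have e3 : tb (Lt + 2) kb (kt + 1) (-1) = -1 := by
        rw [neg_add_cancel, Int.zero_ediv, mul_zero] at e1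
        linarith
      rw [e3] at g
      rw [← g]
      have i1 : (Pat.insS α).f (-1) = 0 := by
        rw [LG_ins_left α d1, neg_add_cancel]
      have i2 : (Pat.insS α).f 0 = -1 := by
        rw [LG_ins_right α (dvd_zero _), zero_sub]
      constructor
      · intro hm
        have h3 := hS.top _ hm
        rwa [i1] at h3
      · intro hm
        have h3 := hS.top _ hm
        rwa [i2] at h3
    · rw [LG_leg_false hx]

theorem LG_mem_psi (h : LOk Lb Lt (kb + 1) kt) {u : Bool × ℤ} (hu : IsLeg (kb + 1) kt u) :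
    LG_psi Lb Lt (LG_leg u) = u := by
  have hkt : (kt : ℤ) ≤ Lt := by exact_mod_cast h.2.1
  have hL : (0 : ℤ) < Lt := by exact_mod_cast h.2.2.2.2
  obtain ⟨b, x⟩ := u
  have h0 : 0 ≤ x := hu.1
  obtain ⟨_, h1 | h1⟩ := hu
  · obtain ⟨h1, h2⟩ := h1
    change b = true at h1
    subst h1
    change x < (kt : ℤ) at h2
    rw [LG_leg_true]
    have e : up Lt 0 x - 1 = x + 1 := by
      unfold up
      rw [sub_zero, Int.ediv_eq_zero_of_lt h0 (by omega)]
      ring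
    rw [← e]
    exact LG_psi_up Lb h.2.2.2.2 x
  · obtain ⟨h1, h2⟩ := h1
    change b = false at h1
    subst h1
    by_cases hx : x = 0
    · subst hx
      rw [LG_leg_zero, LG_psi_right Lb Lt (dvd_zero _), Int.zero_ediv, mul_zero]
    · rw [LG_leg_false hx, LG_psi_false, sub_add_cancel]

theorem wl_left (h : LOk Lb Lt (kb + 1) kt) (β : Pat Lb) (α : Pat Lt) :
    WL kb (kt + 1) (Pat.rot β) (Pat.insS α) ↔ WL (kb + 1) kt β α := by
  constructor
  · intro hw u v hu hv huv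
    obtain ⟨S, hS, h1, h2⟩ := hw (LG_leg u) (LG_leg v) (LG_isLeg hu) (LG_isLeg hv)
      (fun he => huv (LG_leg_inj hu hv he))
    refine ⟨{w | LG_phi Lt w ∈ S}, LG_closed_phi h hS, ?_, ?_⟩
    · exact (LG_mem_phi h hS hu).2 h1
    · intro h3
      exact h2 ((LG_mem_phi h hS hv).1 h3)
  · intro hw u v hu hv huv
    obtain ⟨u', hu', rfl⟩ := LG_leg_surj hu
    obtain ⟨v', hv', rfl⟩ := LG_leg_surj hv
    obtain ⟨S, hS, h1, h2⟩ := hw u' v' hu' hv' (fun he => huv (by rw [he]))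
    refine ⟨{w | LG_psi Lb Lt w ∈ S}, LG_closed_psi h hS, ?_, ?_⟩
    · show LG_psi Lb Lt (LG_leg u') ∈ S
      rw [LG_mem_psi h hu']
      exact h1
    · intro h3
      change LG_psi Lb Lt (LG_leg v') ∈ S at h3
      rw [LG_mem_psi h hv'] at h3
      exact h2 h3

end

end CY
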