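import Pool.Agent.Lib.MP_216314_pr.Z.Form
import Pool.Agent.Lib.MP_216314_pr.Q4.LE
import Pool.Agent.Lib.MP_216314_pr.Q4.LF
import Pool.Agent.Lib.MP_216314_pr.Q4.LG
import Pool.Agent.Lib.MP_216314_pr.Q4.LB

/-!
# The bilinear form of the legs

`WB_lin`: as `BB_lin` (Z/Form: `Form_push`). All other statements: `WB_lin` with one of the two maps the identity (`lin_id`), and the rules for `WL`; for `WB_leg_bot`:
every term is zero (`not_wl_bot`).
-/

set_option autoImplicit false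

noncomputable section

namespace CY

open Finset

open Classical in
/-- the weight of a pair of patterns -/
def wW {Lb Lt : ℕ} (kb kt : ℕ) (β : Pat Lb) (α : Pat Lt) : ℂ := if WL kb kt β α then 1 else 0

/-- `∑ v(β) w(α) [WL β α]` -/
def WB {Lb Lt : ℕ} (kb kt : ℕ) (v : V Lb) (w : V Lt) : ℂ := ∑ β, ∑ α, v β * w α * wW kb kt β α

section

variable {Lb Lt kb kt : ℕ}

theorem WB_smul (c d : ℂ) (v : V Lb) (w : V Lt) : WB kb kt (c • v) (d • w) = c * d * WB kb kt v w := by
  unfold WB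
  rw [Finset.mul_sum]
  refine Finset.sum_congr rfl (fun β _ => ?_)
  rw [Finset.mul_sum]
  refine Finset.sum_congr rfl (fun α _ => ?_)
  rw [Pi.smul_apply, Pi.smul_apply, smul_eq_mul, smul_eq_mul]
  ring

theorem WB_add_left (v v' : V Lb) (w : V Lt) : WB kb kt (v + v') w = WB kb kt v w + WB kb kt v' w := by
  unfold WB
  rw [← Finset.sum_add_distrib]
  refine Finset.sum_congr rfl (fun β _ => ?_)
  rw [← Finset.sum_add_distrib]
  refine Finset.sum_congr rfl (fun α _ => ?_)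
  rw [Pi.add_apply]
  ring

theorem WB_add_right (v : V Lb) (w w' : V Lt) : WB kb kt v (w + w') = WB kb kt v w + WB kb kt v w' := by
  unfold WB
  rw [← Finset.sum_add_distrib]
  refine Finset.sum_congr rfl (fun β _ => ?_)
  rw [← Finset.sum_add_distrib]
  refine Finset.sum_congr rfl (fun α _ => ?_)
  rw [Pi.add_apply]
  ring

theorem WB_lin {A B : Type*} [Fintype A] [Fintype B] (f : A → Pat Lb) (g : B → Pat Lt) (v : A → ℂ) (w : B → ℂ) :
    WB kb kt (lin f v) (lin g w) = ∑ b, ∑ a, v b * w a * wW kb kt (f b) (g a) := by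
  unfold WB
  simp only [mul_assoc, ← Finset.mul_sum]
  rw [Form_push f v (fun β => ∑ α, lin g w α * wW kb kt β α)]
  refine Finset.sum_congr rfl (fun b _ => ?_)
  rw [Form_push g w (fun α => wW kb kt (f b) α)]

open Classical in
private theorem WBil_w {Lb' Lt' kb' kt' : ℕ} {β : Pat Lb} {α : Pat Lt} {β' : Pat Lb'} {α' : Pat Lt'}
    (h : WL kb kt β α ↔ WL kb' kt' β' α') : wW kb kt β α = wW kb' kt' β' α' := by
  unfold wW
  exact if_congr h rfl rfl

private theorem WBil_left {A : Type*} [Fintype A] (f : A → Pat Lb) (v : A → ℂ) (w : V Lt) :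
    WB kb kt (lin f v) w = ∑ b, ∑ a, v b * w a * wW kb kt (f b) a := by
  have h := WB_lin (kb := kb) (kt := kt) f (fun a : Pat Lt => a) v w
  rw [lin_id] at h
  exact h

private theorem WBil_right {B : Type*} [Fintype B] (g : B → Pat Lt) (v : V Lb) (w : B → ℂ) :
    WB kb kt v (lin g w) = ∑ b, ∑ a, v b * w a * wW kb kt b (g a) := by
  have h := WB_lin (kb := kb) (kt := kt) (fun a : Pat Lb => a) g v w
  rw [lin_id] at h
  exact h

theorem WB_comm (h : LOk Lb Lt kb kt) (v : V Lb) (w : V Lt) : WB kb kt v w = WB kt kb w v := by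
  unfold WB
  rw [Finset.sum_comm]
  refine Finset.sum_congr rfl (fun α _ => Finset.sum_congr rfl (fun β _ => ?_))
  have h1 : wW kb kt β α = wW kt kb α β := WBil_w (wl_comm h β α)
  rw [h1, mul_comm (v β)]

theorem WB_E (h : LOk Lb Lt kb kt) (i : ℕ) (hi : kt + i + 1 < Lt) (v : V Lb) (w : V Lt) :
    WB kb kt (E ((kb : ℤ) + i) v) w = WB kb kt v (E ((kt : ℤ) + i) w) := by
  refine (WBil_left (Pat.e ((kb : ℤ) + i)) v w).trans
    (Eq.trans ?_ (WBil_right (Pat.e ((kt : ℤ) + i)) v w).symm)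
  refine Finset.sum_congr rfl (fun b _ => Finset.sum_congr rfl (fun a _ => ?_))
  have h1 : wW kb kt (Pat.e ((kb : ℤ) + i) b) a = wW kb kt b (Pat.e ((kt : ℤ) + i) a) := WBil_w (wl_e h i hi b a)
  rw [h1]

theorem WB_leg_top {i : ℕ} (hi : i + 1 < kt) (v : V Lb) (w : V Lt) : WB kb kt v (E (i : ℤ) w) = 0 := by
  refine (WBil_right (Pat.e (i : ℤ)) v w).trans ?_
  refine Finset.sum_eq_zero (fun b _ => Finset.sum_eq_zero (fun a _ => ?_))
  have h1 : wW kb kt b (Pat.e (i : ℤ) a) = 0 := by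
    unfold wW
    exact if_neg (not_wl_top hi b a)
  rw [h1, mul_zero]

theorem WB_fuse (h : LOk Lb Lt (kb + 1) kt) (v : V Lb) (w : V Lt) :
    WB kb (kt + 1) v (I (kt : ℤ) w) = WB (kb + 1) kt v w := by
  refine (WBil_right (Pat.ins (kt : ℤ)) v w).trans ?_
  refine Finset.sum_congr rfl (fun b _ => Finset.sum_congr rfl (fun a _ => ?_))
  have h1 : wW kb (kt + 1) b (Pat.ins (kt : ℤ) a) = wW (kb + 1) kt b a := WBil_w (wl_fuse h b a)
  rw [h1]

theorem WB_left (h : LOk Lb Lt (kb + 1) kt) (v : V Lb) (w : V Lt) :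
    WB kb (kt + 1) (R v) (IS w) = WB (kb + 1) kt v w := by
  refine (WB_lin Pat.rot Pat.insS v w).trans ?_
  refine Finset.sum_congr rfl (fun b _ => Finset.sum_congr rfl (fun a _ => ?_))
  have h1 : wW kb (kt + 1) (Pat.rot b) (Pat.insS a) = wW (kb + 1) kt b a := WBil_w (wl_left h b a)
  rw [h1]

/-- two strands -/
theorem WB_two (v w : V 2) (ρ : Pat 2) (hρ : IsRef ρ) : WB 2 2 v w = v ρ * w ρ := by
  unfold WB
  rw [Finset.sum_eq_single ρ, Finset.sum_eq_single ρ]
  · have h1 : wW 2 2 ρ ρ = 1 := by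
      unfold wW
      exact if_pos ((wl_two ρ ρ).2 ⟨hρ, hρ⟩)
    rw [h1, mul_one]
  · intro α _ hα
    have h1 : wW 2 2 ρ α = 0 := by
      unfold wW
      exact if_neg (fun h => hα (IsRef.unique ((wl_two ρ α).1 h).2 hρ))
    rw [h1, mul_zero]
  · intro h
    exact absurd (Finset.mem_univ _) h
  · intro β _ hβ
    refine Finset.sum_eq_zero (fun α _ => ?_)
    have h1 : wW 2 2 β α = 0 := by
      unfold wW
      exact if_neg (fun h => hβ (IsRef.unique ((wl_two β α).1 h).1 hρ))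
    rw [h1, mul_zero]
  · intro h
    exact absurd (Finset.mem_univ _) h

end

end CY
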