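import Pool.Agent.Lib.MP_216314_pr.Q4.NDef4

/-!
# Fusion rules of the leg function

`NN_right`: `cat_ins kt a z` with `z 0 = q² (a kt)`, `fusion_at` at `p = kt`; `cat_succ kb c z`; `WB_smul` (with `1 • v`), `WB_fuse`.
`NN_left`: `m = Lt - kt` (so `Lb = kb + m + 1`, `Lt + 2 = kt + m + 2`): `ev P (cat (kt+1) a z) = ev P (cyc (Lt+2) (insP 0 (z m) (a 0) (cat kt (tl4 a) z)))` (`ev_congr`, `cat_rot_top`), `a 0 = q² (z m)`,
`fusion_seam`; `ev Pb (cat kb c z) = ev Pb (cyc Lb (cat (kb+1) (consN (z m) c) z)) = R (ev Pb (cat (kb+1) (consN (z m) c) z))` (`ev_congr`, `cat_rot_bot`, `hPb.rot`); `WB_left`.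
`NN_poly`: `cat_update` (`kt < kt + 1`), `ev_update` for every `α`, sum: `p = ∑ β, ∑ α, C (ev Pb .. β * wW kb (kt+1) β α) * p_α`.
-/

set_option autoImplicit false

noncomputable section

namespace CY

open Finset

section

variable {q : ℂ} (hq : q ^ 2 + q + 1 = 0) {Lb Lt kb kt : ℕ} (h : LOk Lb Lt (kb + 1) kt) (hE : Even Lt)
  {Pb : Pat Lb → MvPolynomial ℕ ℂ} {P : Pat (Lt + 2) → MvPolynomial ℕ ℂ} {P' : Pat Lt → MvPolynomial ℕ ℂ}
  (hPb : IsPsi (q ^ 2) Lb Pb) (hP : IsPsi q (Lt + 2) P) (hP' : IsPsi q Lt P')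
include hq h hE hPb hP hP'

theorem NN_right (c a z : ℕ → ℂ) (hz : z 0 = q ^ 2 * a kt) :
    NN kb (kt + 1) Pb P c a z =
      Kf q Lt (a kt) (cat kt a (tl4 z)) * NN (kb + 1) kt Pb P' (Function.update c kb (z 0)) a (tl4 z) := by
  obtain ⟨h1, h2, h3, h4, h5⟩ := id h
  unfold NN
  rw [cat_ins kt a z, hz, fusion_at hq h5 hE hP hP' h2 (a kt) (cat kt a (tl4 z)), ← hz,
    cat_succ kb c z]
  have e := WB_smul (kb := kb) (kt := kt + 1) 1 (Kf q Lt (a kt) (cat kt a (tl4 z)))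
    (ev Pb (cat (kb + 1) (Function.update c kb (z 0)) (tl4 z)))
    (I (kt : ℤ) (ev P' (cat kt a (tl4 z))))
  rw [one_smul, one_mul] at e
  rw [e, WB_fuse h]

theorem NN_left (c a z : ℕ → ℂ) {m : ℕ} (hm : m + kt = Lt) (ha : a 0 = q ^ 2 * z m) :
    NN kb (kt + 1) Pb P c a z =
      Kf q Lt (z m) (cat kt (tl4 a) z) * NN (kb + 1) kt Pb P' (consN (z m) c) (tl4 a) z := by
  obtain ⟨h1, h2, h3, h4, h5⟩ := id h
  unfold NN
  have eT : ev P (cat (kt + 1) a z) = Kf q Lt (z m) (cat kt (tl4 a) z) • IS (ev P' (cat kt (tl4 a) z)) := by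
    rw [← fusion_seam hq h5 hE hP hP' (z m) (cat kt (tl4 a) z), ← ha]
    refine ev_congr hP fun i hi => ?_
    have e2 : Lt + 2 = kt + m + 2 := by omega
    rw [e2]
    exact cat_rot_top kt m a z (by omega)
  have eB : ev Pb (cat kb c z) = R (ev Pb (cat (kb + 1) (consN (z m) c) z)) := by
    rw [← hPb.rot]
    refine ev_congr hPb fun i hi => ?_
    have e2 : Lb = kb + m + 1 := by omega
    rw [e2]
    exact cat_rot_bot kb m c z (by omega)
  have e := WB_smul (kb := kb) (kt := kt + 1) 1 (Kf q Lt (z m) (cat kt (tl4 a) z))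
    (R (ev Pb (cat (kb + 1) (consN (z m) c) z))) (IS (ev P' (cat kt (tl4 a) z)))
  rw [one_smul, one_mul] at e
  rw [eT, eB, e, WB_left h]

omit hq h hE hPb hP' in
theorem NN_poly (c a z : ℕ → ℂ) :
    ∃ p : Polynomial ℂ, p.natDegree ≤ Lt + 1 ∧
      ∀ b : ℂ, NN kb (kt + 1) Pb P c (Function.update a kt b) z = p.eval b := by
  have h1 := fun α => ev_update hP α (cat (kt + 1) a z) kt
  choose p hp1 hp2 using h1
  refine ⟨∑ β : Pat Lb, ∑ α : Pat (Lt + 2),
    Polynomial.C (ev Pb (cat kb c z) β * wW kb (kt + 1) β α) * p α, ?_, ?_⟩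
  · refine Polynomial.natDegree_sum_le_of_forall_le _ _ fun β _ => ?_
    refine Polynomial.natDegree_sum_le_of_forall_le _ _ fun α _ => ?_
    exact (Polynomial.natDegree_C_mul_le _ _).trans (hp1 α)
  · intro b
    unfold NN WB
    rw [Polynomial.eval_finsetSum]
    refine Finset.sum_congr rfl fun β _ => ?_
    rw [Polynomial.eval_finsetSum]
    refine Finset.sum_congr rfl fun α _ => ?_
    rw [Polynomial.eval_mul, Polynomial.eval_C, ← hp2 α b, cat_update (Nat.lt_succ_self kt)]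
    ring

end

end CY
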