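import Pool.Agent.Lib.MP_216314_pr.Q4.PhA
import Pool.Agent.Lib.MP_216314_pr.Q4.PhB
import Pool.Agent.Lib.MP_216314_pr.Q4.PhC
import Pool.Agent.Lib.MP_216314_pr.Q4.PhE

/-!
# The families `G_m` and the function `Phi`

`Phi_perm`: `PhF_list`. `Phi_zero`: explicit 4 x 4 determinant: `Matrix.det_succ_row_zero`, `Fin.sum_univ_four`-like or `Matrix.det_apply`; the columns are `X, X², 1, X³`, the rows `DD x i`: `(x0, x0², 1, x0³)`,
`(1, x0+x1, 0, *)`, `(0, 1, 0, *)`, `(0, 0, 0, 1)`. `Phi_swap_z`: induction on `i`, all `m`: `i = 0`, `m = m' + 2`: `GG (m'+2) (swp 0 z)` and `GG (m'+2) z`: both are `pre X X² (fun j => (X³ - c³) * pre X X² (..) j)`: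
first two of the tail differ by multiples of `X`, `X²`, the others are equal (commutativity) (`UEq.add`); `i + 1`: `UEq.pre` with the induction hypothesis in the form `UEq (2m+4) (GG m z) (GG m (swp i z))`.
`Phi_rec`: `GG (m+1) z = pre X X² (fun j => (X³ - z_0³) GG m (tail z) j)`, `X³ - C (z_0³) = (X - C z_0)(X - C (s z_0))(X - C (s² z_0))` for `s² + s + 1 = 0`, `PhF_rec` with third root `s² z_0`;
`DD x 0 X = x 0`, `DD x 1 X = 1`, `DD x 0 X² = x_0²`, `DD x 1 X² = x_0 + x_1`: `x_0 (x_0 + s x_0) - x_0² = s x_0²`.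
`Phi_update`: `PhF_update` with `N = 2m+3`, `d = 3m+3` (`GG_deg`).
-/

set_option autoImplicit false

noncomputable section

namespace Q4

open Finset Polynomial

def GG : ℕ → (ℕ → ℂ) → ℕ → ℂ[X]
  | 0, _ => pre X (X ^ 2) (fun j => if j = 0 then 1 else X ^ 3)
  | m + 1, z => pre X (X ^ 2) (fun j => (X ^ 3 - C (z 0 ^ 3)) * GG m (fun i => z (i + 1)) j)

theorem GG_deg (m : ℕ) (z : ℕ → ℂ) (j : ℕ) : (GG m z j).natDegree ≤ 3 * m + 3 := by
  induction m generalizing z j with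
  | zero =>
    unfold GG pre
    by_cases h0 : j = 0
    · rw [if_pos h0, natDegree_X]; omega
    · rw [if_neg h0]
      by_cases h1 : j = 1
      · rw [if_pos h1, natDegree_X_pow]; omega
      · rw [if_neg h1]
        beta_reduce
        by_cases h2 : j - 2 = 0
        · rw [if_pos h2, natDegree_one]; omega
        · rw [if_neg h2, natDegree_X_pow]
  | succ m ih =>
    unfold GG pre
    by_cases h0 : j = 0
    · rw [if_pos h0, natDegree_X]; omega
    · rw [if_neg h0]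
      by_cases h1 : j = 1
      · rw [if_pos h1, natDegree_X_pow]; omega
      · rw [if_neg h1]
        have h2 := ih (fun i => z (i + 1)) (j - 2)
        have h3 : (X ^ 3 - C (z 0 ^ 3) : ℂ[X]).natDegree = 3 := natDegree_X_pow_sub_C
        calc ((X ^ 3 - C (z 0 ^ 3)) * GG m (fun i => z (i + 1)) (j - 2)).natDegree
            ≤ (X ^ 3 - C (z 0 ^ 3) : ℂ[X]).natDegree + (GG m (fun i => z (i + 1)) (j - 2)).natDegree :=
              natDegree_mul_le
          _ ≤ 3 * (m + 1) + 3 := by rw [h3]; omega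

/-- the function `Phi_m(x; z)`, `x` a list of length `2m+4` -/
def Phi (m : ℕ) (l : List ℂ) (z : ℕ → ℂ) : ℂ := PhF (2 * m + 4) (GG m z) (fun i => l.getD i 0)

theorem Phi_perm (m : ℕ) {l l' : List ℂ} (h : l.Perm l') (hl : l.length = 2 * m + 4) (z : ℕ → ℂ) :
    Phi m l z = Phi m l' z := PhF_list (GG m z) h hl

theorem Phi_four (x : ℕ → ℂ) (z : ℕ → ℂ) : PhF 4 (GG 0 z) x = 1 := by
  have d00 : DD x 0 X = x 0 := by
    have h := DD_X_mul_zero x 1
    rw [mul_one, DD_one, if_pos rfl, mul_one] at h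
    exact h
  have d01 : DD x 0 (X ^ 2) = x 0 ^ 2 := by
    have h := DD_X_mul_zero x X
    rw [d00] at h
    rw [sq, h, sq]
  have d10 : DD x 1 X = 1 := by
    have h := DD_X_mul x 0 1
    rw [mul_one, DD_one, DD_one, if_pos rfl, if_neg (by omega), mul_zero, zero_add, zero_add] at h
    exact h
  have d11 : DD x 1 (X ^ 2) = x 0 + x 1 := by
    have h := DD_X_mul x 0 X
    rw [sq, h, zero_add, d10, d00]; ring
  have d20 : DD x 2 X = 0 := by
    have h := DD_X_mul x 1 1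
    rw [mul_one, DD_one, DD_one, if_neg (by omega), if_neg (by omega), mul_zero, zero_add] at h
    exact h
  have d21 : DD x 2 (X ^ 2) = 1 := by
    have h := DD_X_mul x 1 X
    have e : (1 : ℕ) + 1 = 2 := rfl
    rw [e, d20, d10, mul_zero, zero_add] at h
    rw [sq]; exact h
  have d30 : DD x 3 X = 0 := by
    have h := DD_X_mul x 2 1
    rw [mul_one, DD_one, DD_one, if_neg (by omega), if_neg (by omega), mul_zero, zero_add] at h
    exact h
  have d31 : DD x 3 (X ^ 2) = 0 := by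
    have h := DD_X_mul x 2 X
    have e : (2 : ℕ) + 1 = 3 := rfl
    rw [e, d30, d20, mul_zero, zero_add] at h
    rw [sq]; exact h
  have d33 : DD x 3 (X ^ 3) = 1 := by
    rw [DD_X_pow, hh_self]
  have hM : (Matrix.of fun i j : Fin 4 => DD x i (GG 0 z j)) =
      !![x 0, x 0 ^ 2, 1, DD x 0 (X ^ 3); 1, x 0 + x 1, 0, DD x 1 (X ^ 3); 0, 1, 0, DD x 2 (X ^ 3); 0, 0, 0, 1] := by
    apply Matrix.ext
    intro i j
    fin_cases i <;> fin_cases j <;> simp [GG, pre, DD_one, d00, d01, d10, d11, d20, d21, d30, d31, d33]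
  unfold PhF
  rw [hM]
  simp [Matrix.det_succ_row_zero, Fin.sum_univ_succ, Fin.succAbove]

theorem Phi_zero (l : List ℂ) (z : ℕ → ℂ) : Phi 0 l z = 1 := Phi_four _ z

theorem GG_congr (m : ℕ) {z z' : ℕ → ℂ} (h : ∀ i, i < m → z i = z' i) : GG m z = GG m z' := by
  induction m generalizing z z' with
  | zero => rfl
  | succ m ih =>
    unfold GG
    rw [h 0 (by omega), ih (z := fun i => z (i + 1)) (z' := fun i => z' (i + 1)) (fun i hi => h (i + 1) (by omega))]

theorem Phi_congr (m : ℕ) (l : List ℂ) {z z' : ℕ → ℂ} (h : ∀ i, i < m → z i = z' i) : Phi m l z = Phi m l z' := by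
  unfold Phi
  rw [GG_congr m h]

theorem GG_swap (i : ℕ) : ∀ (m : ℕ), i + 1 < m → ∀ z : ℕ → ℂ, UEq (2 * m + 4) (GG m z) (GG m (swp i z)) := by
  induction i with
  | zero =>
    intro m hm z
    obtain ⟨m', rfl⟩ : ∃ m', m = m' + 2 := ⟨m - 2, by omega⟩
    have e : 2 * (m' + 2) + 4 = (2 * m' + 6) + 2 := by ring
    rw [e]
    have s0 : swp 0 z 0 = z 1 := by
      unfold swp
      rw [zero_add, Equiv.swap_apply_left]
    have s1 : swp 0 z (0 + 1) = z 0 := by
      unfold swp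
      rw [zero_add, Equiv.swap_apply_right]
    have s2 : (fun k => swp 0 z (k + 1 + 1)) = fun k => z (k + 1 + 1) := by
      funext k
      unfold swp
      rw [Equiv.swap_apply_of_ne_of_ne (by omega) (by omega)]
    have g1 : GG (m' + 2) z = pre X (X ^ 2) (fun j => (X ^ 3 - C (z 0 ^ 3)) *
        pre X (X ^ 2) (fun j => (X ^ 3 - C (z (0 + 1) ^ 3)) * GG m' (fun k => z (k + 1 + 1)) j) j) := rfl
    have g2 : GG (m' + 2) (swp 0 z) = pre X (X ^ 2) (fun j => (X ^ 3 - C (swp 0 z 0 ^ 3)) *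
        pre X (X ^ 2) (fun j => (X ^ 3 - C (swp 0 z (0 + 1) ^ 3)) * GG m' (fun k => swp 0 z (k + 1 + 1)) j) j) := rfl
    rw [g1, g2, s0, s1, s2]
    refine UEq.add X (X ^ 2) fun j _ => ?_
    unfold pre
    by_cases h0 : j = 0
    · refine ⟨z 0 ^ 3 - z 1 ^ 3, 0, ?_⟩
      rw [if_pos h0, if_pos h0, C_sub, C_0]
      ring
    · rw [if_neg h0, if_neg h0]
      by_cases h1 : j = 1
      · refine ⟨0, z 0 ^ 3 - z 1 ^ 3, ?_⟩
        rw [if_pos h1, if_pos h1, C_sub, C_0]
        ring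
      · refine ⟨0, 0, ?_⟩
        rw [if_neg h1, if_neg h1, C_0, zero_add]
        ring
  | succ i ih =>
    intro m hm z
    obtain ⟨m', rfl⟩ : ∃ m', m = m' + 1 := ⟨m - 1, by omega⟩
    have e : 2 * (m' + 1) + 4 = (2 * m' + 4) + 2 := by ring
    rw [e]
    have s0 : swp (i + 1) z 0 = z 0 := by
      unfold swp
      rw [Equiv.swap_apply_of_ne_of_ne (by omega) (by omega)]
    have s1 : (fun k => swp (i + 1) z (k + 1)) = swp i (fun k => z (k + 1)) := by
      funext k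
      unfold swp
      by_cases h0 : k = i
      · rw [h0, Equiv.swap_apply_left, Equiv.swap_apply_left]
      · by_cases h1 : k = i + 1
        · rw [h1, Equiv.swap_apply_right, Equiv.swap_apply_right]
        · rw [Equiv.swap_apply_of_ne_of_ne (by omega) (by omega), Equiv.swap_apply_of_ne_of_ne h0 h1]
    have g1 : GG (m' + 1) z = pre X (X ^ 2) (fun j => (X ^ 3 - C (z 0 ^ 3)) * GG m' (fun k => z (k + 1)) j) := rfl
    have g2 : GG (m' + 1) (swp (i + 1) z) = pre X (X ^ 2) (fun j => (X ^ 3 - C (swp (i + 1) z 0 ^ 3)) *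
        GG m' (fun k => swp (i + 1) z (k + 1)) j) := rfl
    rw [g1, g2, s0, s1]
    exact UEq.pre (ih m' (by omega) (fun k => z (k + 1))) X (X ^ 2) (X ^ 3 - C (z 0 ^ 3))

theorem Phi_swap_z (m : ℕ) {i : ℕ} (hi : i + 1 < m) (l : List ℂ) (z : ℕ → ℂ) :
    Phi m l (swp i z) = Phi m l z := PhF_ueq (GG_swap i m hi z) _

theorem Phi_prod (l : List ℂ) (c : ℂ) :
    ∏ i ∈ range l.length, (l.getD i 0 - c) = (l.map fun x => x - c).prod := by
  induction l with
  | nil => simp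
  | cons a l ih =>
    rw [List.length_cons, prod_range_succ', List.map_cons, List.prod_cons, ← ih, mul_comm]
    rfl

theorem Phi_rec (m : ℕ) (l : List ℂ) (hl : l.length = 2 * m + 4) (z : ℕ → ℂ) {s : ℂ} (hs : s ^ 2 + s + 1 = 0) :
    Phi (m + 1) (z 0 :: s * z 0 :: l) z =
      s * z 0 ^ 2 * (l.map fun x => x - s ^ 2 * z 0).prod * Phi m l (fun i => z (i + 1)) := by
  have hf : (X ^ 3 - C (z 0 ^ 3) : ℂ[X]) = (X - C (z 0)) * (X - C (s * z 0)) * (X - C (s ^ 2 * z 0)) := by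
    have hC : (C s : ℂ[X]) ^ 2 + C s + 1 = 0 := by
      rw [← C_pow, ← C_add, ← C_1, ← C_add, hs, C_0]
    have e1 : (C (s * z 0) : ℂ[X]) = C s * C (z 0) := C_mul
    have e2 : (C (s ^ 2 * z 0) : ℂ[X]) = C s ^ 2 * C (z 0) := by rw [C_mul, C_pow]
    have e3 : (C (z 0 ^ 3) : ℂ[X]) = C (z 0) ^ 3 := C_pow
    rw [e1, e2, e3]
    linear_combination (X ^ 2 * C (z 0) - C s * X * C (z 0) ^ 2 + (C s - 1) * C (z 0) ^ 3) * hC
  have hG : GG (m + 1) z = pre X (X ^ 2) (fun j => (X - C ((fun i => (z 0 :: s * z 0 :: l).getD i 0) 0)) *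
      (X - C ((fun i => (z 0 :: s * z 0 :: l).getD i 0) 1)) * (X - C (s ^ 2 * z 0)) * GG m (fun i => z (i + 1)) j) := by
    have g1 : GG (m + 1) z = pre X (X ^ 2) (fun j => (X ^ 3 - C (z 0 ^ 3)) * GG m (fun k => z (k + 1)) j) := rfl
    rw [g1, hf]
    rfl
  have h1 := PhF_rec (2 * m + 4) X (X ^ 2) (GG m fun i => z (i + 1)) (fun i => (z 0 :: s * z 0 :: l).getD i 0) (s ^ 2 * z 0)
  rw [← hG] at h1
  have e : 2 * (m + 1) + 4 = (2 * m + 4) + 2 := by ring
  unfold Phi
  rw [e, h1]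
  have d00 : DD (fun i => (z 0 :: s * z 0 :: l).getD i 0) 0 X = z 0 := by
    have h := DD_X_mul_zero (fun i => (z 0 :: s * z 0 :: l).getD i 0) 1
    rw [mul_one, DD_one, if_pos rfl, mul_one] at h
    rw [h]; rfl
  have d01 : DD (fun i => (z 0 :: s * z 0 :: l).getD i 0) 0 (X ^ 2) = z 0 ^ 2 := by
    have h := DD_X_mul_zero (fun i => (z 0 :: s * z 0 :: l).getD i 0) X
    rw [d00] at h
    rw [sq, h, sq]; rfl
  have d10 : DD (fun i => (z 0 :: s * z 0 :: l).getD i 0) 1 X = 1 := by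
    have h := DD_X_mul (fun i => (z 0 :: s * z 0 :: l).getD i 0) 0 1
    rw [mul_one, DD_one, DD_one, if_pos rfl, if_neg (by omega), mul_zero, zero_add, zero_add] at h
    exact h
  have d11 : DD (fun i => (z 0 :: s * z 0 :: l).getD i 0) 1 (X ^ 2) = z 0 + s * z 0 := by
    have h := DD_X_mul (fun i => (z 0 :: s * z 0 :: l).getD i 0) 0 X
    rw [sq, h, zero_add, d10, d00, mul_one, add_comm]; rfl
  rw [d00, d01, d10, d11]
  have hp : ∏ i ∈ range (2 * m + 4), ((fun i => (z 0 :: s * z 0 :: l).getD i 0) (i + 2) - s ^ 2 * z 0) =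
      (l.map fun x => x - s ^ 2 * z 0).prod := by
    rw [← Phi_prod, hl]
    rfl
  rw [hp]
  have hx : (fun i => (fun i => (z 0 :: s * z 0 :: l).getD i 0) (i + 2)) = fun i => l.getD i 0 := rfl
  rw [hx]
  ring

/-- degree in one entry -/
theorem Phi_update (m : ℕ) (l : List ℂ) (hl : l.length = 2 * m + 3) (z : ℕ → ℂ) :
    ∃ p : ℂ[X], p.natDegree ≤ m ∧ ∀ b : ℂ, Phi m (l ++ [b]) z = p.eval b := by
  obtain ⟨p, hp, he⟩ := PhF_update (2 * m + 3) (3 * m + 3) (GG m z) (fun j _ => GG_deg m z j) (fun i => l.getD i 0)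
  refine ⟨p, by omega, fun b => ?_⟩
  rw [← he b]
  unfold Phi
  refine PhF_congr (fun j _ => rfl) fun j hj => ?_
  by_cases h : j = 2 * m + 3
  · rw [h, Function.update_self, ← hl]
    simp
  · rw [Function.update_of_ne h]
    have h1 : j < l.length := by omega
    exact List.getD_append l [b] 0 j h1

end Q4
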