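import Pool.Agent.Lib.MP_216314_pr.Q4.NA
import Pool.Agent.Lib.MP_216314_pr.Q4.NB
import Pool.Agent.Lib.MP_216314_pr.Q4.Phi

/-!
# The main identity: definitions

`EQ q kb kt m Pb P c a z`: `NN * ∏ z_j² = ∏_{i<j<kt} F(a_i,a_j) * ∏_{i<j<kb} F_{q²}(c_i,c_j) * Phi_m(a, c, z, z; z)` (legs `a` above, `c` below, `m` glued entries `z`).
-/

set_option autoImplicit false

noncomputable section

namespace Q4

open Finset CY

/-- `∏_{i<j<k} F(a_i, a_j)` -/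
def FP (q : ℂ) (k : ℕ) (a : ℕ → ℂ) : ℂ := ∏ i ∈ range k, ∏ j ∈ Ioo i k, F q (a i) (a j)

/-- the arguments of `Phi` -/
def xl (kb kt m : ℕ) (c a z : ℕ → ℂ) : List ℂ :=
  (List.range kt).map a ++ ((List.range kb).map c ++ ((List.range m).map z ++ (List.range m).map z))

def EQ (q : ℂ) {Lb Lt : ℕ} (kb kt m : ℕ) (Pb : Pat Lb → MvPolynomial ℕ ℂ) (P : Pat Lt → MvPolynomial ℕ ℂ)
    (c a z : ℕ → ℂ) : Prop :=
  NN kb kt Pb P c a z * ∏ j ∈ range m, z j ^ 2 =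
    FP q kt a * FP (q ^ 2) kb c * Phi m (xl kb kt m c a z) z

/-- all legs and entries -/
def gl (kb kt m : ℕ) (c a z : ℕ → ℂ) : List ℂ :=
  (List.range kt).map a ++ ((List.range kb).map c ++ (List.range m).map z)

/-- generic points: nonzero entries with different cubes -/
def Gn (kb kt m : ℕ) (c a z : ℕ → ℂ) : Prop :=
  (∀ x ∈ gl kb kt m c a z, x ≠ 0) ∧ (gl kb kt m c a z).Pairwise fun x y => x ^ 3 ≠ y ^ 3

end Q4
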