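import Pool.Agent.Lib.MP_216314_pr.Q4.EqL

/-!
# Generic points

`gl_*`: `List.Perm` manipulations as in `EqL`. `gn_of_perm`: `List.Perm.mem_iff`, `List.Perm.pairwise_iff` (symmetric relation). `gn_sw_*`: `perm_sw`. `gn_init`: `(List.range (kt+1)).map a = (List.range kt).map a ++ [a kt]`: sublist
(`List.Pairwise.sublist`). `gn_aa`, `gn_zz`, `gn_az`: `List.pairwise_append`, `List.pairwise_map`, `List.pairwise_lt_range`-like: for `i < j` in a mapped range use `List.pairwise_iff_getElem`; symmetric for `j < i`.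
`F_eq_zero_iff`: `q a = q² b ↔ b = q² a` (`q³ = 1`); `F_ne`: if `b = q² a` then `b³ = a³`. `T_ne`: `(a - b) T = a³ - b³`.
-/

set_option autoImplicit false

noncomputable section

namespace Q4

open Finset CY

private theorem EqG_pw {k : ℕ} {f : ℕ → ℂ}
    (h : ((List.range k).map f).Pairwise fun x y => x ^ 3 ≠ y ^ 3) {i j : ℕ} (hi : i < k)
    (hj : j < k) (hij : i ≠ j) : f i ^ 3 ≠ f j ^ 3 := by
  rw [List.pairwise_map, List.pairwise_iff_getElem] at h
  rcases lt_or_gt_of_ne hij with h1 | h1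
  · have h2 := h i j (by rw [List.length_range]; exact hi) (by rw [List.length_range]; exact hj) h1
    rwa [List.getElem_range, List.getElem_range] at h2
  · have h2 := h j i (by rw [List.length_range]; exact hj) (by rw [List.length_range]; exact hi) h1
    rw [List.getElem_range, List.getElem_range] at h2
    exact h2.symm

private theorem EqG_mem {k : ℕ} {f : ℕ → ℂ} {i : ℕ} (hi : i < k) : f i ∈ (List.range k).map f :=
  List.mem_map.2 ⟨i, List.mem_range.2 hi, rfl⟩

theorem gl_right (kb kt m : ℕ) (c a z : ℕ → ℂ) :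
    (gl (kb + 1) kt m (Function.update c kb (z 0)) a (tl4 z)).Perm (gl kb kt (m + 1) c a z) := by
  apply List.Perm.of_eq
  unfold gl
  have h1 : (List.range (kb + 1)).map (Function.update c kb (z 0)) =
      (List.range kb).map c ++ [z 0] := by
    rw [List.range_succ, List.map_append, List.map_cons, List.map_nil, Function.update_self]
    congr 1
    apply List.map_congr_left
    intro i hi
    rw [List.mem_range] at hi
    rw [Function.update_of_ne (by omega)]
  have h2 : (List.range (m + 1)).map z = z 0 :: (List.range m).map (tl4 z) := by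
    rw [List.range_succ_eq_map, List.map_cons, List.map_map]
    rfl
  rw [h1, h2, List.append_assoc]
  rfl

theorem gl_left (kb kt m : ℕ) (c a z : ℕ → ℂ) :
    (gl (kb + 1) kt m (consN (z m) c) a z).Perm (gl kb kt (m + 1) c a z) := by
  unfold gl
  have h1 : (List.range (kb + 1)).map (consN (z m) c) = z m :: (List.range kb).map c := by
    rw [List.range_succ_eq_map, List.map_cons, List.map_map]
    rfl
  have h2 : (List.range (m + 1)).map z = (List.range m).map z ++ [z m] := by
    rw [List.range_succ, List.map_append, List.map_cons, List.map_nil]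
  rw [h1, h2]
  refine List.Perm.append_left _ ?_
  rw [List.cons_append, ← List.append_assoc]
  exact (List.perm_append_singleton _ _).symm

theorem gl_comm (kb kt m : ℕ) (c a z : ℕ → ℂ) : (gl kb kt m c a z).Perm (gl kt kb m a c z) := by
  unfold gl
  exact List.perm_append_comm_assoc _ _ _

theorem gn_of_perm {kb kt m kb' kt' m' : ℕ} {c a z c' a' z' : ℕ → ℂ} (h : (gl kb kt m c a z).Perm (gl kb' kt' m' c' a' z'))
    (hG : Gn kb kt m c a z) : Gn kb' kt' m' c' a' z' := by
  refine ⟨fun x hx => hG.1 x (h.symm.mem_iff.1 hx), ?_⟩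
  exact (h.pairwise_iff (fun {x y} hxy => hxy.symm)).1 hG.2

theorem gn_sw_a {kb kt m i : ℕ} (hi : i + 1 < kt) {c a z : ℕ → ℂ} (hG : Gn kb kt m c a z) : Gn kb kt m c (sw i a) z := by
  refine gn_of_perm ?_ hG
  unfold gl
  exact (perm_sw hi a).symm.append_right _

theorem gn_sw_z {kb kt m i : ℕ} (hi : i + 1 < m) {c a z : ℕ → ℂ} (hG : Gn kb kt m c a z) : Gn kb kt m c a (sw i z) := by
  refine gn_of_perm ?_ hG
  unfold gl
  exact List.Perm.append_left _ (List.Perm.append_left _ (perm_sw hi z).symm)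

/-- without the last top leg -/
theorem gn_init {kb kt m : ℕ} {c a z : ℕ → ℂ} (hG : Gn kb (kt + 1) m c a z) : Gn kb kt m c a z := by
  have hsub : (gl kb kt m c a z).Sublist (gl kb (kt + 1) m c a z) := by
    unfold gl
    rw [List.range_succ, List.map_append]
    exact List.Sublist.append (List.sublist_append_left _ _) (List.Sublist.refl _)
  exact ⟨fun x hx => hG.1 x (hsub.subset hx), hG.2.sublist hsub⟩

theorem gn_aa {kb kt m : ℕ} {c a z : ℕ → ℂ} (hG : Gn kb kt m c a z) {i j : ℕ} (hi : i < kt) (hj : j < kt) (h : i ≠ j) :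
    a i ^ 3 ≠ a j ^ 3 := by
  have h1 := hG.2
  unfold gl at h1
  rw [List.pairwise_append] at h1
  exact EqG_pw h1.1 hi hj h

theorem gn_zz {kb kt m : ℕ} {c a z : ℕ → ℂ} (hG : Gn kb kt m c a z) {i j : ℕ} (hi : i < m) (hj : j < m) (h : i ≠ j) :
    z i ^ 3 ≠ z j ^ 3 := by
  have h1 := hG.2
  unfold gl at h1
  rw [List.pairwise_append, List.pairwise_append] at h1
  exact EqG_pw h1.2.1.2.1 hi hj h

theorem gn_az {kb kt m : ℕ} {c a z : ℕ → ℂ} (hG : Gn kb kt m c a z) {i j : ℕ} (hi : i < kt) (hj : j < m) :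
    a i ^ 3 ≠ z j ^ 3 := by
  have h1 := hG.2
  unfold gl at h1
  rw [List.pairwise_append] at h1
  exact h1.2.2 _ (EqG_mem hi) _ (List.mem_append_right _ (EqG_mem hj))

theorem gn_a {kb kt m : ℕ} {c a z : ℕ → ℂ} (hG : Gn kb kt m c a z) {i : ℕ} (hi : i < kt) : a i ≠ 0 := by
  exact hG.1 _ (List.mem_append_left _ (EqG_mem hi))

theorem gn_z {kb kt m : ℕ} {c a z : ℕ → ℂ} (hG : Gn kb kt m c a z) {i : ℕ} (hi : i < m) : z i ≠ 0 := by
  exact hG.1 _ (List.mem_append_right _ (List.mem_append_right _ (EqG_mem hi)))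

theorem F_eq_zero_iff {q : ℂ} (hq : q ^ 2 + q + 1 = 0) (a b : ℂ) : F q a b = 0 ↔ b = q ^ 2 * a := by
  unfold F
  constructor
  · intro h
    linear_combination (-q) * h - (b * (q - 1)) * hq
  · intro h
    rw [h]
    linear_combination (-(q ^ 2 - q) * a) * hq

/-- `F` does not vanish if the cubes are different -/
theorem F_ne {q : ℂ} (hq : q ^ 2 + q + 1 = 0) {a b : ℂ} (h : a ^ 3 ≠ b ^ 3) : F q a b ≠ 0 := by
  intro h1
  rw [F_eq_zero_iff hq] at h1
  apply h
  rw [h1]
  linear_combination (-(a ^ 3) * (q ^ 3 + 1) * (q - 1)) * hq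

theorem T_ne {a b : ℂ} (h : a ^ 3 ≠ b ^ 3) : a ^ 2 + a * b + b ^ 2 ≠ 0 := by
  intro h1
  apply h
  linear_combination (a - b) * h1

end Q4
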