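import Pool.Agent.Lib.MP_216314_pr.Q4.EqD

/-!
# Lists and products

`xl_length`: `kt + kb + 2m`. `FP_succ`: split off the last entry (`range_succ`, `Ioo i (k+1) = insert k (Ioo i k)` for `i < k`, `Ioo k (k+1) = ∅`). `FP_cons`: split off the first entry
(`prod_range_succ'`). `FP_sw`: the two products have the same factors, except for the pair `(i, i+1)`; e.g. induction on `k` with `FP_succ` and `FP_cons`-like splitting, or via a product over
unordered pairs: write both sides as `∏ over p < r < k` and use the bijection induced by the swap. (`F (a (i+1)) (a i) * FP k a = F (a i) (a (i+1)) * FP k (sw i a)`.)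
`perm_*`: `List.Perm` manipulations: `List.range_succ`, `List.map_append`, `List.perm_append_comm`, `List.perm_middle`; `List.range_succ_eq_map` for `(range (m+1)).map z = z 0 :: (range m).map (tl4 z)`.
`perm_sw`: `(range k).map (sw i a) ~ (range k).map a` for `i + 1 < k`.
`F_eq_zero_iff`: `q a = q² b ↔ b = q² a` (`q³ = 1`).
-/

set_option autoImplicit false

noncomputable section

namespace Q4

open Finset CY

theorem EqL_swap_lt {k i : ℕ} (hi : i + 1 < k) (j : ℕ) : Equiv.swap i (i + 1) j < k ↔ j < k := by
  rw [Equiv.swap_apply_def]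
  split_ifs with h1 h2
  · omega
  · omega
  · exact Iff.rfl

theorem EqL_sw_of_lt {i j : ℕ} (h : j < i) (a : ℕ → ℂ) : sw i a j = a j := by
  unfold sw
  rw [Equiv.swap_apply_of_ne_of_ne (by omega) (by omega)]

theorem EqL_sw_of_gt {i j : ℕ} (h : i + 1 < j) (a : ℕ → ℂ) : sw i a j = a j := by
  unfold sw
  rw [Equiv.swap_apply_of_ne_of_ne (by omega) (by omega)]

theorem EqL_sw_left (i : ℕ) (a : ℕ → ℂ) : sw i a i = a (i + 1) := by
  unfold sw
  rw [Equiv.swap_apply_left]

theorem EqL_sw_right (i : ℕ) (a : ℕ → ℂ) : sw i a (i + 1) = a i := by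
  unfold sw
  rw [Equiv.swap_apply_right]

/-- `range (k + 1)`, last entry -/
theorem EqL_snoc (k : ℕ) (a : ℕ → ℂ) : (List.range (k + 1)).map a = (List.range k).map a ++ [a k] := by
  rw [List.range_succ, List.map_append, List.map_singleton]

/-- `range (k + 1)`, first entry -/
theorem EqL_cons (k : ℕ) (a : ℕ → ℂ) : (List.range (k + 1)).map a = a 0 :: (List.range k).map (tl4 a) := by
  rw [List.range_succ_eq_map, List.map_cons, List.map_map]
  rfl

theorem EqL_congr {k : ℕ} {a a' : ℕ → ℂ} (h : ∀ i, i < k → a i = a' i) :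
    (List.range k).map a = (List.range k).map a' :=
  List.map_congr_left fun i hi => h i (List.mem_range.1 hi)

theorem xl_length (kb kt m : ℕ) (c a z : ℕ → ℂ) : (xl kb kt m c a z).length = kt + kb + 2 * m := by
  unfold xl
  rw [List.length_append, List.length_append, List.length_append, List.length_map, List.length_map,
    List.length_map, List.length_range, List.length_range, List.length_range]
  ring

theorem FP_succ (q : ℂ) (k : ℕ) (a : ℕ → ℂ) : FP q (k + 1) a = FP q k a * ∏ i ∈ range k, F q (a i) (a k) := by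
  unfold FP
  rw [prod_range_succ]
  have h1 : Ioo k (k + 1) = ∅ := by
    ext j
    rw [mem_Ioo]
    constructor
    · rintro ⟨h1, h2⟩
      omega
    · intro h
      exact absurd h (notMem_empty j)
  rw [h1, prod_empty, mul_one, ← prod_mul_distrib]
  refine prod_congr rfl fun i hi => ?_
  have hik := mem_range.1 hi
  have h2 : Ioo i (k + 1) = insert k (Ioo i k) := by
    ext j
    rw [mem_insert, mem_Ioo, mem_Ioo]
    omega
  rw [h2, prod_insert (by rw [mem_Ioo]; omega), mul_comm]

theorem FP_cons (q : ℂ) (k : ℕ) (a : ℕ → ℂ) :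
    FP q (k + 1) a = (∏ i ∈ range k, F q (a 0) (a (i + 1))) * FP q k (tl4 a) := by
  induction k with
  | zero =>
    rw [FP_succ]
    unfold FP
    simp
  | succ k ih =>
    rw [FP_succ q (k + 1) a, ih, FP_succ q k (tl4 a), prod_range_succ' (fun i => F q (a i) (a (k + 1))),
      prod_range_succ (fun i => F q (a 0) (a (i + 1)))]
    have h : (∏ i ∈ range k, F q (tl4 a i) (tl4 a k)) = ∏ i ∈ range k, F q (a (i + 1)) (a (k + 1)) := rfl
    rw [h]
    ring

theorem FP_congr {q : ℂ} {k : ℕ} {a a' : ℕ → ℂ} (h : ∀ i, i < k → a i = a' i) : FP q k a = FP q k a' := by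
  unfold FP
  refine prod_congr rfl fun i hi => prod_congr rfl fun j hj => ?_
  rw [h i (mem_range.1 hi), h j (mem_Ioo.1 hj).2]

theorem FP_sw (q : ℂ) {k i : ℕ} (hi : i + 1 < k) (a : ℕ → ℂ) :
    F q (a (i + 1)) (a i) * FP q k a = F q (a i) (a (i + 1)) * FP q k (sw i a) := by
  induction k, (show i + 2 ≤ k by omega) using Nat.le_induction with
  | base =>
    rw [FP_succ q (i + 1) a, FP_succ q i a, FP_succ q (i + 1) (sw i a), FP_succ q i (sw i a),
      prod_range_succ (fun j => F q (a j) (a (i + 1))),
      prod_range_succ (fun j => F q (sw i a j) (sw i a (i + 1))), EqL_sw_left, EqL_sw_right,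
      FP_congr (k := i) (a := sw i a) (a' := a) fun j hj => EqL_sw_of_lt hj a]
    have h1 : ∀ b : ℂ, (∏ j ∈ range i, F q (sw i a j) b) = ∏ j ∈ range i, F q (a j) b := fun b =>
      prod_congr rfl fun j hj => by rw [EqL_sw_of_lt (mem_range.1 hj) a]
    rw [h1, h1]
    ring
  | succ k hk ih =>
    have hk' : i + 1 < k := by omega
    have h2 := ih hk'
    rw [FP_succ q k a, FP_succ q k (sw i a), EqL_sw_of_gt hk' a]
    have h1 : (∏ j ∈ range k, F q (sw i a j) (a k)) = ∏ j ∈ range k, F q (a j) (a k) := by
      refine prod_equiv (Equiv.swap i (i + 1)) (fun j => ?_) fun j _ => rfl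
      rw [mem_range, mem_range, EqL_swap_lt hk']
    rw [h1, ← mul_assoc, ← mul_assoc, h2]

theorem perm_sw {k i : ℕ} (hi : i + 1 < k) (a : ℕ → ℂ) : ((List.range k).map (sw i a)).Perm ((List.range k).map a) := by
  have h1 : ((List.range k).map (Equiv.swap i (i + 1))).Perm (List.range k) := by
    refine (List.perm_ext_iff_of_nodup (List.nodup_range.map (Equiv.swap i (i + 1)).injective)
      List.nodup_range).2 fun j => ?_
    rw [List.mem_map, List.mem_range]
    constructor
    · rintro ⟨l, hl, rfl⟩
      exact (EqL_swap_lt hi l).2 (List.mem_range.1 hl)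
    · intro hj
      refine ⟨Equiv.swap i (i + 1) j, List.mem_range.2 ((EqL_swap_lt hi j).2 hj), ?_⟩
      rw [Equiv.swap_apply_self]
  have h2 : (List.range k).map (sw i a) = ((List.range k).map (Equiv.swap i (i + 1))).map a := by
    rw [List.map_map]
    rfl
  rw [h2]
  exact h1.map a

/-- exchange of top and bottom -/
theorem xl_comm (kb kt m : ℕ) (c a z : ℕ → ℂ) : (xl kb kt m c a z).Perm (xl kt kb m a c z) := by
  unfold xl
  rw [← List.append_assoc, ← List.append_assoc ((List.range kb).map c)]
  exact List.perm_append_comm.append_right _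

/-- right node -/
theorem xl_right (kb kt m : ℕ) (c a z : ℕ → ℂ) :
    (xl kb (kt + 1) (m + 1) c a z).Perm
      (z 0 :: a kt :: xl (kb + 1) kt m (Function.update c kb (z 0)) a (tl4 z)) := by
  classical
  unfold xl
  rw [EqL_snoc kt a, EqL_cons m z, EqL_snoc kb, Function.update_self,
    EqL_congr (k := kb) (a := Function.update c kb (z 0)) (a' := c) fun i hi =>
      Function.update_of_ne (by omega) _ _]
  refine List.perm_iff_count.2 fun x => ?_
  simp only [List.count_append, List.count_cons, List.count_nil]
  ring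

/-- left node -/
theorem xl_left (kb kt m : ℕ) (c a z : ℕ → ℂ) :
    (xl kb (kt + 1) (m + 1) c a z).Perm (z m :: a 0 :: xl (kb + 1) kt m (consN (z m) c) (tl4 a) z) := by
  classical
  unfold xl
  have h1 : (List.range (kb + 1)).map (consN (z m) c) = z m :: (List.range kb).map c := by
    rw [EqL_cons]
    rfl
  rw [EqL_cons kt a, EqL_snoc m z, h1]
  refine List.perm_iff_count.2 fun x => ?_
  simp only [List.count_append, List.count_cons, List.count_nil]
  ring

/-- the last top leg as last entry -/
theorem xl_last (kb kt m : ℕ) (c a z : ℕ → ℂ) : ∃ l : List ℂ, l.length = kt + kb + 2 * m ∧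
    ∀ b : ℂ, (xl kb (kt + 1) m c (Function.update a kt b) z).Perm (l ++ [b]) := by
  classical
  refine ⟨xl kb kt m c a z, xl_length kb kt m c a z, fun b => ?_⟩
  unfold xl
  rw [EqL_snoc kt, Function.update_self,
    EqL_congr (k := kt) (a := Function.update a kt b) (a' := a) fun i hi =>
      Function.update_of_ne (by omega) _ _]
  refine List.perm_iff_count.2 fun x => ?_
  simp only [List.count_append, List.count_cons, List.count_nil]
  ring

end Q4
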