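import Pool.Agent.Lib.MP_216314_pr.Q4.EqS
import Pool.Agent.Lib.MP_216314_pr.W.Bridge

/-!
# The main identity for all sizes

Induction on `n` for all `q`. `n = 0`: `WB_two` (`exists_ref`), `hPb.ref`, `hP.ref` (`∏ i ∈ range 2, ∏ j ∈ Ioo i 2` = `F (z 0) (z 1)`), `Phi_zero`; periods `2`. Step `n → n+1`: `L = 2n + 2`. By the induction hypothesis
for `q²` (solutions `P'` for `(q²)² = q` below.. take `exists_psi'`): `EQ (q²) 2 2 (2n) P' Pb' ..` for all generic points; `step` with (`q²`, `kb = 1`, `kt = 2`, `m = 2n`, bottom period `2n+2`, top period `2n+2 → 2n+4`) gives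
`EQ (q²) 1 3 (2n+1)` for the bottom solution `P' : Pat (2n+2)` (for `(q²)² = q`) and the top solution `Pb : Pat (2n+4)` (for `q²`); `EQ_comm` gives `EQ q 3 1 (2n+1) Pb P' c a z`; `step` with (`q`, `kb = 2`, `kt = 1`, `m = 2n+1`,
bottom period `2n+4`, top period `2n+2 → 2n+4`) gives `EQ q 2 2 (2n+2)`. The constants: for `(kb, kt) = (2,1)`: `q^4 = q`, `(1-q²) q² = -q² q² (1-q)`; for `(1,2)` and any cube root: `q² = q²`, `(1-q²)(-q) = q^4 q² (1-q)`.
-/

set_option autoImplicit false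

noncomputable section

namespace Q4

open Finset CY

theorem EqM_sq {q : ℂ} (hq : q ^ 2 + q + 1 = 0) : (q ^ 2) ^ 2 = q := by
  linear_combination (q ^ 2 - q) * hq

theorem EqM_root {q : ℂ} (hq : q ^ 2 + q + 1 = 0) : (q ^ 2) ^ 2 + q ^ 2 + 1 = 0 := by
  linear_combination (q ^ 2 - q + 1) * hq

theorem EqM_cat {a z : ℕ → ℂ} (q : ℂ) :
    ∏ i ∈ range 2, ∏ j ∈ Ioo i 2, F q (cat 2 a z i) (cat 2 a z j) = FP q 2 a := by
  unfold FP
  refine Finset.prod_congr rfl fun i hi => Finset.prod_congr rfl fun j hj => ?_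
  rw [cat_lt (Finset.mem_range.1 hi), cat_lt (Finset.mem_Ioo.1 hj).2]

theorem EqM_base {q : ℂ} {Pb P : Pat 2 → MvPolynomial ℕ ℂ} (hPb : IsPsi (q ^ 2) 2 Pb) (hP : IsPsi q 2 P)
    (c a z : ℕ → ℂ) : EQ q 2 2 0 Pb P c a z := by
  obtain ⟨ρ, hρ⟩ := exists_ref (L := 2) ⟨1, rfl⟩ (by norm_num)
  have h1 : NN 2 2 Pb P c a z = FP (q ^ 2) 2 c * FP q 2 a := by
    unfold NN
    rw [WB_two _ _ ρ hρ, hPb.ref _ ρ hρ, hP.ref _ ρ hρ, EqM_cat, EqM_cat]
  unfold EQ
  rw [h1, Phi_zero, Finset.prod_range_zero]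
  ring

theorem EqM_aux (n : ℕ) : ∀ (L m : ℕ), L = 2 * n + 2 → m = 2 * n → ∀ {q : ℂ}, q ^ 2 + q + 1 = 0 →
    ∀ {Pb P : Pat L → MvPolynomial ℕ ℂ},
    IsPsi (q ^ 2) L Pb → IsPsi q L P → ∀ c a z, Gn 2 2 m c a z → EQ q 2 2 m Pb P c a z := by
  induction n with
  | zero =>
    intro L m hL hm q hq Pb P hPb hP c a z hG
    have hL' : L = 2 := by omega
    have hm' : m = 0 := by omega
    subst hL' hm'
    exact EqM_base hPb hP c a z
  | succ n ih =>
    intro L m hL hm q hq Pb P hPb hP c a z hG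
    have hL' : L = (2 * n + 2) + 2 := by omega
    have hm' : m = (2 * n + 1) + 1 := by omega
    subst hL' hm'
    have hEv : Even (2 * n + 2) := ⟨n + 1, by omega⟩
    obtain ⟨P', hP'⟩ := exists_psi' hq (L := 2 * n + 2) (by omega) hEv
    obtain ⟨Q', hQ'⟩ := exists_psi' (EqM_root hq) (L := 2 * n + 2) (by omega) hEv
    have hP'2 : IsPsi ((q ^ 2) ^ 2) (2 * n + 2) P' := by
      rw [EqM_sq hq]
      exact hP'
    have s1 : ∀ c a z, Gn 1 3 (2 * n + 1) c a z → EQ (q ^ 2) 1 3 (2 * n + 1) P' Pb c a z := by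
      intro c a z hG1
      have hc' : (1 - (q ^ 2) ^ 2) * (-q ^ 2) ^ 1 = (-(q ^ 2) ^ 2) ^ 2 * ((q ^ 2) ^ 2 * (1 - q ^ 2)) := by
        have e1 : q ^ 3 = 1 := by linear_combination (q - 1) * hq
        have e2 : q ^ 6 = 1 := by linear_combination (q ^ 3 + 1) * e1
        have e3 : q ^ 12 = 1 := by linear_combination (q ^ 6 + 1) * e2
        linear_combination e2 - (1 - q ^ 2) * e3
      exact step (EqM_root hq) (Lb := 2 * n + 2) (Lt := 2 * n + 2) (kb := 1) (kt := 2) (m := 2 * n)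
        ⟨by omega, by omega, by omega, by omega, by omega⟩ hEv (by omega) hP'2 hPb hQ' rfl rfl hc'
        (fun c a z hG2 => ih (2 * n + 2) (2 * n) rfl rfl (EqM_root hq) hP'2 hQ' c a z hG2) c a z hG1
    have s2 : ∀ c a z, Gn 3 1 (2 * n + 1) c a z → EQ q 3 1 (2 * n + 1) Pb P' c a z := by
      intro c a z hG1
      refine EQ_comm hq ⟨by omega, by omega, by omega, by omega, by omega⟩ rfl (s1 a c z ?_)
      exact gn_of_perm (gl_comm 3 1 (2 * n + 1) c a z) hG1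
    have hc : q ^ (2 * 2) = q ^ 1 := by
      linear_combination (q ^ 2 - q) * hq
    have hc' : (1 - q ^ 2) * (-q) ^ 2 = (-q ^ 2) ^ 1 * (q ^ 2 * (1 - q)) := by
      have e1 : q ^ 3 = 1 := by linear_combination (q - 1) * hq
      linear_combination (-q ^ 2) * e1
    exact step hq (Lb := (2 * n + 2) + 2) (Lt := 2 * n + 2) (kb := 2) (kt := 1) (m := 2 * n + 1)
      ⟨by omega, by omega, by omega, by omega, by omega⟩ hEv (by omega) hPb hP hP' rfl hc hc' s2 c a z hG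

theorem four (n : ℕ) : ∀ {q : ℂ}, q ^ 2 + q + 1 = 0 → ∀ {Pb P : Pat (2 * n + 2) → MvPolynomial ℕ ℂ},
    IsPsi (q ^ 2) (2 * n + 2) Pb → IsPsi q (2 * n + 2) P → ∀ c a z, Gn 2 2 (2 * n) c a z →
      EQ q 2 2 (2 * n) Pb P c a z := by
  intro q hq Pb P hPb hP c a z hG
  exact EqM_aux n (2 * n + 2) (2 * n) rfl rfl hq hPb hP c a z hG

end Q4
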