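import Pool.Agent.Lib.MP_216314_pr.Q4.EqA
import Pool.Agent.Lib.MP_216314_pr.Q4.EqF

/-!
# The nodes of the main identity

`node_right`: induction on `j` for all `z`: `j = 0`: `EQ_right` with the hypothesis `IH` at `(update c kb (z 0), update a kt b, tl4 z)` (`gl_right`, `gn_of_perm`; `Gn .. kt ..` does not depend on `a kt`); `j + 1`: `EQ_swap_z` at `i = j` (`T_ne`, `gn_zz`), for `sw j z`:
`(sw j z) j = z (j+1)`, `gn_sw_z`.
`node_left0`: `a 0 = q² z_j`, the other legs generic: `Gn kb kt (m+1) c (tl4 a) z`: downward induction on `j` (`j = m`: `EQ_left` with `IH` at `(consN (z m) c, tl4 a, z)`, `gl_left`; `j < m`: `EQ_swap_z` at `i = j`, `(sw j z) (j+1) = z j`).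
`node_left`: `b` at the position `p ≤ kt`: with `insA p b a = fun i => if i < p then a i else if i = p then b else a (i-1)`: claim `EQ` for `insA p b a` if `b = q² z_j`, `Gn kb kt (m+1) c a z`: induction on `p`: `p = 0`: `node_left0`; `p + 1`: `EQ_swap_leg` at
`i = p`: `sw p (insA (p+1) b a) = insA p b a` and `F(b, a_p) ≠ 0` (`F_ne`: `b³ = z_j³ ≠ a_p³`, `gn_az`). Finally `insA kt b a` and `update a kt b` agree on the indices `≤ kt` (`NN`, `FP`, `xl` only depend on these; or show `EQ` congruence: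
`cat (kt+1) a z = cat (kt+1) a' z` if `a i = a' i` for `i ≤ kt`).
-/

set_option autoImplicit false

noncomputable section

namespace Q4

open Finset CY

private theorem EqN_sw_left (i : ℕ) (z : ℕ → ℂ) : sw i z i = z (i + 1) := by
  unfold sw
  rw [Equiv.swap_apply_left]

private theorem EqN_sw_right (i : ℕ) (z : ℕ → ℂ) : sw i z (i + 1) = z i := by
  unfold sw
  rw [Equiv.swap_apply_right]

private theorem EqN_gl {kb kt m : ℕ} {c a a' z : ℕ → ℂ} (h : ∀ i, i < kt → a i = a' i) :
    gl kb kt m c a z = gl kb kt m c a' z := by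
  unfold gl
  have h1 : (List.range kt).map a = (List.range kt).map a' :=
    List.map_congr_left fun i hi => h i (List.mem_range.1 hi)
  rw [h1]

private theorem EqN_gn {kb kt m : ℕ} {c a a' z : ℕ → ℂ} (h : ∀ i, i < kt → a i = a' i)
    (hG : Gn kb kt m c a z) : Gn kb kt m c a' z := by
  unfold Gn at hG ⊢
  rw [← EqN_gl h]
  exact hG

private theorem EqN_congr {q : ℂ} {Lb Lt kb kt m : ℕ} {Pb : Pat Lb → MvPolynomial ℕ ℂ}
    {P : Pat Lt → MvPolynomial ℕ ℂ} {c a a' z : ℕ → ℂ} (h : ∀ i, i < kt → a i = a' i)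
    (hE : EQ q kb kt m Pb P c a z) : EQ q kb kt m Pb P c a' z := by
  unfold EQ NN xl at hE ⊢
  have h1 : (List.range kt).map a = (List.range kt).map a' :=
    List.map_congr_left fun i hi => h i (List.mem_range.1 hi)
  have h2 : cat kt a z = cat kt a' z := by
    funext i
    unfold cat
    by_cases hi : i < kt
    · rw [if_pos hi, if_pos hi, h i hi]
    · rw [if_neg hi, if_neg hi]
  rw [← h1, ← h2, ← FP_congr (q := q) h]
  exact hE

/-- `b` inserted at the position `p` -/
private def EqN_ins (p : ℕ) (b : ℂ) (a : ℕ → ℂ) : ℕ → ℂ :=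
  fun i => if i < p then a i else if i = p then b else a (i - 1)

private theorem EqN_sw (p : ℕ) (b : ℂ) (a : ℕ → ℂ) : sw p (EqN_ins (p + 1) b a) = EqN_ins p b a := by
  funext i
  unfold sw EqN_ins
  rw [Equiv.swap_apply_def]
  by_cases h1 : i = p
  · subst h1
    rw [if_pos rfl, if_neg (by omega), if_pos rfl, if_neg (by omega), if_pos rfl]
  · by_cases h2 : i = p + 1
    · subst h2
      rw [if_neg h1, if_pos rfl, if_pos (by omega), if_neg (by omega), if_neg (by omega)]
      rfl
    · rw [if_neg h1, if_neg h2]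
      by_cases h3 : i < p
      · rw [if_pos (by omega), if_pos h3]
      · rw [if_neg (by omega), if_neg (by omega), if_neg h3, if_neg h1]

section

variable {q : ℂ} (hq : q ^ 2 + q + 1 = 0) {Lb Lt kb kt m : ℕ} (h : LOk Lb Lt (kb + 1) kt) (hE' : Even Lt) (hm : kt + m = Lt)
  {Pb : Pat Lb → MvPolynomial ℕ ℂ} {P : Pat (Lt + 2) → MvPolynomial ℕ ℂ} {P' : Pat Lt → MvPolynomial ℕ ℂ}
  (hPb : IsPsi (q ^ 2) Lb Pb) (hP : IsPsi q (Lt + 2) P) (hP' : IsPsi q Lt P') (h3 : kb + kt = 3)
  (hc : q ^ (2 * kb) = q ^ kt) (hc' : (1 - q ^ 2) * (-q) ^ kb = (-q ^ 2) ^ kt * (q ^ 2 * (1 - q)))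
  (IH : ∀ c a z, Gn (kb + 1) kt m c a z → EQ q (kb + 1) kt m Pb P' c a z)
include hq h hE' hm hPb hP hP' h3 hc hc' IH

theorem node_right {j : ℕ} (hj : j ≤ m) {c a z : ℕ → ℂ} (hG : Gn kb kt (m + 1) c a z) (b : ℂ) (hb : b = q * z j) :
    EQ q kb (kt + 1) (m + 1) Pb P c (Function.update a kt b) z := by
  have hL : LOk Lb (Lt + 2) kb (kt + 1) := by
    obtain ⟨h1, h2, h4, h5, h6⟩ := h
    exact ⟨by omega, by omega, by omega, h5, by omega⟩
  have hu : ∀ i, i < kt → a i = Function.update a kt b i := fun i hi =>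
    (Function.update_of_ne (by omega) _ _).symm
  induction j generalizing z with
  | zero =>
    refine EQ_right hq h hE' hm hPb hP hP' h3 hc ?_ (IH _ _ _ ?_)
    · rw [Function.update_self, hb]
    · exact gn_of_perm (gl_right kb kt m c (Function.update a kt b) z).symm (EqN_gn hu hG)
  | succ j ih =>
    refine EQ_swap_z hq hL (by omega) (by omega) hPb hP (i := j) (by omega) ?_ ?_
    · exact T_ne (gn_zz hG (by omega) (by omega) (by omega))
    · exact ih (by omega) (gn_sw_z (by omega) hG) (by rw [EqN_sw_left]; exact hb)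

private theorem EqN_left0 {t : ℕ} (ht : t ≤ m) {c a z : ℕ → ℂ} (hG : Gn kb kt (m + 1) c (tl4 a) z)
    (hb : a 0 = q ^ 2 * z (m - t)) : EQ q kb (kt + 1) (m + 1) Pb P c a z := by
  have hL : LOk Lb (Lt + 2) kb (kt + 1) := by
    obtain ⟨h1, h2, h4, h5, h6⟩ := h
    exact ⟨by omega, by omega, by omega, h5, by omega⟩
  induction t generalizing z with
  | zero =>
    rw [Nat.sub_zero] at hb
    refine EQ_left hq h hE' hm hPb hP hP' h3 hc' hb (IH _ _ _ ?_)
    exact gn_of_perm (gl_left kb kt m c (tl4 a) z).symm hG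
  | succ t ih =>
    have e1 : m - t = (m - (t + 1)) + 1 := by omega
    refine EQ_swap_z hq hL (by omega) (by omega) hPb hP (i := m - (t + 1)) (by omega) ?_ ?_
    · exact T_ne (gn_zz hG (by omega) (by omega) (by omega))
    · refine ih (by omega) (gn_sw_z (by omega) hG) ?_
      rw [e1, EqN_sw_right]
      exact hb

theorem node_left {j : ℕ} (hj : j ≤ m) {c a z : ℕ → ℂ} (hG : Gn kb kt (m + 1) c a z) (b : ℂ) (hb : b = q ^ 2 * z j) :
    EQ q kb (kt + 1) (m + 1) Pb P c (Function.update a kt b) z := by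
  have hq3 : q ^ 3 = 1 := by linear_combination (q - 1) * hq
  have hk : kt + 1 ≤ Lt + 2 := by
    obtain ⟨h1, h2, h4, h5, h6⟩ := h
    omega
  have key : ∀ p, p ≤ kt → EQ q kb (kt + 1) (m + 1) Pb P c (EqN_ins p b a) z := by
    intro p
    induction p with
    | zero =>
      intro _
      have h1 : tl4 (EqN_ins 0 b a) = a := by
        funext i
        unfold tl4 EqN_ins
        rw [if_neg (by omega), if_neg (by omega)]
        rfl
      refine EqN_left0 hq h hE' hm hPb hP hP' h3 hc hc' IH (t := m - j) (by omega) ?_ ?_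
      · rw [h1]
        exact hG
      · have h2 : m - (m - j) = j := by omega
        rw [h2]
        exact hb
    | succ p ih =>
      intro hp
      refine EQ_swap_leg hq hP hk (by omega) (i := p) (by omega) ?_ ?_
      · have h1 : EqN_ins (p + 1) b a (p + 1) = b := by
          unfold EqN_ins
          rw [if_neg (by omega), if_pos rfl]
        have h2 : EqN_ins (p + 1) b a p = a p := by
          unfold EqN_ins
          rw [if_pos (by omega)]
        rw [h1, h2]
        refine F_ne hq ?_
        have h4 : b ^ 3 = z j ^ 3 := by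
          rw [hb]
          linear_combination (z j ^ 3 * (q ^ 3 + 1)) * hq3
        rw [h4]
        exact (gn_az hG (by omega) (by omega)).symm
      · rw [EqN_sw]
        exact ih (by omega)
  refine EqN_congr (fun i hi => ?_) (key kt le_rfl)
  unfold EqN_ins
  by_cases h1 : i < kt
  · rw [if_pos h1, Function.update_of_ne (by omega)]
  · have h2 : i = kt := by omega
    subst h2
    rw [if_neg h1, if_pos rfl, Function.update_self]

end

end Q4
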