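import Pool.Agent.Lib.MP_216314_pr.Q4.EqN
import Pool.Agent.Lib.MP_216314_pr.Q4.EqP

/-!
# The induction step of the main identity

The polynomial `p` of `EQ_poly` has degree `≤ Lt + 1 = kt + m + 1` and vanishes at the `kt + 2(m+1)` different points `q² a_i` (`i < kt`; `EQ_zero` for `update a kt b`), `q z_j`, `q² z_j` (`j < m+1`; `node_right`, `node_left`, hypothesis `gn_init`): they are different since the cubes
`a_i³`, `z_j³` are different and `q z_j ≠ q² z_j` (`z_j ≠ 0`). So `p = 0` (`Polynomial.card_roots'`, or `Polynomial.eq_zero_of_natDegree_lt_card_of_eval_eq_zero'`). Evaluate at `b = a kt` (`Function.update_eq_self`).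
-/

set_option autoImplicit false

noncomputable section

namespace Q4

open Finset CY

theorem EqS_cube {q : ℂ} (hq : q ^ 2 + q + 1 = 0) : q ^ 3 = 1 := by
  linear_combination (q - 1) * hq

theorem EqS_ne {q : ℂ} (hq : q ^ 2 + q + 1 = 0) {z : ℂ} (hz : z ≠ 0) : q * z ≠ q ^ 2 * z := by
  intro h
  have h1 : q = q ^ 2 := mul_right_cancel₀ hz h
  have h2 : 2 * q + 1 = 0 := by linear_combination hq + h1
  have h3 : (3 : ℂ) = 0 := by linear_combination 4 * hq - (2 * q + 1) * h2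
  norm_num at h3

/-- the nodes -/
def EqS_nd (q : ℂ) (kt m : ℕ) (a z : ℕ → ℂ) : Fin kt ⊕ (Fin (m + 1) ⊕ Fin (m + 1)) → ℂ :=
  Sum.elim (fun i => q ^ 2 * a i) (Sum.elim (fun j => q * z j) (fun j => q ^ 2 * z j))

theorem EqS_inj {q : ℂ} (hq : q ^ 2 + q + 1 = 0) {kb kt m : ℕ} {c a z : ℕ → ℂ}
    (hG : Gn kb (kt + 1) (m + 1) c a z) : Function.Injective (EqS_nd q kt m a z) := by
  have h3 := EqS_cube hq
  have h6 : (q ^ 2) ^ 3 = 1 := by linear_combination (q ^ 3 + 1) * h3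
  have c1 : ∀ x : ℂ, (q * x) ^ 3 = x ^ 3 := fun x => by rw [mul_pow, h3, one_mul]
  have c2 : ∀ x : ℂ, (q ^ 2 * x) ^ 3 = x ^ 3 := fun x => by rw [mul_pow, h6, one_mul]
  have zz : ∀ j l : Fin (m + 1), z j ^ 3 = z l ^ 3 → j = l := by
    intro j l hjl
    by_contra hne
    exact gn_zz hG j.2 l.2 (fun e => hne (Fin.ext e)) hjl
  have az : ∀ (i : Fin kt) (j : Fin (m + 1)), a i ^ 3 ≠ z j ^ 3 := fun i j =>
    gn_az hG (by have := i.2; omega) j.2
  intro x y hxy
  have hcu : EqS_nd q kt m a z x ^ 3 = EqS_nd q kt m a z y ^ 3 := by rw [hxy]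
  rcases x with i | j | j <;> rcases y with i' | j' | j' <;>
    simp only [EqS_nd, Sum.elim_inl, Sum.elim_inr, c1, c2] at hxy hcu
  · congr 1
    by_contra hne
    exact gn_aa hG (by have := i.2; omega) (by have := i'.2; omega) (fun e => hne (Fin.ext e)) hcu
  · exact absurd hcu (az i j')
  · exact absurd hcu (az i j')
  · exact absurd hcu.symm (az i' j)
  · rw [zz _ _ hcu]
  · rw [zz _ _ hcu] at hxy
    exact absurd hxy (EqS_ne hq (gn_z hG j'.2))
  · exact absurd hcu.symm (az i' j)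
  · rw [zz _ _ hcu] at hxy
    exact absurd hxy.symm (EqS_ne hq (gn_z hG j'.2))
  · rw [zz _ _ hcu]

section

variable {q : ℂ} (hq : q ^ 2 + q + 1 = 0) {Lb Lt kb kt m : ℕ} (h : LOk Lb Lt (kb + 1) kt) (hE' : Even Lt) (hm : kt + m = Lt)
  {Pb : Pat Lb → MvPolynomial ℕ ℂ} {P : Pat (Lt + 2) → MvPolynomial ℕ ℂ} {P' : Pat Lt → MvPolynomial ℕ ℂ}
  (hPb : IsPsi (q ^ 2) Lb Pb) (hP : IsPsi q (Lt + 2) P) (hP' : IsPsi q Lt P') (h3 : kb + kt = 3)
  (hc : q ^ (2 * kb) = q ^ kt) (hc' : (1 - q ^ 2) * (-q) ^ kb = (-q ^ 2) ^ kt * (q ^ 2 * (1 - q)))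
  (IH : ∀ c a z, Gn (kb + 1) kt m c a z → EQ q (kb + 1) kt m Pb P' c a z)
include hq h hE' hm hPb hP hP' h3 hc hc' IH

theorem step (c a z : ℕ → ℂ) (hG : Gn kb (kt + 1) (m + 1) c a z) : EQ q kb (kt + 1) (m + 1) Pb P c a z := by
  obtain ⟨p, hdeg, hp⟩ := EQ_poly hm hP h3 (Pb := Pb) c a z
  have hroot : ∀ b : ℂ, EQ q kb (kt + 1) (m + 1) Pb P c (Function.update a kt b) z → p.eval b = 0 := by
    intro b hb
    rw [← hp b, sub_eq_zero]
    exact hb
  have hG' := gn_init hG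
  have hz : ∀ x, p.eval (EqS_nd q kt m a z x) = 0 := by
    intro x
    apply hroot
    rcases x with i | j | j
    · have hi : (i : ℕ) ≠ kt := i.2.ne
      have e1 : Function.update a kt (EqS_nd q kt m a z (Sum.inl i)) i = a i :=
        Function.update_of_ne hi _ _
      have e2 : Function.update a kt (EqS_nd q kt m a z (Sum.inl i)) kt = q ^ 2 * a i :=
        Function.update_self _ _ _
      refine EQ_zero hq hP (by omega) (i := i) i.2 ?_ ?_ ?_
      · rw [e1, e2, F_eq_zero_iff hq]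
      · intro j hj hji
        rw [e1, Function.update_of_ne hj.ne]
        exact gn_aa hG (by omega) (by have := i.2; omega) hji
      · rw [e1]
        exact gn_a hG (by have := i.2; omega)
    · exact node_right hq h hE' hm hPb hP hP' h3 hc hc' IH (Nat.lt_succ_iff.1 j.2) hG' _ rfl
    · exact node_left hq h hE' hm hPb hP hP' h3 hc hc' IH (Nat.lt_succ_iff.1 j.2) hG' _ rfl
  have h0 : p = 0 := by
    refine Polynomial.eq_zero_of_natDegree_lt_card_of_eval_eq_zero p (EqS_inj hq hG) hz ?_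
    rw [Fintype.card_sum, Fintype.card_sum, Fintype.card_fin, Fintype.card_fin]
    omega
  have h1 := hp (a kt)
  rw [Function.update_eq_self, h0, Polynomial.eval_zero, sub_eq_zero] at h1
  exact h1

end

end Q4
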