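import Pool.Agent.Lib.MP_216314_pr.Z.FusD
import Pool.Agent.Lib.MP_216314_pr.Z.EDef

/-!
# Fusion at an arbitrary position and at the seam

`cyc_insP_succ`: case distinction on `k` (`k < p`, `k = p`, `p + 1`, `p + 2 ≤ k ≤ L`, `k = L + 1`, `k > L + 1`), `omega`.
`fusion_at`: induction on `p`; the case `0` is `fusion`. Step: `R (ev P (insP (p+1) a (q²a) y)) = ev P (cyc (L+2) (insP (p+1) a (q²a) y)) = ev P (insP p a (q²a) (cyc L y)) =
Kf q L a (cyc L y) • I p (ev P' (cyc L y)) = Kf q L a y • I p (R (ev P' y)) = R (Kf q L a y • I (p+1) (ev P' y))` (`hP.rot`, `Kf_cyc`, `hP'.rot`, `R_I`); `R` is injective (`RI_R`).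
`fusion_seam`: `hP.rot`, `fusion`, `R_I_zero`.
`ev_congr`: `(hP.vars α)`: `MvPolynomial.eval₂Hom_congr'` / `MvPolynomial.eval_eq'` or `MvPolynomial.hom_congr_vars`.
`ev_update`: `P β` as a polynomial in the variable `j`: `MvPolynomial.eval (Function.update z j b) (P β) = ∑ m ∈ support, coeff m * b^(m j) * ∏_{i ∈ m.support \ {j}} z i^(m i)`; take
`p = ∑ m ∈ support, C (coeff m * ∏_{i ∈ m.support.erase j} z i ^ m i) * X ^ (m j)`, all degrees `m j ≤ L - 1` (`hP.deg`).
-/

set_option autoImplicit false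

noncomputable section

namespace CY

open Finset

theorem cyc_insP_succ {L p : ℕ} (hp : p + 1 ≤ L) (a b : ℂ) (y : ℕ → ℂ) :
    cyc (L + 2) (insP (p + 1) a b y) = insP p a b (cyc L y) := by
  funext k
  unfold cyc insP
  beta_reduce
  split_ifs <;> first | rfl | (exfalso; omega) | (congr 1; omega)

theorem ev_congr {q : ℂ} {L : ℕ} {P : Pat L → MvPolynomial ℕ ℂ} (hP : IsPsi q L P) {z z' : ℕ → ℂ}
    (h : ∀ k, k < L → z k = z' k) : ev P z = ev P z' := by
  funext α
  show MvPolynomial.eval z (P α) = MvPolynomial.eval z' (P α)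
  refine MvPolynomial.hom_congr_vars ?_ ?_ rfl
  · ext x
    simp
  · intro i hi _
    rw [MvPolynomial.eval_X, MvPolynomial.eval_X]
    exact h i (hP.vars α hi)

/-- a component as a polynomial in one of the variables -/
theorem ev_update {q : ℂ} {L : ℕ} {P : Pat L → MvPolynomial ℕ ℂ} (hP : IsPsi q L P) (β : Pat L) (z : ℕ → ℂ) (j : ℕ) :
    ∃ p : Polynomial ℂ, p.natDegree ≤ L - 1 ∧ ∀ b : ℂ, ev P (Function.update z j b) β = p.eval b := by
  refine ⟨∑ m ∈ (P β).support, Polynomial.C (MvPolynomial.coeff m (P β) *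
    ∏ i ∈ m.support.erase j, z i ^ m i) * Polynomial.X ^ m j, ?_, ?_⟩
  · refine Polynomial.natDegree_sum_le_of_forall_le _ _ fun m hm => ?_
    exact (Polynomial.natDegree_C_mul_X_pow_le _ _).trans (hP.deg β m hm j)
  · intro b
    show MvPolynomial.eval (Function.update z j b) (P β) = _
    rw [MvPolynomial.eval_eq, Polynomial.eval_finsetSum]
    refine Finset.sum_congr rfl fun m _ => ?_
    rw [Polynomial.eval_mul, Polynomial.eval_C, Polynomial.eval_pow, Polynomial.eval_X, mul_assoc]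
    congr 1
    by_cases hj : j ∈ m.support
    · rw [← Finset.mul_prod_erase _ _ hj, Function.update_self, mul_comm]
      congr 1
      refine Finset.prod_congr rfl fun i hi => ?_
      rw [Function.update_of_ne (Finset.ne_of_mem_erase hi)]
    · rw [Finset.erase_eq_of_notMem hj, Finsupp.notMem_support_iff.1 hj, pow_zero, mul_one]
      refine Finset.prod_congr rfl fun i hi => ?_
      rw [Function.update_of_ne]
      rintro rfl
      exact hj hi

section

variable {q : ℂ} (hq : q ^ 2 + q + 1 = 0) {L : ℕ} (hL : 0 < L) (hE : Even L)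
  {P : Pat (L + 2) → MvPolynomial ℕ ℂ} (hP : IsPsi q (L + 2) P)
  {P' : Pat L → MvPolynomial ℕ ℂ} (hP' : IsPsi q L P')
include hq hL hE hP hP'

/-- fusion at the position `p` -/
theorem fusion_at {p : ℕ} (hp : p ≤ L) (a : ℂ) (y : ℕ → ℂ) :
    ev P (insP p a (q ^ 2 * a) y) = Kf q L a y • I (p : ℤ) (ev P' y) := by
  induction p generalizing y with
  | zero =>
    rw [fusion hq hL hE hP hP' a y, Nat.cast_zero]
  | succ p ih =>
    have h1 : R (ev P (insP (p + 1) a (q ^ 2 * a) y)) =
        R (Kf q L a y • I ((p + 1 : ℕ) : ℤ) (ev P' y)) := by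
      have h3 : ((p + 1 : ℕ) : ℤ) - 1 = (p : ℤ) := by
        push_cast
        ring
      rw [← hP.rot, cyc_insP_succ hp, ih (by omega) (cyc L y), Kf_cyc, hP'.rot, map_smul, R_I, h3]
    have h2 := congrArg RI h1
    rwa [RI_R, RI_R] at h2

/-- fusion at the seam -/
theorem fusion_seam (a : ℂ) (y : ℕ → ℂ) :
    ev P (cyc (L + 2) (insP 0 a (q ^ 2 * a) y)) = Kf q L a y • IS (ev P' y) := by
  rw [hP.rot, fusion hq hL hE hP hP' a y, map_smul, R_I_zero]

end

end CY
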