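import Mathlib

/-!
# Complete homogeneous functions and divided differences

`hh x k i = h_{k-i}(x_0, .., x_i)`. `DD x i f` is the divided difference of the polynomial `f` at `x_0, .., x_i`.

`hh_swap`, `hh_swap_self` together by induction on `k` (with `x' = sw`): `k = 0` trivial; `k + 1`, `j ≠ i, i+1`: the index `j - 1 ≠ i`; `j = i + 1`:
`x i * hh x k (i+1) + (hh x k i + (x (i+1) - x i) * hh x k (i+1))`; `j = i`: ring.
`hh_shift`: `hh x (k+1) (i+1) - x 0 * hh x k (i+1) = hh (x ∘ succ) k i` by induction on `k` for all `i`.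
`hh_one`: Pascal. `hh_zero`: `hh x k i = 0` for `k < i`, `hh x i i = 1`.
`DD`-lemmas: linearity of `Polynomial.sum` (`Polynomial.sum_over_range`, or define the linear map), then `Polynomial.induction_on'` (additive + monomials).
-/

set_option autoImplicit false

noncomputable section

namespace Q4

open Finset Polynomial

def hh (x : ℕ → ℂ) : ℕ → ℕ → ℂ
  | 0, i => if i = 0 then 1 else 0
  | k + 1, 0 => x 0 * hh x k 0
  | k + 1, i + 1 => x (i + 1) * hh x k (i + 1) + hh x k i

/-- exchange of the entries `i`, `i+1` -/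
def swp (i : ℕ) (x : ℕ → ℂ) : ℕ → ℂ := fun k => x (Equiv.swap i (i + 1) k)

theorem HhA_zero_zero (x : ℕ → ℂ) : hh x 0 0 = 1 := rfl

theorem HhA_zero_succ (x : ℕ → ℂ) (i : ℕ) : hh x 0 (i + 1) = 0 := rfl

theorem HhA_succ_zero (x : ℕ → ℂ) (k : ℕ) : hh x (k + 1) 0 = x 0 * hh x k 0 := rfl

theorem HhA_succ_succ (x : ℕ → ℂ) (k i : ℕ) : hh x (k + 1) (i + 1) = x (i + 1) * hh x k (i + 1) + hh x k i := rfl

theorem HhA_left (i : ℕ) (x : ℕ → ℂ) : swp i x i = x (i + 1) := by
  unfold swp
  rw [Equiv.swap_apply_left]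

theorem HhA_right (i : ℕ) (x : ℕ → ℂ) : swp i x (i + 1) = x i := by
  unfold swp
  rw [Equiv.swap_apply_right]

theorem HhA_of_ne (i : ℕ) (x : ℕ → ℂ) {k : ℕ} (h1 : k ≠ i) (h2 : k ≠ i + 1) : swp i x k = x k := by
  unfold swp
  rw [Equiv.swap_apply_of_ne_of_ne h1 h2]

theorem HhA_both (x : ℕ → ℂ) (i k : ℕ) : (∀ j, j ≠ i → hh (swp i x) k j = hh x k j) ∧
    hh (swp i x) k i = hh x k i + (x (i + 1) - x i) * hh x k (i + 1) := by
  induction k with
  | zero =>
    refine ⟨fun j _ => rfl, ?_⟩
    rw [HhA_zero_succ, mul_zero, add_zero]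
    rfl
  | succ k ih =>
    obtain ⟨ih1, ih2⟩ := ih
    constructor
    · intro j hj
      cases j with
      | zero =>
        rw [HhA_succ_zero, HhA_succ_zero, ih1 0 hj, HhA_of_ne i x hj (by omega)]
      | succ j =>
        rw [HhA_succ_succ, HhA_succ_succ, ih1 (j + 1) hj]
        rcases eq_or_ne j i with h | h
        · subst h
          rw [HhA_right, ih2]
          ring
        · rw [HhA_of_ne i x hj (by omega), ih1 j h]
    · cases i with
      | zero =>
        rw [HhA_succ_zero, HhA_succ_zero, HhA_succ_succ, HhA_left, ih2]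
        ring
      | succ i =>
        rw [HhA_succ_succ, HhA_succ_succ, HhA_succ_succ, HhA_left, ih2, ih1 i (by omega)]
        ring

theorem hh_swap (x : ℕ → ℂ) (i k j : ℕ) (hj : j ≠ i) : hh (swp i x) k j = hh x k j :=
  (HhA_both x i k).1 j hj

theorem hh_swap_self (x : ℕ → ℂ) (i k : ℕ) :
    hh (swp i x) k i = hh x k i + (x (i + 1) - x i) * hh x k (i + 1) :=
  (HhA_both x i k).2

theorem hh_shift (x : ℕ → ℂ) (k i : ℕ) :
    hh x (k + 1) (i + 1) - x 0 * hh x k (i + 1) = hh (fun l => x (l + 1)) k i := by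
  induction k generalizing i with
  | zero =>
    rw [HhA_succ_succ, HhA_zero_succ, mul_zero, zero_add, mul_zero, sub_zero]
    rfl
  | succ k ih =>
    cases i with
    | zero =>
      rw [HhA_succ_zero, ← ih 0, HhA_succ_succ x (k + 1) 0, HhA_succ_zero]
      have e := HhA_succ_succ x k 0
      rw [zero_add] at e ⊢
      linear_combination (-x 0) * e
    | succ i =>
      rw [HhA_succ_succ (fun l => x (l + 1)) k i, ← ih (i + 1), ← ih i]
      have e1 := HhA_succ_succ x (k + 1) (i + 1)
      have e2 := HhA_succ_succ x k (i + 1)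
      linear_combination e1 - x 0 * e2

theorem hh_zero (x : ℕ → ℂ) (k i : ℕ) (h : k < i) : hh x k i = 0 := by
  induction k generalizing i with
  | zero =>
    obtain ⟨j, rfl⟩ : ∃ j, i = j + 1 := ⟨i - 1, by omega⟩
    rfl
  | succ k ih =>
    obtain ⟨j, rfl⟩ : ∃ j, i = j + 1 := ⟨i - 1, by omega⟩
    rw [HhA_succ_succ, ih (j + 1) (by omega), ih j (by omega), mul_zero, add_zero]

theorem hh_self (x : ℕ → ℂ) (i : ℕ) : hh x i i = 1 := by
  induction i with
  | zero => rfl
  | succ i ih => rw [HhA_succ_succ, ih, hh_zero x i (i + 1) (by omega), mul_zero, zero_add]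

theorem hh_one (k i : ℕ) : hh (fun _ => 1) k i = (k.choose i : ℂ) := by
  induction k generalizing i with
  | zero =>
    cases i with
    | zero => rw [HhA_zero_zero]; simp
    | succ i => rw [HhA_zero_succ]; simp
  | succ k ih =>
    cases i with
    | zero =>
      rw [HhA_succ_zero, ih]
      simp
    | succ i =>
      rw [HhA_succ_succ, ih, ih, Nat.choose_succ_succ]
      push_cast
      ring

theorem hh_congr {x y : ℕ → ℂ} {i : ℕ} (h : ∀ l, l ≤ i → x l = y l) (k : ℕ) : hh x k i = hh y k i := by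
  induction k generalizing i with
  | zero => cases i <;> rfl
  | succ k ih =>
    cases i with
    | zero => rw [HhA_succ_zero, HhA_succ_zero, h 0 le_rfl, ih h]
    | succ i => rw [HhA_succ_succ, HhA_succ_succ, h (i + 1) le_rfl, ih h, ih fun l hl => h l (by omega)]

/-- `hh` as a polynomial in the last entry -/
theorem hh_update (x : ℕ → ℂ) (k i : ℕ) :
    ∃ p : ℂ[X], p.natDegree ≤ k - i ∧ ∀ b : ℂ, hh (Function.update x i b) k i = p.eval b := by
  induction k generalizing i with
  | zero =>
    refine ⟨C (hh x 0 i), by simp, fun b => ?_⟩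
    rw [eval_C]
    cases i <;> rfl
  | succ k ih =>
    cases i with
    | zero =>
      obtain ⟨p, hp, hb⟩ := ih 0
      refine ⟨X * p, ?_, fun b => ?_⟩
      · refine natDegree_mul_le.trans ?_
        have := natDegree_X_le (R := ℂ)
        omega
      · rw [HhA_succ_zero, hb, eval_mul, eval_X, Function.update_self]
    | succ i =>
      have hc : ∀ b : ℂ, hh (Function.update x (i + 1) b) k i = hh x k i := fun b =>
        hh_congr (fun l hl => Function.update_of_ne (by omega) _ _) k
      rcases Nat.lt_or_ge k (i + 1) with h | h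
      · refine ⟨C (hh x k i), by simp, fun b => ?_⟩
        rw [HhA_succ_succ, hh_zero _ k (i + 1) h, mul_zero, zero_add, eval_C, hc]
      · obtain ⟨p, hp, hb⟩ := ih (i + 1)
        refine ⟨X * p + C (hh x k i), ?_, fun b => ?_⟩
        · refine (natDegree_add_le _ _).trans (max_le ?_ (by simp))
          refine natDegree_mul_le.trans ?_
          have := natDegree_X_le (R := ℂ)
          omega
        · rw [HhA_succ_succ, hb, eval_add, eval_mul, eval_X, eval_C, Function.update_self, hc]

end Q4
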