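import Pool.Agent.Lib.MP_216314_pr.Q4.HhA

/-!
# Divided differences

`DD x i f = f.sum (fun k c => c * hh x k i)` is the divided difference of the polynomial `f` at `x_0, .., x_i`. Additivity: `Polynomial.sum_add_index`; monomials: `Polynomial.sum_monomial_index`; then all other statements by
`Polynomial.induction_on'` (additive + monomials `C a * X ^ n`) from the statements on `hh`. `DD_root`: `(X - C x₀) X^k = X^(k+1) - x₀ X^k`, `hh_shift`. `DD_root_zero`: `hh x (k+1) 0 = x 0 * hh x k 0`.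
`DD_lin`: `DD_X_mul`, `DD_X_mul_zero`. `DD_update`: `f = ∑ k ∈ range (d+1), coeff k X^k`, `hh_update`.
-/

set_option autoImplicit false

noncomputable section

namespace Q4

open Finset Polynomial

/-- divided difference -/
def DD (x : ℕ → ℂ) (i : ℕ) (f : ℂ[X]) : ℂ := f.sum fun k c => c * hh x k i

/-- the linear form -/
def HhB_l (x : ℕ → ℂ) (i : ℕ) : ℂ[X] →ₗ[ℂ] ℂ :=
  Polynomial.lsum fun k => (LinearMap.id : ℂ →ₗ[ℂ] ℂ).smulRight (hh x k i)

theorem HhB_eq (x : ℕ → ℂ) (i : ℕ) (f : ℂ[X]) : DD x i f = HhB_l x i f := rfl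

theorem DD_add (x : ℕ → ℂ) (i : ℕ) (f g : ℂ[X]) : DD x i (f + g) = DD x i f + DD x i g := by
  rw [HhB_eq, HhB_eq, HhB_eq, map_add]

theorem DD_C_mul (x : ℕ → ℂ) (i : ℕ) (c : ℂ) (f : ℂ[X]) : DD x i (C c * f) = c * DD x i f := by
  rw [HhB_eq, HhB_eq, ← smul_eq_C_mul, map_smul, smul_eq_mul]

theorem DD_sub (x : ℕ → ℂ) (i : ℕ) (f g : ℂ[X]) : DD x i (f - g) = DD x i f - DD x i g := by
  rw [HhB_eq, HhB_eq, HhB_eq, map_sub]

theorem DD_sum {ι : Type*} (x : ℕ → ℂ) (i : ℕ) (s : Finset ι) (f : ι → ℂ[X]) :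
    DD x i (∑ j ∈ s, f j) = ∑ j ∈ s, DD x i (f j) := by
  rw [HhB_eq, map_sum]
  rfl

theorem DD_X_pow (x : ℕ → ℂ) (i k : ℕ) : DD x i (X ^ k) = hh x k i := by
  unfold DD
  rw [X_pow_eq_monomial, sum_monomial_index (1 : ℂ) _ (zero_mul _), one_mul]

theorem HhB_ext {A B : ℂ[X] → ℂ} (hA : ∀ f g, A (f + g) = A f + A g) (hB : ∀ f g, B (f + g) = B f + B g)
    (cA : ∀ c f, A (C c * f) = c * A f) (cB : ∀ c f, B (C c * f) = c * B f)
    (h : ∀ n : ℕ, A (X ^ n) = B (X ^ n)) (f : ℂ[X]) : A f = B f := by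
  induction f using Polynomial.induction_on' with
  | add p q hp hq => rw [hA, hB, hp, hq]
  | monomial n a => rw [← C_mul_X_pow_eq_monomial, cA, cB, h]

theorem DD_one (x : ℕ → ℂ) (i : ℕ) : DD x i 1 = if i = 0 then 1 else 0 := by
  have h := DD_X_pow x i 0
  rw [pow_zero] at h
  rw [h]
  rfl

theorem DD_X_mul_zero (x : ℕ → ℂ) (f : ℂ[X]) : DD x 0 (X * f) = x 0 * DD x 0 f := by
  refine HhB_ext (A := fun f => DD x 0 (X * f)) (B := fun f => x 0 * DD x 0 f) ?_ ?_ ?_ ?_ ?_ f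
  · intro f g
    simp only [mul_add, DD_add]
  · intro f g
    simp only [mul_add, DD_add]
  · intro c f
    simp only [mul_left_comm X (C c), DD_C_mul]
  · intro c f
    simp only [DD_C_mul]
    ring
  · intro n
    simp only [← pow_succ', DD_X_pow]
    exact HhA_succ_zero x n

theorem DD_X_mul (x : ℕ → ℂ) (i : ℕ) (f : ℂ[X]) : DD x (i + 1) (X * f) = x (i + 1) * DD x (i + 1) f + DD x i f := by
  refine HhB_ext (A := fun f => DD x (i + 1) (X * f)) (B := fun f => x (i + 1) * DD x (i + 1) f + DD x i f)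
    ?_ ?_ ?_ ?_ ?_ f
  · intro f g
    simp only [mul_add, DD_add]
  · intro f g
    simp only [DD_add]
    ring
  · intro c f
    simp only [mul_left_comm X (C c), DD_C_mul]
  · intro c f
    simp only [DD_C_mul]
    ring
  · intro n
    simp only [← pow_succ', DD_X_pow]
    exact HhA_succ_succ x n i

theorem DD_swap (x : ℕ → ℂ) (i j : ℕ) (hj : j ≠ i) (f : ℂ[X]) : DD (swp i x) j f = DD x j f := by
  refine HhB_ext (A := fun f => DD (swp i x) j f) (B := fun f => DD x j f) ?_ ?_ ?_ ?_ ?_ f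
  · intro f g
    exact DD_add _ _ f g
  · intro f g
    exact DD_add _ _ f g
  · intro c f
    exact DD_C_mul _ _ c f
  · intro c f
    exact DD_C_mul _ _ c f
  · intro n
    simp only [DD_X_pow]
    exact hh_swap x i n j hj

theorem DD_swap_self (x : ℕ → ℂ) (i : ℕ) (f : ℂ[X]) :
    DD (swp i x) i f = DD x i f + (x (i + 1) - x i) * DD x (i + 1) f := by
  refine HhB_ext (A := fun f => DD (swp i x) i f) (B := fun f => DD x i f + (x (i + 1) - x i) * DD x (i + 1) f)
    ?_ ?_ ?_ ?_ ?_ f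
  · intro f g
    exact DD_add _ _ f g
  · intro f g
    simp only [DD_add]
    ring
  · intro c f
    exact DD_C_mul _ _ c f
  · intro c f
    simp only [DD_C_mul]
    ring
  · intro n
    simp only [DD_X_pow]
    exact hh_swap_self x i n

/-- `f ↦ (X - x_0) f` -/
theorem DD_root (x : ℕ → ℂ) (i : ℕ) (f : ℂ[X]) :
    DD x (i + 1) ((X - C (x 0)) * f) = DD (fun l => x (l + 1)) i f := by
  refine HhB_ext (A := fun f => DD x (i + 1) ((X - C (x 0)) * f)) (B := fun f => DD (fun l => x (l + 1)) i f)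
    ?_ ?_ ?_ ?_ ?_ f
  · intro f g
    simp only [mul_add, DD_add]
  · intro f g
    exact DD_add _ _ f g
  · intro c f
    simp only [mul_left_comm _ (C c), DD_C_mul]
  · intro c f
    exact DD_C_mul _ _ c f
  · intro n
    simp only [sub_mul, ← pow_succ', DD_sub, DD_C_mul, DD_X_pow]
    exact hh_shift x n i

theorem DD_root_zero (x : ℕ → ℂ) (f : ℂ[X]) : DD x 0 ((X - C (x 0)) * f) = 0 := by
  rw [sub_mul, DD_sub, DD_C_mul, DD_X_mul_zero, sub_self]

theorem DD_lin (x : ℕ → ℂ) (i : ℕ) (s : ℂ) (f : ℂ[X]) :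
    DD x i ((X - C s) * f) = (x i - s) * DD x i f + (if i = 0 then 0 else DD x (i - 1) f) := by
  rw [sub_mul, DD_sub, DD_C_mul]
  cases i with
  | zero =>
    rw [DD_X_mul_zero, if_pos rfl]
    ring
  | succ i =>
    rw [DD_X_mul, if_neg (Nat.succ_ne_zero i), Nat.add_sub_cancel]
    ring

theorem DD_congr {x y : ℕ → ℂ} {i : ℕ} (h : ∀ l, l ≤ i → x l = y l) (f : ℂ[X]) : DD x i f = DD y i f := by
  unfold DD
  congr 1
  funext k c
  rw [hh_congr h k]

/-- `DD` as a polynomial in the last entry -/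
theorem DD_update (x : ℕ → ℂ) (i : ℕ) (f : ℂ[X]) {d : ℕ} (hd : f.natDegree ≤ d) :
    ∃ p : ℂ[X], p.natDegree ≤ d - i ∧ ∀ b : ℂ, DD (Function.update x i b) i f = p.eval b := by
  choose p hp hb using fun k => hh_update x k i
  refine ⟨∑ k ∈ range (d + 1), C (f.coeff k) * p k, ?_, fun b => ?_⟩
  · refine natDegree_sum_le_of_forall_le _ _ fun k hk => ?_
    refine (natDegree_C_mul_le _ _).trans ((hp k).trans ?_)
    have := Finset.mem_range.1 hk
    omega
  · rw [eval_finsetSum]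
    have e : f = ∑ k ∈ range (d + 1), C (f.coeff k) * X ^ k := by
      exact as_sum_range_C_mul_X_pow' f (Nat.lt_succ_of_le hd)
    conv_lhs => rw [e]
    rw [DD_sum]
    refine Finset.sum_congr rfl fun k _ => ?_
    rw [DD_C_mul, DD_X_pow, hb, eval_mul, eval_C]

end Q4
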