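import Pool.Agent.Lib.MP_216314_pr.Q4.EqM

/-!
# The homogeneous limit

Points `c ε i = 1 + ε (i+1)`, `a ε i = 1 + ε (i + 1 + 2)`.. : give the `2 + 2 + 2n` entries different values `1 + ε t` with different natural numbers `t ≥ 1`: for small `ε > 0` (all `ε > 0`) the entries are real and positive and
different, so the cubes are different: `Gn` holds. `four` at these points; let `ε → 0` (`𝓝[>] 0`): both sides are continuous in `ε`: `NN` is a finite sum of products of values of polynomials (`MvPolynomial.continuous_eval` after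
`continuous_pi`), `F` is continuous, and `Phi_cont`: the entries `DD (x ε) i (GG m (z ε) j)` of the determinant are continuous: if `x`, `f` are such that `ε ↦ DD (x ε) i (f ε)` is continuous for all `i`, then so is
`ε ↦ DD (x ε) i (X * f ε)` (`DD_X_mul`, `DD_X_mul_zero`); `X³ - C c` times `f`: three times `X` minus `DD_C_mul`; induction on `m`. (`Continuous.matrix_det`.)
Value at `ε = 0`: `F q 1 1 * F (q²) 1 1 = (q - q²)(q² - q^4) = 3`.
-/

set_option autoImplicit false

noncomputable section

namespace Q4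

open Finset CY

private theorem Hom4_X {x : ℝ → ℕ → ℂ} (hx : ∀ i, Continuous fun t => x t i) {f : ℝ → Polynomial ℂ}
    (hf : ∀ i, Continuous fun t => DD (x t) i (f t)) (i : ℕ) :
    Continuous fun t => DD (x t) i (Polynomial.X * f t) := by
  cases i with
  | zero =>
    have e : (fun t => DD (x t) 0 (Polynomial.X * f t)) = fun t => x t 0 * DD (x t) 0 (f t) :=
      funext fun t => DD_X_mul_zero (x t) (f t)
    rw [e]
    exact (hx 0).mul (hf 0)
  | succ i =>
    have e : (fun t => DD (x t) (i + 1) (Polynomial.X * f t)) =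
        fun t => x t (i + 1) * DD (x t) (i + 1) (f t) + DD (x t) i (f t) :=
      funext fun t => DD_X_mul (x t) i (f t)
    rw [e]
    exact ((hx (i + 1)).mul (hf (i + 1))).add (hf i)

private theorem Hom4_one {x : ℝ → ℕ → ℂ} (i : ℕ) : Continuous fun t => DD (x t) i (1 : Polynomial ℂ) := by
  have e : (fun t => DD (x t) i (1 : Polynomial ℂ)) = fun _ => if i = 0 then 1 else 0 :=
    funext fun t => DD_one (x t) i
  rw [e]
  exact continuous_const

private theorem Hom4_pow {x : ℝ → ℕ → ℂ} (hx : ∀ i, Continuous fun t => x t i) (k : ℕ) (i : ℕ) :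
    Continuous fun t => DD (x t) i (Polynomial.X ^ k : Polynomial ℂ) := by
  induction k generalizing i with
  | zero =>
    rw [pow_zero]
    exact Hom4_one i
  | succ k ih =>
    rw [pow_succ']
    exact Hom4_X hx ih i

private theorem Hom4_cub {x : ℝ → ℕ → ℂ} (hx : ∀ i, Continuous fun t => x t i) {f : ℝ → Polynomial ℂ}
    (hf : ∀ i, Continuous fun t => DD (x t) i (f t)) {c : ℝ → ℂ} (hc : Continuous c) (i : ℕ) :
    Continuous fun t => DD (x t) i ((Polynomial.X ^ 3 - Polynomial.C (c t)) * f t) := by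
  have e : (fun t => DD (x t) i ((Polynomial.X ^ 3 - Polynomial.C (c t)) * f t)) =
      fun t => DD (x t) i (Polynomial.X * (Polynomial.X * (Polynomial.X * f t))) - c t * DD (x t) i (f t) := by
    funext t
    rw [← DD_C_mul, ← DD_sub]
    congr 1
    ring
  rw [e]
  exact (Hom4_X hx (Hom4_X hx (Hom4_X hx hf)) i).sub (hc.mul (hf i))

private theorem Hom4_pre {x : ℝ → ℕ → ℂ} {u v : Polynomial ℂ} {g : ℝ → ℕ → Polynomial ℂ}
    (hu : ∀ i, Continuous fun t => DD (x t) i u) (hv : ∀ i, Continuous fun t => DD (x t) i v)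
    (hg : ∀ j i, Continuous fun t => DD (x t) i (g t j)) (i j : ℕ) :
    Continuous fun t => DD (x t) i (pre u v (g t) j) := by
  unfold pre
  by_cases h0 : j = 0
  · simp only [if_pos h0]
    exact hu i
  · by_cases h1 : j = 1
    · simp only [if_neg h0, if_pos h1]
      exact hv i
    · simp only [if_neg h0, if_neg h1]
      exact hg (j - 2) i

theorem DD_cont (m : ℕ) {x : ℝ → ℕ → ℂ} {z : ℝ → ℕ → ℂ} (hx : ∀ i, Continuous fun t => x t i) (hz : ∀ i, Continuous fun t => z t i)
    (i j : ℕ) : Continuous fun t => DD (x t) i (GG m (z t) j) := by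
  have hX : ∀ i, Continuous fun t => DD (x t) i (Polynomial.X : Polynomial ℂ) := by
    intro i
    have h := Hom4_pow hx 1 i
    rw [pow_one] at h
    exact h
  induction m generalizing z i j with
  | zero =>
    have e : (fun t => DD (x t) i (GG 0 (z t) j)) = fun t => DD (x t) i
        (pre Polynomial.X (Polynomial.X ^ 2) ((fun _ => fun j => if j = 0 then 1 else Polynomial.X ^ 3 :
          ℝ → ℕ → Polynomial ℂ) t) j) := rfl
    rw [e]
    refine Hom4_pre hX (Hom4_pow hx 2) (fun j i => ?_) i j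
    by_cases h0 : j = 0
    · simp only [if_pos h0]
      exact Hom4_one i
    · simp only [if_neg h0]
      exact Hom4_pow hx 3 i
  | succ m ih =>
    have e : (fun t => DD (x t) i (GG (m + 1) (z t) j)) = fun t => DD (x t) i
        (pre Polynomial.X (Polynomial.X ^ 2) ((fun t => fun j =>
          (Polynomial.X ^ 3 - Polynomial.C (z t 0 ^ 3)) * GG m (fun i => z t (i + 1)) j :
          ℝ → ℕ → Polynomial ℂ) t) j) := rfl
    rw [e]
    refine Hom4_pre hX (Hom4_pow hx 2) (fun j i => ?_) i j
    exact Hom4_cub hx (fun i => ih (fun i => hz (i + 1)) i j) ((hz 0).pow 3) i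

/-- the points -/
private def Hom4_w (t : ℝ) (i : ℕ) : ℂ := ((1 + t * ((i : ℝ) + 1) : ℝ) : ℂ)

private theorem Hom4_w_cont (i : ℕ) : Continuous fun t => Hom4_w t i := by
  unfold Hom4_w
  exact Complex.continuous_ofReal.comp (continuous_const.add (continuous_id.mul continuous_const))

private theorem Hom4_w_zero (i : ℕ) : Hom4_w 0 i = 1 := by
  unfold Hom4_w
  simp

private theorem Hom4_list (f : ℕ → ℂ) (k : ℕ) (l : List ℂ) (i : ℕ) :
    ((List.range k).map f ++ l).getD i 0 = if i < k then f i else l.getD (i - k) 0 := by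
  split_ifs with h
  · rw [List.getD_append _ _ _ _ (by rw [List.length_map, List.length_range]; exact h),
      List.getD_eq_getElem _ _ (by rw [List.length_map, List.length_range]; exact h), List.getElem_map,
      List.getElem_range]
  · rw [List.getD_append_right _ _ _ _ (by rw [List.length_map, List.length_range]; omega),
      List.length_map, List.length_range]

private theorem Hom4_list_cont {f : ℝ → ℕ → ℂ} {l : ℝ → List ℂ} (k : ℕ) (hf : ∀ i, Continuous fun t => f t i)
    (hl : ∀ i, Continuous fun t => (l t).getD i 0) (i : ℕ) :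
    Continuous fun t => ((List.range k).map (f t) ++ l t).getD i 0 := by
  simp only [Hom4_list]
  by_cases h : i < k
  · simp only [if_pos h]
    exact hf i
  · simp only [if_neg h]
    exact hl (i - k)

private theorem Hom4_gl (n : ℕ) (t : ℝ) :
    gl 2 2 n (fun i => Hom4_w t (i + 2)) (fun i => Hom4_w t i) (fun i => Hom4_w t (i + 4)) =
      (List.range (2 + (2 + n))).map (Hom4_w t) := by
  unfold gl
  rw [List.range_add, List.map_append, List.map_map, List.range_add, List.map_append, List.map_map]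
  refine congrArg₂ (· ++ ·) rfl (congrArg₂ (· ++ ·) ?_ ?_)
  · apply List.map_congr_left
    intro i _
    simp only [Function.comp_apply]
    rw [add_comm]
  · apply List.map_congr_left
    intro i _
    simp only [Function.comp_apply]
    rw [show 2 + (2 + i) = i + 4 by omega]

private theorem Hom4_gn (n : ℕ) {t : ℝ} (ht : 0 < t) :
    Gn 2 2 n (fun i => Hom4_w t (i + 2)) (fun i => Hom4_w t i) (fun i => Hom4_w t (i + 4)) := by
  have hpos : ∀ i : ℕ, 0 < 1 + t * ((i : ℝ) + 1) := by
    intro i
    positivity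
  constructor
  · intro x hx
    rw [Hom4_gl, List.mem_map] at hx
    obtain ⟨i, _, rfl⟩ := hx
    unfold Hom4_w
    exact Complex.ofReal_ne_zero.2 (hpos i).ne'
  · rw [Hom4_gl, List.pairwise_map]
    refine List.pairwise_lt_range.imp ?_
    intro i j hij h
    unfold Hom4_w at h
    rw [← Complex.ofReal_pow, ← Complex.ofReal_pow, Complex.ofReal_inj] at h
    have h1 : 1 + t * ((i : ℝ) + 1) < 1 + t * ((j : ℝ) + 1) := by
      have h2 : (i : ℝ) < (j : ℝ) := by exact_mod_cast hij
      have h3 : (i : ℝ) + 1 < (j : ℝ) + 1 := by linarith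
      have := mul_lt_mul_of_pos_left h3 ht
      linarith
    have h2 := pow_lt_pow_left₀ h1 (hpos i).le (by norm_num : (3 : ℕ) ≠ 0)
    exact absurd h h2.ne

private theorem Hom4_cat_cont {a z : ℝ → ℕ → ℂ} (k : ℕ) (ha : ∀ i, Continuous fun t => a t i)
    (hz : ∀ i, Continuous fun t => z t i) : Continuous fun t => cat k (a t) (z t) := by
  refine continuous_pi fun i => ?_
  unfold cat
  by_cases h : i < k
  · simp only [if_pos h]
    exact ha i
  · simp only [if_neg h]
    exact hz (i - k)

private theorem Hom4_WB_cont {Lb Lt : ℕ} (kb kt : ℕ) (Pb : Pat Lb → MvPolynomial ℕ ℂ) (P : Pat Lt → MvPolynomial ℕ ℂ)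
    {u v : ℝ → ℕ → ℂ} (hu : Continuous u) (hv : Continuous v) :
    Continuous fun t => WB kb kt (ev Pb (u t)) (ev P (v t)) := by
  unfold WB ev
  refine continuous_finsetSum _ fun β _ => continuous_finsetSum _ fun α _ => ?_
  exact (((MvPolynomial.continuous_eval (Pb β)).comp hu).mul ((MvPolynomial.continuous_eval (P α)).comp hv)).mul
    continuous_const

private theorem Hom4_FP_cont (q : ℂ) (k : ℕ) {a : ℝ → ℕ → ℂ} (ha : ∀ i, Continuous fun t => a t i) :
    Continuous fun t => FP q k (a t) := by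
  unfold FP
  refine continuous_finsetProd _ fun i _ => continuous_finsetProd _ fun j _ => ?_
  unfold F
  exact (continuous_const.mul (ha i)).sub (continuous_const.mul (ha j))

private theorem Hom4_Phi_cont (m : ℕ) {l : ℝ → List ℂ} {z : ℝ → ℕ → ℂ} (hl : ∀ i, Continuous fun t => (l t).getD i 0)
    (hz : ∀ i, Continuous fun t => z t i) : Continuous fun t => Phi m (l t) (z t) := by
  unfold Phi PhF
  refine Continuous.matrix_det ?_
  refine continuous_matrix fun i j => ?_
  exact DD_cont m hl hz i j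

private theorem Hom4_FP_one (q : ℂ) : FP q 2 (fun _ => 1) = q - q ^ 2 := by
  have h := FP_succ q 1 (fun _ => (1 : ℂ))
  have h0 := FP_succ q 0 (fun _ => (1 : ℂ))
  have h00 : FP q 0 (fun _ => (1 : ℂ)) = 1 := by
    unfold FP
    simp
  rw [h00] at h0
  rw [show (2 : ℕ) = 1 + 1 from rfl, h, show (1 : ℕ) = 0 + 1 from rfl, h0]
  simp [F]

private theorem Hom4_cat_one (k : ℕ) : cat k (fun _ => (1 : ℂ)) (fun _ => 1) = fun _ => 1 := by
  funext i
  unfold cat
  split_ifs <;> rfl

private theorem Hom4_xl_one (m i : ℕ) (hi : i < 2 * m + 4) :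
    (xl 2 2 m (fun _ => (1 : ℂ)) (fun _ => 1) (fun _ => 1)).getD i 0 = 1 := by
  unfold xl
  rw [Hom4_list, Hom4_list, Hom4_list]
  split_ifs with h1 h2 h3
  · rfl
  · rfl
  · rfl
  · have h4 := Hom4_list (fun _ => (1 : ℂ)) m [] (i - 2 - 2 - m)
    rw [List.append_nil] at h4
    rw [h4, if_pos (by omega)]

theorem hom_value (n : ℕ) {q : ℂ} (hq : q ^ 2 + q + 1 = 0) {Pb P : Pat (2 * n + 2) → MvPolynomial ℕ ℂ}
    (hPb : IsPsi (q ^ 2) (2 * n + 2) Pb) (hP : IsPsi q (2 * n + 2) P) :
    WB 2 2 (ev Pb fun _ => 1) (ev P fun _ => 1) =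
      3 * PhF (4 * n + 4) (GG (2 * n) fun _ => 1) (fun _ => 1) := by
  set a : ℝ → ℕ → ℂ := fun t i => Hom4_w t i with ha
  set c : ℝ → ℕ → ℂ := fun t i => Hom4_w t (i + 2) with hc
  set z : ℝ → ℕ → ℂ := fun t i => Hom4_w t (i + 4) with hz
  have ca : ∀ i, Continuous fun t => a t i := fun i => Hom4_w_cont i
  have cc : ∀ i, Continuous fun t => c t i := fun i => Hom4_w_cont (i + 2)
  have cz : ∀ i, Continuous fun t => z t i := fun i => Hom4_w_cont (i + 4)
  set f : ℝ → ℂ := fun t => NN 2 2 Pb P (c t) (a t) (z t) * ∏ j ∈ range (2 * n), z t j ^ 2 with hf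
  set g : ℝ → ℂ := fun t => FP q 2 (a t) * FP (q ^ 2) 2 (c t) *
    Phi (2 * n) (xl 2 2 (2 * n) (c t) (a t) (z t)) (z t) with hg
  have hfc : Continuous f := by
    refine Continuous.mul ?_ ?_
    · exact Hom4_WB_cont 2 2 Pb P (Hom4_cat_cont 2 cc cz) (Hom4_cat_cont 2 ca cz)
    · exact continuous_finsetProd _ fun j _ => (cz j).pow 2
  have hnil : ∀ i, Continuous fun _ : ℝ => ([] : List ℂ).getD i 0 := fun i => continuous_const
  have hgc : Continuous g := by
    refine ((Hom4_FP_cont q 2 ca).mul (Hom4_FP_cont (q ^ 2) 2 cc)).mul ?_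
    refine Hom4_Phi_cont (2 * n) ?_ cz
    refine Hom4_list_cont 2 ca (Hom4_list_cont 2 cc (Hom4_list_cont (2 * n) cz ?_))
    intro i
    have h := Hom4_list_cont (l := fun _ => []) (2 * n) cz hnil i
    simp only [List.append_nil] at h
    exact h
  have hfg : ∀ t : ℝ, 0 < t → f t = g t := by
    intro t ht
    exact four n hq hPb hP (c t) (a t) (z t) (Hom4_gn (2 * n) ht)
  have h0 : f 0 = g 0 := by
    have h1 : Filter.Tendsto f (nhdsWithin 0 (Set.Ioi 0)) (nhds (f 0)) :=
      (hfc.tendsto 0).mono_left nhdsWithin_le_nhds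
    have h2 : Filter.Tendsto g (nhdsWithin 0 (Set.Ioi 0)) (nhds (g 0)) :=
      (hgc.tendsto 0).mono_left nhdsWithin_le_nhds
    refine tendsto_nhds_unique_of_eventuallyEq h1 h2 ?_
    filter_upwards [self_mem_nhdsWithin] with t ht
    exact hfg t ht
  have ea : a 0 = fun _ => 1 := funext fun i => Hom4_w_zero i
  have ec : c 0 = fun _ => 1 := funext fun i => Hom4_w_zero (i + 2)
  have ez : z 0 = fun _ => 1 := funext fun i => Hom4_w_zero (i + 4)
  have ef : f 0 = WB 2 2 (ev Pb fun _ => 1) (ev P fun _ => 1) := by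
    simp only [hf]
    rw [ea, ec, ez]
    unfold NN
    rw [Hom4_cat_one]
    simp
  have eg : g 0 = 3 * PhF (4 * n + 4) (GG (2 * n) fun _ => 1) (fun _ => 1) := by
    simp only [hg]
    rw [ea, ec, ez, Hom4_FP_one, Hom4_FP_one]
    have e1 : (q - q ^ 2) * (q ^ 2 - (q ^ 2) ^ 2) = 3 := by
      linear_combination (q ^ 4 - 2 * q ^ 3 + 3 * q - 3) * hq
    rw [e1]
    unfold Phi
    congr 1
    rw [show 2 * (2 * n) + 4 = 4 * n + 4 by ring]
    exact PhF_congr (fun j _ => rfl) (fun j hj => Hom4_xl_one (2 * n) j (by omega))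
  rw [← ef, h0, eg]

end Q4
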