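import Pool.Agent.Lib.MP_216314_pr.Z.RelB

/-!
# Legs: diagrams of two patterns with cut sites

Bottom pattern `β : Pat Lb`, top pattern `α : Pat Lt`; nodes `(true, x)` (top) and `(false, x)` (bottom), `x : ℤ`. The first `kt` sites of
every period above and the first `kb` sites of every period below are legs; the other top sites `x` are glued to the bottom sites
`tb Lt kb kt x` (in the same order). `WL kb kt β α`: no two different legs of the copy `0` are connected in the diagram; this is
expressed by separating sets `S` of nodes which are closed under the steps.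
-/

set_option autoImplicit false

noncomputable section

namespace CY

open Finset

/-- the bottom label of the top site `x` (`kt` legs above, `kb` legs below, top period `Lt`) -/
def tb (Lt kb kt : ℕ) (x : ℤ) : ℤ := x + ((kb : ℤ) - (kt : ℤ)) * (x / (Lt : ℤ) + 1)

/-- a set of nodes closed under the steps -/
structure LCl {Lb Lt : ℕ} (kb kt : ℕ) (β : Pat Lb) (α : Pat Lt) (S : Set (Bool × ℤ)) : Prop where
  top : ∀ x, (true, x) ∈ S → (true, α.f x) ∈ S
  bot : ∀ x, (false, x) ∈ S → (false, β.f x) ∈ S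
  glue : ∀ x : ℤ, (kt : ℤ) ≤ x % (Lt : ℤ) → ((true, x) ∈ S ↔ (false, tb Lt kb kt x) ∈ S)

/-- the legs of the copy `0` -/
def IsLeg (kb kt : ℕ) (u : Bool × ℤ) : Prop :=
  0 ≤ u.2 ∧ ((u.1 = true ∧ u.2 < kt) ∨ (u.1 = false ∧ u.2 < kb))

/-- no two different legs of the copy `0` are connected -/
def WL {Lb Lt : ℕ} (kb kt : ℕ) (β : Pat Lb) (α : Pat Lt) : Prop :=
  ∀ u v, IsLeg kb kt u → IsLeg kb kt v → u ≠ v → ∃ S, LCl kb kt β α S ∧ u ∈ S ∧ v ∉ S

/-- the numbers of the sites which are not legs agree -/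
def LOk (Lb Lt kb kt : ℕ) : Prop := kb ≤ Lb ∧ kt ≤ Lt ∧ Lb + kt = Lt + kb ∧ 0 < Lb ∧ 0 < Lt

end CY
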