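import Pool.Agent.Lib.MP_216314_pr.Q4.LDef

/-!
# Elementary facts on legs

`tb` is a bijection between `{x | kt ≤ x % Lt}` and `{y | kb ≤ y % Lb}` with inverse `tb Lb kt kb` : write `x = Lt * s + r`, `kt ≤ r < Lt`; then
`tb x = x + (kb - kt) * (s + 1) = Lb * s + (r - kt + kb)` since `Lb = Lt + kb - kt`, and `kb ≤ r - kt + kb < Lb`. (`Int.ediv_emod_unique`, `Int.emod_add_ediv`;
nonlinear terms: generalise `Lt * s`, use `ring_nf`/`nlinarith` with `(Lb : ℤ) = Lt + kb - kt` substituted.)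
`lcl_compl`: the complement of a closed set is closed (the maps `α.f`, `β.f` are involutions). `lcl_swap`: exchange of top and bottom: the image of `S`
under `u ↦ (!u.1, u.2)`. `wl_comm`: from `lcl_swap`. `not_wl_bot`: a closed set containing `(false, i)` contains `(false, (e i β).f i) = (false, i+1)`.
-/

set_option autoImplicit false

noncomputable section

namespace CY

open Finset

section

variable {Lb Lt kb kt : ℕ}

/-- explicit form: `r` is the residue -/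
theorem tb_apply (h : LOk Lb Lt kb kt) (s r : ℤ) (h1 : (kt : ℤ) ≤ r) (h2 : r < Lt) :
    tb Lt kb kt (Lt * s + r) = Lb * s + (r - kt + kb) := by
  obtain ⟨_, _, h5, _, h7⟩ := h
  have hr0 : 0 ≤ r := le_trans (Int.natCast_nonneg kt) h1
  have hL : (Lt : ℤ) ≠ 0 := by exact_mod_cast h7.ne'
  have hd : ((Lt : ℤ) * s + r) / (Lt : ℤ) = s := by
    rw [add_comm, Int.add_mul_ediv_left _ _ hL, Int.ediv_eq_zero_of_lt hr0 h2, zero_add]
  have h8 : (Lb : ℤ) = Lt + kb - kt := by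
    have : (Lb : ℤ) + kt = Lt + kb := by exact_mod_cast h5
    linarith
  unfold tb
  rw [hd, h8]
  ring

private theorem LSym_split (h : LOk Lb Lt kb kt) {x : ℤ} (hx : (kt : ℤ) ≤ x % (Lt : ℤ)) :
    tb Lt kb kt x = Lb * (x / (Lt : ℤ)) + (x % (Lt : ℤ) - kt + kb) := by
  have h0 : (0 : ℤ) < Lt := by exact_mod_cast h.2.2.2.2
  have h1 := tb_apply h (x / (Lt : ℤ)) (x % (Lt : ℤ)) hx (Int.emod_lt_of_pos x h0)
  rwa [Int.mul_ediv_add_emod] at h1

private theorem LSym_range (h : LOk Lb Lt kb kt) {x : ℤ} (hx : (kt : ℤ) ≤ x % (Lt : ℤ)) :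
    (kb : ℤ) ≤ x % (Lt : ℤ) - kt + kb ∧ x % (Lt : ℤ) - kt + kb < Lb := by
  obtain ⟨_, _, h5, _, h7⟩ := h
  have h0 : (0 : ℤ) < Lt := by exact_mod_cast h7
  have h6 : (Lb : ℤ) + kt = Lt + kb := by exact_mod_cast h5
  have h1 := Int.emod_lt_of_pos x h0
  constructor
  · linarith
  · linarith

theorem tb_emod (h : LOk Lb Lt kb kt) {x : ℤ} (hx : (kt : ℤ) ≤ x % (Lt : ℤ)) :
    (kb : ℤ) ≤ tb Lt kb kt x % (Lb : ℤ) := by
  obtain ⟨h1, h2⟩ := LSym_range h hx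
  have h0 : (0 : ℤ) ≤ x % (Lt : ℤ) - kt + kb := le_trans (Int.natCast_nonneg kb) h1
  rw [LSym_split h hx, add_comm, Int.add_mul_emod_self_left, Int.emod_eq_of_lt h0 h2]
  exact h1

theorem LOk.symm (h : LOk Lb Lt kb kt) : LOk Lt Lb kt kb :=
  ⟨h.2.1, h.1, h.2.2.1.symm, h.2.2.2.2, h.2.2.2.1⟩

theorem tb_tb (h : LOk Lb Lt kb kt) {x : ℤ} (hx : (kt : ℤ) ≤ x % (Lt : ℤ)) :
    tb Lb kt kb (tb Lt kb kt x) = x := by
  obtain ⟨h1, h2⟩ := LSym_range h hx
  rw [LSym_split h hx, tb_apply h.symm _ _ h1 h2]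
  have h3 := Int.mul_ediv_add_emod x (Lt : ℤ)
  linarith

theorem tb_add_period (h : LOk Lb Lt kb kt) (x : ℤ) : tb Lt kb kt (x + Lt) = tb Lt kb kt x + Lb := by
  obtain ⟨_, _, h5, _, h7⟩ := h
  have hL : (Lt : ℤ) ≠ 0 := by exact_mod_cast h7.ne'
  have h6 : (Lb : ℤ) = Lt + kb - kt := by
    have : (Lb : ℤ) + kt = Lt + kb := by exact_mod_cast h5
    linarith
  unfold tb
  have hd : (x + (Lt : ℤ)) / (Lt : ℤ) = x / (Lt : ℤ) + 1 := by
    have h8 := Int.add_mul_ediv_right x 1 hL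
    rwa [one_mul] at h8
  rw [hd, h6]
  ring

variable {β : Pat Lb} {α : Pat Lt}

theorem lcl_compl {S : Set (Bool × ℤ)} (hS : LCl kb kt β α S) : LCl kb kt β α Sᶜ := by
  refine ⟨fun x hx h => hx ?_, fun x hx h => hx ?_, fun x hx => not_congr (hS.glue x hx)⟩
  · have h1 := hS.top _ h
    rwa [α.inv] at h1
  · have h1 := hS.bot _ h
    rwa [β.inv] at h1

theorem lcl_swap (h : LOk Lb Lt kb kt) {S : Set (Bool × ℤ)} (hS : LCl kb kt β α S) :
    LCl kt kb α β {u | (!u.1, u.2) ∈ S} := by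
  refine ⟨fun x hx => hS.bot x hx, fun x hx => hS.top x hx, fun x hx => ?_⟩
  have h1 := hS.glue (tb Lb kt kb x) (tb_emod h.symm hx)
  rw [tb_tb h.symm hx] at h1
  exact h1.symm

private theorem LSym_wl (h : LOk Lb Lt kb kt) {β : Pat Lb} {α : Pat Lt} (hw : WL kb kt β α) :
    WL kt kb α β := by
  have hleg : ∀ u : Bool × ℤ, IsLeg kt kb u → IsLeg kb kt (!u.1, u.2) := by
    rintro ⟨b, x⟩ ⟨h0, h1⟩
    refine ⟨h0, ?_⟩
    rcases h1 with ⟨h1, h2⟩ | ⟨h1, h2⟩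
    · right
      have h1' : b = true := h1
      subst h1'
      exact ⟨rfl, h2⟩
    · left
      have h1' : b = false := h1
      subst h1'
      exact ⟨rfl, h2⟩
  intro u v hu hv huv
  have hne : ((!u.1, u.2) : Bool × ℤ) ≠ (!v.1, v.2) := by
    intro he
    apply huv
    have h1 : (!u.1) = (!v.1) := (Prod.mk.inj he).1
    have h2 : u.2 = v.2 := (Prod.mk.inj he).2
    refine Prod.ext ?_ h2
    have h3 := congrArg (fun b : Bool => !b) h1
    simpa using h3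
  obtain ⟨S, hS, h1, h2⟩ := hw _ _ (hleg u hu) (hleg v hv) hne
  exact ⟨_, lcl_swap h hS, h1, h2⟩

/-- exchange of top and bottom -/
theorem wl_comm (h : LOk Lb Lt kb kt) (β : Pat Lb) (α : Pat Lt) : WL kb kt β α ↔ WL kt kb α β :=
  ⟨fun hw => LSym_wl h hw, fun hw => LSym_wl h.symm hw⟩

/-- two neighbouring legs are joined directly -/
theorem not_wl_bot {i : ℕ} (hi : i + 1 < kb) (β : Pat Lb) (α : Pat Lt) :
    ¬ WL kb kt (Pat.e (i : ℤ) β) α := by
  intro hw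
  have h1 : IsLeg kb kt (false, (i : ℤ)) := by
    refine ⟨Int.natCast_nonneg i, Or.inr ⟨rfl, ?_⟩⟩
    show (i : ℤ) < kb
    omega
  have h2 : IsLeg kb kt (false, (i : ℤ) + 1) := by
    refine ⟨?_, Or.inr ⟨rfl, ?_⟩⟩
    · show (0 : ℤ) ≤ (i : ℤ) + 1
      omega
    · show (i : ℤ) + 1 < kb
      omega
  obtain ⟨S, hS, h3, h4⟩ := hw _ _ h1 h2 (by
    intro he
    have h5 : (i : ℤ) = (i : ℤ) + 1 := congrArg Prod.snd he
    omega)
  have h6 := hS.bot _ h3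
  rw [Pat.e_left] at h6
  exact h4 h6

theorem not_wl_top {i : ℕ} (hi : i + 1 < kt) (β : Pat Lb) (α : Pat Lt) :
    ¬ WL kb kt β (Pat.e (i : ℤ) α) := by
  intro hw
  have h1 : IsLeg kb kt (true, (i : ℤ)) := by
    refine ⟨Int.natCast_nonneg i, Or.inl ⟨rfl, ?_⟩⟩
    show (i : ℤ) < kt
    omega
  have h2 : IsLeg kb kt (true, (i : ℤ) + 1) := by
    refine ⟨?_, Or.inl ⟨rfl, ?_⟩⟩
    · show (0 : ℤ) ≤ (i : ℤ) + 1
      omega
    · show (i : ℤ) + 1 < kt
      omega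
  obtain ⟨S, hS, h3, h4⟩ := hw _ _ h1 h2 (by
    intro he
    have h5 : (i : ℤ) = (i : ℤ) + 1 := congrArg Prod.snd he
    omega)
  have h6 := hS.top _ h3
  rw [Pat.e_left] at h6
  exact h4 h6

end

end CY
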