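import Pool.Agent.Lib.MP_216314_pr.Q4.NDef4

/-!
# Exchange relations of the leg function

`NN_comm`: `WB_comm`. `NN_swap_leg`: `hP.exch (cat kt a z) i`, apply `WB kb kt (ev Pb ..)` (`WB_smul`, `WB_add_right`; use `WB kb kt v (c • w + d • w') = ..`), `WB_leg_top`, `sw_cat_leg`, `cat_lt`.
`NN_swap_z`: as `ESw_key` (Z/ESw): with `u = z i`, `v = z (i+1)`: `hPb.exch (cat kb c z) (kb + i)`, `hP.exch (cat kt a z) (kt + i)`:
`WB ((F (q²) v u + (v-u) E) Ψb) ((F q v u + (v-u) E) Ψ) = WB (F (q²) u v Ψb') (F q u v Ψ')`; move `E` from the left to the right (`WB_E`; casts: `((kb + i : ℕ) : ℤ) = kb + i`), `E_E`; the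
operator is the scalar `F (q²) v u * F q v u` since `F q v u + F (q²) v u + (v - u) = 0`; result `(u²+uv+v²) * (NN (sw i z) - NN z) = 0`.
`NN_zero`: `NN_swap_leg` with `F q (a i) (a (i+1)) = 0`.
-/

set_option autoImplicit false

noncomputable section

namespace CY

open Finset

section

variable {q : ℂ} (hq : q ^ 2 + q + 1 = 0) {Lb Lt kb kt : ℕ} (h : LOk Lb Lt kb kt)
  {Pb : Pat Lb → MvPolynomial ℕ ℂ} {P : Pat Lt → MvPolynomial ℕ ℂ}

theorem NA_smul_right (d : ℂ) (v : V Lb) (w : V Lt) : WB kb kt v (d • w) = d * WB kb kt v w := by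
  have h1 := WB_smul (kb := kb) (kt := kt) 1 d v w
  rwa [one_smul, one_mul] at h1

include h in
theorem NN_comm (c a z : ℕ → ℂ) : NN kb kt Pb P c a z = NN kt kb P Pb a c z :=
  WB_comm h _ _

theorem NN_swap_leg (hP : IsPsi q Lt P) (hk : kt ≤ Lt) {i : ℕ} (hi : i + 1 < kt) (c a z : ℕ → ℂ) :
    F q (a (i + 1)) (a i) * NN kb kt Pb P c a z = F q (a i) (a (i + 1)) * NN kb kt Pb P c (sw i a) z := by
  have h1 := hP.exch (cat kt a z) i (by omega)
  rw [cat_lt (by omega : i < kt), cat_lt hi, sw_cat_leg hi] at h1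
  have h2 := congrArg (fun w => WB kb kt (ev Pb (cat kb c z)) w) h1
  rw [WB_add_right, NA_smul_right, NA_smul_right, NA_smul_right, WB_leg_top hi, mul_zero,
    add_zero] at h2
  exact h2

include hq h in
theorem NN_swap_z (hPb : IsPsi (q ^ 2) Lb Pb) (hP : IsPsi q Lt P) {i : ℕ} (hi : kt + i + 1 < Lt) (c a z : ℕ → ℂ)
    (hT : z i ^ 2 + z i * z (i + 1) + z (i + 1) ^ 2 ≠ 0) :
    NN kb kt Pb P c a (sw i z) = NN kb kt Pb P c a z := by
  have hb : kb + i + 1 < Lb := by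
    obtain ⟨_, _, h3, _, _⟩ := h
    omega
  have e1 := hPb.exch (cat kb c z) (kb + i) hb
  have e2 := hP.exch (cat kt a z) (kt + i) hi
  have g1 : cat kb c z (kb + i + 1) = z (i + 1) := cat_ge (i := i + 1) c z
  have g2 : cat kt a z (kt + i + 1) = z (i + 1) := cat_ge (i := i + 1) a z
  rw [g1, cat_ge, sw_cat_z, Nat.cast_add] at e1
  rw [g2, cat_ge, sw_cat_z, Nat.cast_add] at e2
  have h1 : WB kb kt
      (F (q ^ 2) (z (i + 1)) (z i) • ev Pb (cat kb c z) +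
        (z (i + 1) - z i) • E ((kb : ℤ) + i) (ev Pb (cat kb c z)))
      (F q (z (i + 1)) (z i) • ev P (cat kt a z) +
        (z (i + 1) - z i) • E ((kt : ℤ) + i) (ev P (cat kt a z))) =
      WB kb kt (F (q ^ 2) (z i) (z (i + 1)) • ev Pb (cat kb c (sw i z)))
        (F q (z i) (z (i + 1)) • ev P (cat kt a (sw i z))) := by
    rw [e1, e2]
  have h2 := WB_E h i hi (ev Pb (cat kb c z)) (ev P (cat kt a z))
  have h3 : WB kb kt (E ((kb : ℤ) + i) (ev Pb (cat kb c z))) (E ((kt : ℤ) + i) (ev P (cat kt a z))) =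
      WB kb kt (ev Pb (cat kb c z)) (E ((kt : ℤ) + i) (ev P (cat kt a z))) := by
    rw [WB_E h i hi, E_E]
  rw [WB_add_left, WB_add_right, WB_add_right, WB_smul, WB_smul, WB_smul, WB_smul, WB_smul, h2, h3]
    at h1
  have h4 : NN kb kt Pb P c a z = WB kb kt (ev Pb (cat kb c z)) (ev P (cat kt a z)) := rfl
  have h5 : NN kb kt Pb P c a (sw i z) =
      WB kb kt (ev Pb (cat kb c (sw i z))) (ev P (cat kt a (sw i z))) := rfl
  rw [h4, h5]
  have hq3 : q ^ 3 = 1 := by linear_combination (q - 1) * hq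
  obtain ⟨x, hx⟩ : ∃ x, x = z i := ⟨_, rfl⟩
  obtain ⟨y, hy⟩ : ∃ y, y = z (i + 1) := ⟨_, rfl⟩
  obtain ⟨s, hs⟩ : ∃ s, s = WB kb kt (ev Pb (cat kb c z)) (ev P (cat kt a z)) := ⟨_, rfl⟩
  obtain ⟨t, ht⟩ : ∃ t, t = WB kb kt (ev Pb (cat kb c z))
      (E ((kt : ℤ) + i) (ev P (cat kt a z))) := ⟨_, rfl⟩
  obtain ⟨u, hu⟩ : ∃ u, u = WB kb kt (ev Pb (cat kb c (sw i z)))
      (ev P (cat kt a (sw i z))) := ⟨_, rfl⟩
  rw [← hx, ← hy] at hT
  rw [← hx, ← hy, ← hs, ← ht, ← hu] at h1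
  rw [← hs, ← hu]
  unfold F at h1
  have hq4 : (q ^ 2) ^ 2 = q := by linear_combination q * hq3
  rw [hq4] at h1
  have h6 : (x ^ 2 + x * y + y ^ 2) * (u - s) = 0 := by
    linear_combination -h1 + ((u - s) * ((1 - q) * (x ^ 2 + y ^ 2) + (1 - q + q ^ 2) * x * y) +
      (y - x) ^ 2 * t) * hq
  exact sub_eq_zero.1 ((mul_eq_zero.1 h6).resolve_left hT)

theorem NN_zero (hP : IsPsi q Lt P) (hk : kt ≤ Lt) {i : ℕ} (hi : i + 1 < kt) (c a z : ℕ → ℂ)
    (h1 : F q (a i) (a (i + 1)) = 0) (h2 : F q (a (i + 1)) (a i) ≠ 0) : NN kb kt Pb P c a z = 0 := by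
  have h3 := NN_swap_leg (kb := kb) (Pb := Pb) hP hk hi c a z
  rw [h1, zero_mul] at h3
  exact (mul_eq_zero.1 h3).resolve_left h2

end

end CY
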