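import Pool.Agent.Lib.MP_216314_pr.Q4.FusP
import Pool.Agent.Lib.MP_216314_pr.Q4.WBil
import Pool.Agent.Lib.MP_216314_pr.Z.WDef

/-!
# The leg function `NN` (definitions and rearrangements of points)

`cat k a z = (a_0, .., a_{k-1}, z_0, z_1, ...)`. `NN kb kt Pb P c a z`: the form `WB kb kt` of the solution `Pb` (for `q²`, below) at `cat kb c z` and the
solution `P` (for `q`, above) at `cat kt a z`. All lemmas of this file: `funext k`, case distinctions, `omega`; `sw` is `Equiv.swap` (`Equiv.swap_apply_def`).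
-/

set_option autoImplicit false

noncomputable section

namespace CY

open Finset

def cat (k : ℕ) (a z : ℕ → ℂ) : ℕ → ℂ := fun i => if i < k then a i else z (i - k)

/-- `(z_1, z_2, ...)` -/
def tl4 (z : ℕ → ℂ) : ℕ → ℂ := fun i => z (i + 1)

/-- the leg function -/
def NN {Lb Lt : ℕ} (kb kt : ℕ) (Pb : Pat Lb → MvPolynomial ℕ ℂ) (P : Pat Lt → MvPolynomial ℕ ℂ) (c a z : ℕ → ℂ) : ℂ :=
  WB kb kt (ev Pb (cat kb c z)) (ev P (cat kt a z))

theorem cat_lt {k i : ℕ} (h : i < k) (a z : ℕ → ℂ) : cat k a z i = a i := by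
  simp only [cat]
  rw [if_pos h]

theorem cat_ge {k i : ℕ} (a z : ℕ → ℂ) : cat k a z (k + i) = z i := by
  simp only [cat]
  rw [if_neg (by omega), Nat.add_sub_cancel_left]

private theorem NDef4_lt {k i : ℕ} (a z : ℕ → ℂ) (h : i < k) : cat k a z i = a i := cat_lt h a z

private theorem NDef4_ge {k i j : ℕ} (a z : ℕ → ℂ) (h : i = k + j) : cat k a z i = z j := by
  subst h
  exact cat_ge a z

private theorem NDef4_sw {k i : ℕ} (z : ℕ → ℂ) (h1 : k ≠ i) (h2 : k ≠ i + 1) : sw i z k = z k := by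
  simp only [sw]
  rw [Equiv.swap_apply_of_ne_of_ne h1 h2]

private theorem NDef4_sw0 {i : ℕ} (z : ℕ → ℂ) : sw i z i = z (i + 1) := by
  simp only [sw]
  rw [Equiv.swap_apply_left]

private theorem NDef4_sw1 {i : ℕ} (z : ℕ → ℂ) : sw i z (i + 1) = z i := by
  simp only [sw]
  rw [Equiv.swap_apply_right]

theorem sw_cat_leg {k i : ℕ} (h : i + 1 < k) (a z : ℕ → ℂ) : sw i (cat k a z) = cat k (sw i a) z := by
  funext j
  rcases eq_or_ne j i with h1 | h1
  · subst h1
    rw [NDef4_sw0, NDef4_lt _ _ h, NDef4_lt _ _ (by omega), NDef4_sw0]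
  rcases eq_or_ne j (i + 1) with h2 | h2
  · subst h2
    rw [NDef4_sw1, NDef4_lt _ _ (by omega), NDef4_lt _ _ h, NDef4_sw1]
  rw [NDef4_sw _ h1 h2]
  rcases lt_or_ge j k with h3 | h3
  · rw [NDef4_lt _ _ h3, NDef4_lt _ _ h3, NDef4_sw _ h1 h2]
  · obtain ⟨m, rfl⟩ := Nat.exists_eq_add_of_le h3
    rw [cat_ge, cat_ge]

theorem sw_cat_z {k i : ℕ} (a z : ℕ → ℂ) : sw (k + i) (cat k a z) = cat k a (sw i z) := by
  funext j
  rcases lt_or_ge j k with h3 | h3
  · rw [NDef4_sw _ (by omega) (by omega), NDef4_lt _ _ h3, NDef4_lt _ _ h3]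
  · obtain ⟨m, rfl⟩ := Nat.exists_eq_add_of_le h3
    rw [cat_ge]
    rcases eq_or_ne m i with h1 | h1
    · subst h1
      rw [NDef4_sw0, NDef4_sw0, NDef4_ge (j := m + 1) _ _ (by omega)]
    rcases eq_or_ne m (i + 1) with h2 | h2
    · subst h2
      have e : k + (i + 1) = k + i + 1 := by omega
      rw [e, NDef4_sw1, NDef4_sw1, cat_ge]
    rw [NDef4_sw _ (by omega) (by omega), NDef4_sw _ h1 h2, cat_ge]

theorem cat_update {k j : ℕ} (h : j < k) (a z : ℕ → ℂ) (b : ℂ) :
    cat k (Function.update a j b) z = Function.update (cat k a z) j b := by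
  funext i
  rcases eq_or_ne i j with h1 | h1
  · subst h1
    rw [NDef4_lt _ _ h, Function.update_self, Function.update_self]
  · rw [Function.update_of_ne h1]
    rcases lt_or_ge i k with h3 | h3
    · rw [NDef4_lt _ _ h3, NDef4_lt _ _ h3, Function.update_of_ne h1]
    · obtain ⟨m, rfl⟩ := Nat.exists_eq_add_of_le h3
      rw [cat_ge, cat_ge]

/-- the first glued entry becomes a leg -/
theorem cat_succ (k : ℕ) (c z : ℕ → ℂ) : cat k c z = cat (k + 1) (Function.update c k (z 0)) (tl4 z) := by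
  funext i
  rcases lt_trichotomy i k with h1 | h1 | h1
  · rw [NDef4_lt _ _ h1, NDef4_lt _ _ (by omega), Function.update_of_ne (by omega)]
  · subst h1
    rw [NDef4_ge (j := 0) _ _ (by omega), NDef4_lt _ _ (by omega), Function.update_self]
  · obtain ⟨m, rfl⟩ := Nat.exists_eq_add_of_lt h1
    rw [NDef4_ge (j := m + 1) _ _ (by omega), NDef4_ge (j := m) _ _ (by omega)]
    rfl

/-- the last leg and the first glued entry as an inserted pair -/
theorem cat_ins (k : ℕ) (a z : ℕ → ℂ) : cat (k + 1) a z = insP k (a k) (z 0) (cat k a (tl4 z)) := by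
  funext i
  simp only [insP]
  rcases lt_trichotomy i k with h1 | h1 | h1
  · rw [if_pos h1, NDef4_lt _ _ h1, NDef4_lt _ _ (by omega)]
  · subst h1
    rw [if_neg (by omega), if_pos rfl, NDef4_lt _ _ (by omega)]
  · rcases eq_or_ne i (k + 1) with h2 | h2
    · subst h2
      rw [if_neg (by omega), if_neg (by omega), if_pos rfl, NDef4_ge (j := 0) _ _ (by omega)]
    · obtain ⟨m, hm⟩ := Nat.exists_eq_add_of_le (show k + 2 ≤ i by omega)
      rw [if_neg (by omega), if_neg (by omega), if_neg h2, NDef4_ge (j := m + 1) _ _ (by omega),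
        NDef4_ge (i := i - 2) (j := m) _ _ (by omega)]
      rfl

private theorem NDef4_cons (w : ℂ) (z : ℕ → ℂ) (i : ℕ) : consN w z (i + 1) = z i := by
  simp only [consN]
  rw [if_neg (by omega), Nat.add_sub_cancel]

private theorem NDef4_cons0 (w : ℂ) (z : ℕ → ℂ) : consN w z 0 = w := by
  simp only [consN, if_true]

theorem consN_cat (k : ℕ) (w : ℂ) (c z : ℕ → ℂ) : consN w (cat k c z) = cat (k + 1) (consN w c) z := by
  funext i
  cases i with
  | zero => rw [NDef4_cons0, NDef4_lt _ _ (by omega), NDef4_cons0]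
  | succ i =>
    rw [NDef4_cons]
    rcases lt_or_ge i k with h3 | h3
    · rw [NDef4_lt _ _ h3, NDef4_lt _ _ (by omega), NDef4_cons]
    · obtain ⟨m, rfl⟩ := Nat.exists_eq_add_of_le h3
      rw [cat_ge, NDef4_ge (j := m) _ _ (by omega)]

/-- rotation below: `(c, z_0, .., z_{m-1}, z_m)` is the rotation of `(z_m, c, z_0, .., z_{m-1})` -/
theorem cat_rot_bot (k m : ℕ) (c z : ℕ → ℂ) {i : ℕ} (hi : i < k + m + 1) :
    cat k c z i = cyc (k + m + 1) (cat (k + 1) (consN (z m) c) z) i := by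
  rw [← consN_cat]
  simp only [cyc]
  rcases eq_or_ne i (k + m) with h1 | h1
  · subst h1
    rw [if_neg (by omega), if_pos rfl, NDef4_cons0, cat_ge]
  · rw [if_pos (by omega), NDef4_cons]

/-- rotation above: `(a_0, .., a_k, z_0, .., z_{m-1}, z_m)` is the rotation of `(z_m, a_0, a_1, .., a_k, z_0, .., z_{m-1})` -/
theorem cat_rot_top (k m : ℕ) (a z : ℕ → ℂ) {i : ℕ} (hi : i < k + m + 2) :
    cat (k + 1) a z i = cyc (k + m + 2) (insP 0 (z m) (a 0) (cat k (tl4 a) z)) i := by
  simp only [cyc]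
  rcases eq_or_ne i (k + m + 1) with h1 | h1
  · rw [if_neg (by omega), if_pos (by omega), NDef4_ge (j := m) _ _ (by omega)]
    simp only [insP]
    rw [if_neg (by omega), if_pos (by trivial)]
  · rw [if_pos (by omega)]
    simp only [insP]
    rw [if_neg (by omega), if_neg (by omega)]
    cases i with
    | zero => rw [if_pos (by omega), NDef4_lt _ _ (by omega)]
    | succ i =>
      rw [if_neg (by omega)]
      have e : i + 1 + 1 - 2 = i := by omega
      rw [e]
      rcases lt_or_ge i k with h3 | h3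
      · rw [NDef4_lt _ _ (by omega), NDef4_lt _ _ h3]
        rfl
      · obtain ⟨n, rfl⟩ := Nat.exists_eq_add_of_le h3
        rw [cat_ge, NDef4_ge (j := n) _ _ (by omega)]

end CY
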