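import Pool.Agent.Lib.MP_216314_pr.Q4.HhB

/-!
# Determinants of divided differences: definitions

`PhF_congr`: `DD_congr` entrywise (row `i` only depends on `x_0..x_i`).
-/

set_option autoImplicit false

noncomputable section

namespace Q4

open Finset Polynomial

/-- the determinant of the divided differences of the family `g` -/
def PhF (N : ℕ) (g : ℕ → ℂ[X]) (x : ℕ → ℂ) : ℂ := Matrix.det (Matrix.of fun i j : Fin N => DD x i (g j))

/-- `(u, v, g_0, g_1, ...)` -/
def pre (u v : ℂ[X]) (g : ℕ → ℂ[X]) : ℕ → ℂ[X] := fun j => if j = 0 then u else if j = 1 then v else g (j - 2)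

theorem PhF_congr {N : ℕ} {g g' : ℕ → ℂ[X]} {x x' : ℕ → ℂ} (hg : ∀ j, j < N → g j = g' j) (hx : ∀ j, j < N → x j = x' j) :
    PhF N g x = PhF N g' x' := by
  have hM : (Matrix.of fun i j : Fin N => DD x i (g j)) = (Matrix.of fun i j : Fin N => DD x' i (g' j)) := by
    ext i j
    simp only [Matrix.of_apply]
    rw [hg j j.2]
    exact DD_congr (fun l hl => hx l (lt_of_le_of_lt hl i.2)) _
  unfold PhF
  rw [hM]

end Q4
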