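import Mathlib

/-!
# Determinants of binomial coefficients and Vandermonde determinants

`det_choose`: `choose k i * i! = k (k-1) ... (k-i+1)` is the value at `k` of a monic polynomial of degree `i` (`descPochhammer`); multiply row `i` by `i!` (`Matrix.det_mul_column` / `Matrix.det_mul_row`) and use
`Matrix.det_eval_matrixOfPolynomials_eq_det_vandermonde` (Mathlib, LinearAlgebra/Vandermonde; see also the proof of `Matrix.superFactorial_dvd_vandermonde_det`); `descPochhammer_eval_eq_descFactorial`, `Nat.descFactorial_eq_factorial_mul_choose`.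
`vdm_succ`: `Matrix.det_vandermonde` for both sides and `Fin.prod_univ_castSucc`: the pairs `(i, j)`, `i < j`, of `Fin (N+1)` are those of `Fin N` and the pairs `(i, N)` (write `∏ j ∈ Ioi i` as a product over all `j` with an `if`).
-/

set_option autoImplicit false

noncomputable section

namespace Q4

open Finset

theorem det_choose (N : ℕ) (k : ℕ → ℕ) :
    (Matrix.of fun i j : Fin N => ((k j).choose i : ℂ)).det * ∏ l ∈ range N, (l.factorial : ℂ) =
      (Matrix.vandermonde fun j : Fin N => ((k j : ℕ) : ℂ)).det := by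
  have h1 := Matrix.det_eval_matrixOfPolynomials_eq_det_vandermonde
    (fun j : Fin N => ((k j : ℕ) : ℂ)) (fun i : Fin N => descPochhammer ℂ (i : ℕ))
    (fun i => descPochhammer_natDegree ℂ i) (fun i => monic_descPochhammer ℂ i)
  rw [h1]
  have h2 : (Matrix.of fun i j : Fin N => (descPochhammer ℂ (j : ℕ)).eval ((k i : ℕ) : ℂ)) =
      (Matrix.of fun i j : Fin N => (((i : ℕ).factorial : ℂ)) *
        (Matrix.of fun i j : Fin N => ((k j).choose i : ℂ)) i j).transpose := by
    ext i j
    rw [Matrix.transpose_apply, Matrix.of_apply, Matrix.of_apply, Matrix.of_apply,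
      descPochhammer_eval_eq_descFactorial, Nat.descFactorial_eq_factorial_mul_choose]
    push_cast
    rfl
  rw [h2, Matrix.det_transpose, Matrix.det_mul_column, mul_comm]
  congr 1
  exact (Fin.prod_univ_eq_prod_range (fun l => ((l.factorial : ℕ) : ℂ)) N).symm

theorem vdm_succ (N : ℕ) (v : ℕ → ℂ) :
    (Matrix.vandermonde fun j : Fin (N + 1) => v j).det =
      (Matrix.vandermonde fun j : Fin N => v j).det * ∏ j ∈ range N, (v N - v j) := by
  rw [Matrix.det_vandermonde, Matrix.det_vandermonde, Fin.prod_univ_castSucc]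
  have hlast : ∏ j ∈ Ioi (Fin.last N), (v (j : ℕ) - v ((Fin.last N : Fin (N + 1)) : ℕ)) = 1 := by
    have : Ioi (Fin.last N) = ∅ := by
      ext j
      simp only [Finset.mem_Ioi, Finset.notMem_empty, iff_false, not_lt]
      exact Fin.le_last j
    rw [this, Finset.prod_empty]
  rw [hlast, mul_one]
  have key : ∀ i : Fin N, ∏ j ∈ Ioi (Fin.castSucc i), (v (j : ℕ) - v ((Fin.castSucc i : Fin (N + 1)) : ℕ)) =
      (∏ j ∈ Ioi i, (v (j : ℕ) - v (i : ℕ))) * (v N - v (i : ℕ)) := by
    intro i
    have e1 : ∏ j ∈ Ioi (Fin.castSucc i), (v (j : ℕ) - v ((Fin.castSucc i : Fin (N + 1)) : ℕ)) =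
        ∏ j : Fin (N + 1), if Fin.castSucc i < j then (v (j : ℕ) - v (i : ℕ)) else 1 := by
      rw [← Finset.prod_filter, Finset.filter_lt_eq_Ioi]
      rfl
    have e2 : ∏ j ∈ Ioi i, (v (j : ℕ) - v (i : ℕ)) =
        ∏ j : Fin N, if i < j then (v (j : ℕ) - v (i : ℕ)) else 1 := by
      rw [← Finset.prod_filter, Finset.filter_lt_eq_Ioi]
    rw [e1, e2, Fin.prod_univ_castSucc]
    have e3 : (if Fin.castSucc i < Fin.last N then (v ((Fin.last N : Fin (N + 1)) : ℕ) - v (i : ℕ)) else 1)
        = v N - v (i : ℕ) := by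
      rw [if_pos (Fin.castSucc_lt_last i), Fin.val_last]
    rw [e3]
    congr 1
  rw [Finset.prod_congr rfl fun i _ => key i, Finset.prod_mul_distrib]
  congr 1
  exact Fin.prod_univ_eq_prod_range (fun j => v N - v j) N

end Q4
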