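import Pool.Agent.Lib.MP_216314_pr.Q4.ValA
import Pool.Agent.Lib.MP_216314_pr.Q4.ValB

/-!
# Expansion of the determinant

The columns of the matrix of `PhF (2m+4) (FF m) 1` are `choose (ee j) r` (`DD_X_pow`, `hh_one`) for `j < 2m+2`, and the last two are
`∑_{i ≤ m} (-1)^(m-i) choose m i * choose (3i) r` and `∑_{j ≤ m} (-1)^(m-j) choose m j * choose (3j+3) r`: `(X³-1)^m = ∑ (-1)^(m-i) choose m i X^(3i)` (`sub_eq_add_neg`, `add_pow`, or `Commute.add_pow`), `DD_sum`, `DD_C_mul`.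
Expand in these two columns. Each term is `det_choose` with `k j = ee j` (`j < 2m+2`), `3i`, `3j+3`, and its Vandermonde
determinant is `VE m * hE m (3i) * hE m (3j+3) * (3j+3 - 3i)` by `vdm_succ` twice. `(-1)^(m-i) (-1)^(m-j) = (-1)^(i+j)` for `i, j ≤ m`.
-/

set_option autoImplicit false

noncomputable section

namespace Q4

open Finset Polynomial

theorem vdm_val (m a b : ℕ) :
    (Matrix.vandermonde fun j : Fin (2 * m + 4) =>
      (((if (j : ℕ) < 2 * m + 2 then ee j else if (j : ℕ) = 2 * m + 2 then a else b : ℕ)) : ℂ)).det =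
      ((VE m * hE m a * hE m b * ((b : ℝ) - a) : ℝ) : ℂ) := by
  obtain ⟨v, hv⟩ : ∃ v : ℕ → ℂ, v = fun j => (((if j < 2 * m + 2 then ee j else
      if j = 2 * m + 2 then a else b : ℕ)) : ℂ) := ⟨_, rfl⟩
  have h0 : (Matrix.vandermonde fun j : Fin (2 * m + 4) =>
      (((if (j : ℕ) < 2 * m + 2 then ee j else if (j : ℕ) = 2 * m + 2 then a else b : ℕ)) : ℂ)).det =
      (Matrix.vandermonde fun j : Fin (2 * m + 3 + 1) => v j).det := by
    rw [hv]
  have hlt : ∀ j, j < 2 * m + 2 → v j = ((ee j : ℝ) : ℂ) := by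
    intro j hj
    rw [hv]
    simp only [if_pos hj]
    push_cast
    rfl
  have ha : v (2 * m + 2) = ((a : ℝ) : ℂ) := by
    rw [hv]
    simp
  have hb : v (2 * m + 3) = ((b : ℝ) : ℂ) := by
    rw [hv]
    simp
  have hprod : ∀ x : ℕ, ∏ j ∈ range (2 * m + 2), (((x : ℝ) : ℂ) - v j) = ((hE m x : ℝ) : ℂ) := by
    intro x
    unfold hE
    rw [Complex.ofReal_prod]
    refine Finset.prod_congr rfl fun j hj => ?_
    rw [hlt j (Finset.mem_range.1 hj), Complex.ofReal_sub]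
  have hVE : (Matrix.vandermonde fun j : Fin (2 * m + 2) => v j).det = ((VE m : ℝ) : ℂ) := by
    unfold VE
    rw [← Complex.ofRealHom_eq_coe, RingHom.map_det]
    congr 1
    ext i j
    rw [RingHom.mapMatrix_apply, Matrix.map_apply, Matrix.vandermonde_apply,
      Matrix.vandermonde_apply, map_pow, hlt i i.2, Complex.ofRealHom_eq_coe]
  have hlast : ∏ j ∈ range (2 * m + 3), (((b : ℝ) : ℂ) - v j) =
      ((hE m b : ℝ) : ℂ) * (((b : ℝ) : ℂ) - ((a : ℝ) : ℂ)) := by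
    rw [Finset.prod_range_succ (fun j => ((b : ℝ) : ℂ) - v j) (2 * m + 2), hprod, ha]
  rw [h0, vdm_succ, vdm_succ, hb, ha, hprod, hlast, hVE]
  push_cast
  ring

private theorem ValC_col {N : ℕ} (s : Finset ℕ) (c : Fin N) (M : Matrix (Fin N) (Fin N) ℂ)
    (p : ℕ → Fin N → ℂ) (w : ℕ → ℂ) :
    (M.updateCol c (fun i => ∑ k ∈ s, w k * p k i)).det =
      ∑ k ∈ s, w k * (M.updateCol c (p k)).det := by
  induction s using Finset.induction_on with
  | empty =>
    rw [Finset.sum_empty]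
    refine Matrix.det_eq_zero_of_column_eq_zero c fun i => ?_
    rw [Matrix.updateCol_self, Finset.sum_empty]
  | insert a s ha ih =>
    have e : (fun i => ∑ k ∈ insert a s, w k * p k i) =
        w a • p a + fun i => ∑ k ∈ s, w k * p k i := by
      funext i
      rw [Finset.sum_insert ha, Pi.add_apply, Pi.smul_apply, smul_eq_mul]
    rw [e, Matrix.det_updateCol_add, Matrix.det_updateCol_smul, ih, Finset.sum_insert ha]

private theorem ValC_pow (m : ℕ) : ((X : ℂ[X]) ^ 3 - 1) ^ m =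
    ∑ k ∈ range (m + 1), C ((-1) ^ (m - k) * (m.choose k : ℂ)) * X ^ (3 * k) := by
  rw [sub_eq_add_neg, add_pow]
  refine Finset.sum_congr rfl fun k _ => ?_
  rw [C_mul, C_pow, C_neg, C_1, C_eq_natCast, ← pow_mul]
  ring

private theorem ValC_pow' (m : ℕ) : (X : ℂ[X]) ^ 3 * ((X : ℂ[X]) ^ 3 - 1) ^ m =
    ∑ k ∈ range (m + 1), C ((-1) ^ (m - k) * (m.choose k : ℂ)) * X ^ (3 * k + 3) := by
  rw [ValC_pow, Finset.mul_sum]
  refine Finset.sum_congr rfl fun k _ => ?_
  rw [pow_add]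
  ring

private theorem ValC_sign (m k l : ℕ) (hk : k ≤ m) (hl : l ≤ m) :
    (-1 : ℝ) ^ (m - k) * (-1) ^ (m - l) = (-1) ^ (k + l) := by
  have h : ∀ t, t ≤ m → (-1 : ℝ) ^ (m - t) = (-1) ^ m * (-1) ^ t := by
    intro t ht
    obtain ⟨s, rfl⟩ := Nat.exists_eq_add_of_le ht
    rw [Nat.add_sub_cancel_left, pow_add]
    have h1 : ((-1 : ℝ) ^ t) * (-1) ^ t = 1 := by
      rw [← mul_pow]
      norm_num
    calc (-1 : ℝ) ^ s = (((-1 : ℝ) ^ t) * (-1) ^ t) * (-1) ^ s := by rw [h1, one_mul]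
      _ = _ := by ring
  have h2 : ((-1 : ℝ) ^ m) * (-1) ^ m = 1 := by
    rw [← mul_pow]
    norm_num
  rw [h k hk, h l hl, pow_add]
  calc (-1 : ℝ) ^ m * (-1) ^ k * ((-1) ^ m * (-1) ^ l) =
      (((-1 : ℝ) ^ m) * (-1) ^ m) * ((-1) ^ k * (-1) ^ l) := by ring
    _ = _ := by rw [h2, one_mul]

theorem PhF_expand (m : ℕ) :
    PhF (2 * m + 4) (FF m) (fun _ => 1) * ∏ l ∈ range (2 * m + 4), (l.factorial : ℂ) =
      ((VE m * SS m (fun i => hE m (3 * i)) : ℝ) : ℂ) := by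
  obtain ⟨c1, hc1⟩ : ∃ c : Fin (2 * m + 4), (c : ℕ) = 2 * m + 2 := ⟨⟨2 * m + 2, by omega⟩, rfl⟩
  obtain ⟨c2, hc2⟩ : ∃ c : Fin (2 * m + 4), (c : ℕ) = 2 * m + 3 := ⟨⟨2 * m + 3, by omega⟩, rfl⟩
  obtain ⟨w, hw⟩ : ∃ w : ℕ → ℂ, w = fun k => (-1) ^ (m - k) * (m.choose k : ℂ) := ⟨_, rfl⟩
  obtain ⟨M0, hM0⟩ : ∃ M0 : Matrix (Fin (2 * m + 4)) (Fin (2 * m + 4)) ℂ,
      M0 = Matrix.of fun i j : Fin (2 * m + 4) => ((ee j).choose i : ℂ) := ⟨_, rfl⟩
  have hDD : ∀ (i k : ℕ), DD (fun _ => 1) i (X ^ k) = (k.choose i : ℂ) := by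
    intro i k
    rw [DD_X_pow, hh_one]
  have hc12 : c1 ≠ c2 := by
    intro h
    rw [h, hc2] at hc1
    omega
  have hM : (Matrix.of fun i j : Fin (2 * m + 4) => DD (fun _ => 1) i (FF m j)) =
      (M0.updateCol c1 (fun i => ∑ k ∈ range (m + 1), w k * ((3 * k).choose i : ℂ))).updateCol c2
        (fun i => ∑ k ∈ range (m + 1), w k * ((3 * k + 3).choose i : ℂ)) := by
    ext i j
    rw [Matrix.of_apply]
    by_cases h2 : j = c2
    · rw [h2, Matrix.updateCol_self]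
      have hF : FF m c2 = X ^ 3 * (X ^ 3 - 1) ^ m := by
        unfold FF
        rw [if_neg (by omega), if_neg (by omega)]
      rw [hF, ValC_pow', DD_sum, hw]
      refine Finset.sum_congr rfl fun k _ => ?_
      rw [DD_C_mul, hDD]
    · rw [Matrix.updateCol_ne h2]
      by_cases h1 : j = c1
      · rw [h1, Matrix.updateCol_self]
        have hF : FF m c1 = (X ^ 3 - 1) ^ m := by
          unfold FF
          rw [if_neg (by omega), if_pos (by omega)]
        rw [hF, ValC_pow, DD_sum, hw]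
        refine Finset.sum_congr rfl fun k _ => ?_
        rw [DD_C_mul, hDD]
      · rw [Matrix.updateCol_ne h1, hM0, Matrix.of_apply]
        have hj1 : (j : ℕ) ≠ 2 * m + 2 := fun h => h1 (Fin.ext (h.trans hc1.symm))
        have hj2 : (j : ℕ) ≠ 2 * m + 3 := fun h => h2 (Fin.ext (h.trans hc2.symm))
        have hj : (j : ℕ) < 2 * m + 2 := by
          have := j.2
          omega
        have hF : FF m j = X ^ (ee j) := by
          unfold FF
          rw [if_pos hj]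
        rw [hF, hDD]
  have hterm : ∀ k l : ℕ,
      ((M0.updateCol c2 (fun i => ((3 * l + 3).choose i : ℂ))).updateCol c1
        (fun i => ((3 * k).choose i : ℂ))).det * ∏ t ∈ range (2 * m + 4), (t.factorial : ℂ) =
      ((VE m * hE m ((3 * k : ℕ) : ℝ) * hE m ((3 * l + 3 : ℕ) : ℝ) *
        (((3 * l + 3 : ℕ) : ℝ) - ((3 * k : ℕ) : ℝ)) : ℝ) : ℂ) := by
    intro k l
    rw [← vdm_val m (3 * k) (3 * l + 3)]
    have h := det_choose (2 * m + 4) (fun j => if j < 2 * m + 2 then ee j else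
      if j = 2 * m + 2 then 3 * k else 3 * l + 3)
    rw [← h]
    congr 2
    ext i j
    rw [Matrix.of_apply]
    by_cases h1 : j = c1
    · rw [h1, Matrix.updateCol_self, hc1, if_neg (by omega), if_pos rfl]
    · rw [Matrix.updateCol_ne h1]
      by_cases h2 : j = c2
      · rw [h2, Matrix.updateCol_self, hc2, if_neg (by omega), if_neg (by omega)]
      · rw [Matrix.updateCol_ne h2, hM0, Matrix.of_apply]
        have hj1 : (j : ℕ) ≠ 2 * m + 2 := fun h => h1 (Fin.ext (h.trans hc1.symm))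
        have hj2 : (j : ℕ) ≠ 2 * m + 3 := fun h => h2 (Fin.ext (h.trans hc2.symm))
        have hj : (j : ℕ) < 2 * m + 2 := by
          have := j.2
          omega
        rw [if_pos hj]
  have hcomm : ∀ (p q : Fin (2 * m + 4) → ℂ), (M0.updateCol c1 p).updateCol c2 q =
      (M0.updateCol c2 q).updateCol c1 p := by
    intro p q
    ext i j
    by_cases h1 : j = c1
    · rw [h1, Matrix.updateCol_self, Matrix.updateCol_ne hc12, Matrix.updateCol_self]
    · rw [Matrix.updateCol_ne h1]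
      by_cases h2 : j = c2
      · rw [h2, Matrix.updateCol_self, Matrix.updateCol_self]
      · rw [Matrix.updateCol_ne h2, Matrix.updateCol_ne h2, Matrix.updateCol_ne h1]
  unfold PhF
  rw [hM]
  rw [ValC_col (range (m + 1)) c2 _ (fun k i => ((3 * k + 3).choose i : ℂ)) w, Finset.sum_mul]
  have hl : ∀ l, ((M0.updateCol c1 (fun i => ∑ k ∈ range (m + 1),
      w k * ((3 * k).choose i : ℂ))).updateCol c2 (fun i => ((3 * l + 3).choose i : ℂ))).det *
      ∏ t ∈ range (2 * m + 4), (t.factorial : ℂ) =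
      ∑ k ∈ range (m + 1), w k * ((VE m * hE m ((3 * k : ℕ) : ℝ) * hE m ((3 * l + 3 : ℕ) : ℝ) *
        (((3 * l + 3 : ℕ) : ℝ) - ((3 * k : ℕ) : ℝ)) : ℝ) : ℂ) := by
    intro l
    rw [hcomm, ValC_col (range (m + 1)) c1 _ (fun k i => ((3 * k).choose i : ℂ)) w,
      Finset.sum_mul]
    refine Finset.sum_congr rfl fun k _ => ?_
    rw [mul_assoc, hterm]
  have hl' : ∀ l, w l * ((M0.updateCol c1 (fun i => ∑ k ∈ range (m + 1),
      w k * ((3 * k).choose i : ℂ))).updateCol c2 (fun i => ((3 * l + 3).choose i : ℂ))).det *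
      ∏ t ∈ range (2 * m + 4), (t.factorial : ℂ) =
      ∑ k ∈ range (m + 1), w l * (w k * ((VE m * hE m ((3 * k : ℕ) : ℝ) *
        hE m ((3 * l + 3 : ℕ) : ℝ) *
        (((3 * l + 3 : ℕ) : ℝ) - ((3 * k : ℕ) : ℝ)) : ℝ) : ℂ)) := by
    intro l
    rw [mul_assoc, hl, Finset.mul_sum]
  rw [Finset.sum_congr rfl fun l _ => hl' l, Finset.sum_comm]
  unfold SS
  rw [Finset.mul_sum, Complex.ofReal_sum]
  refine Finset.sum_congr rfl fun k hk => ?_
  rw [Finset.mul_sum, Complex.ofReal_sum]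
  refine Finset.sum_congr rfl fun l hl => ?_
  have hk' : k ≤ m := Nat.lt_succ_iff.1 (Finset.mem_range.1 hk)
  have hl'' : l ≤ m := Nat.lt_succ_iff.1 (Finset.mem_range.1 hl)
  have e1 : (((3 * k : ℕ) : ℝ)) = 3 * (k : ℝ) := by push_cast; ring
  have e2 : (((3 * l + 3 : ℕ) : ℝ)) = 3 * ((l + 1 : ℕ) : ℝ) := by push_cast; ring
  have hwk : ∀ t, w t = (((-1 : ℝ) ^ (m - t) * (m.choose t : ℝ) : ℝ) : ℂ) := by
    intro t
    rw [hw]
    push_cast
    rfl
  rw [hwk, hwk, ← Complex.ofReal_mul, ← Complex.ofReal_mul, Complex.ofReal_inj, e1, e2,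
    ← ValC_sign m k l hk' hl'']
  push_cast
  ring

end Q4
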