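import Pool.Agent.Lib.MP_216314_pr.Q4.ValD

/-!
# The double sum for even `m`

`m = 2n`, `M = m + 1` odd, `h i = (3i)! (3(M-i))!/(3^M i! (M-i)!)`, so `h (M-i) = h i`. Put `A0 = ∑_{i≤m} (-1)^i choose m i h i`, `A1 = ∑_{i≤m} (-1)^i choose m i i h i`. In the double sum replace `j` by `m - j` (`Finset.sum_range_reflect`):
`(-1)^(m-j) = (-1)^j` (`m` even), `choose m (m-j) = choose m j`, `h (m-j+1) = h (M-j) = h j`, `3 (m-j+1) - 3 i = 3 (M - j - i)`: `SS = 3 ∑∑ (-1)^(i+j) c_i c_j (M - i - j) h_i h_j = 3 (M A0² - 2 A0 A1) = 3 A0 (M A0 - 2 A1)`.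
`choose m i * h i = (m!/3^M) (M-i) a_i a_{M-i}` for `i ≤ m` (`(M-i)! = (M-i) (m-i)!`). So `A0 = (m!/3^M) ∑_{i≤M} (-1)^i (M-i) a_i a_{M-i}` (the term `i = M` is zero) `= (m!/3^M) T/2` (reflect `i ↦ M-i`, `(-1)^(M-i) = -(-1)^i`, add the
two forms), and `M A0 - 2 A1 = (m!/3^M) ∑_{i≤M} (-1)^i (M-2i)(M-i) a_i a_{M-i} = (m!/3^M) M T/2` (same reflection). Hence `SS = 3 (m!/3^M)² M T²/4`.
-/

set_option autoImplicit false

noncomputable section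

namespace Q4

open Finset

private theorem ValG_dbl (N : ℕ) (M : ℝ) (c : ℕ → ℝ) :
    ∑ i ∈ range N, ∑ j ∈ range N, 3 * ((M - i - j) * (c i * c j)) =
      3 * (∑ i ∈ range N, c i) * (M * (∑ i ∈ range N, c i) - 2 * ∑ i ∈ range N, (i:ℝ) * c i) := by
  have h1 : (∑ i ∈ range N, c i) * (∑ j ∈ range N, c j) =
      ∑ i ∈ range N, ∑ j ∈ range N, c i * c j := Finset.sum_mul_sum _ _ _ _
  have h2 : (∑ i ∈ range N, (i:ℝ) * c i) * (∑ j ∈ range N, c j) =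
      ∑ i ∈ range N, ∑ j ∈ range N, ((i:ℝ) * c i) * c j := Finset.sum_mul_sum _ _ _ _
  have h3 : (∑ i ∈ range N, c i) * (∑ j ∈ range N, (j:ℝ) * c j) =
      ∑ i ∈ range N, ∑ j ∈ range N, c i * ((j:ℝ) * c j) := Finset.sum_mul_sum _ _ _ _
  have h4 : ∑ i ∈ range N, ∑ j ∈ range N, 3 * ((M - i - j) * (c i * c j)) =
      3 * (M * ((∑ i ∈ range N, c i) * (∑ j ∈ range N, c j)) -
        (∑ i ∈ range N, (i:ℝ) * c i) * (∑ j ∈ range N, c j) -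
        (∑ i ∈ range N, c i) * (∑ j ∈ range N, (j:ℝ) * c j)) := by
    rw [h1, h2, h3]
    simp only [Finset.mul_sum, ← Finset.sum_sub_distrib]
    refine sum_congr rfl fun i _ => sum_congr rfl fun j _ => by ring
  rw [h4]; ring

private theorem ValG_sq (j : ℕ) : (-1:ℝ) ^ j * (-1) ^ j = 1 := by
  rw [← pow_add]
  exact Even.neg_one_pow ⟨j, rfl⟩

private theorem ValG_even (n j : ℕ) (hj : j ≤ 2 * n) : (-1:ℝ) ^ (2 * n - j) = (-1) ^ j := by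
  have h1 : (-1:ℝ) ^ (2 * n - j) * (-1) ^ j = 1 := by
    rw [← pow_add, Nat.sub_add_cancel hj]
    exact Even.neg_one_pow ⟨n, by ring⟩
  have h2 := ValG_sq j
  calc (-1:ℝ) ^ (2 * n - j) = (-1:ℝ) ^ (2 * n - j) * ((-1) ^ j * (-1) ^ j) := by rw [h2, mul_one]
    _ = ((-1:ℝ) ^ (2 * n - j) * (-1) ^ j) * (-1) ^ j := by ring
    _ = (-1) ^ j := by rw [h1, one_mul]

private theorem ValG_odd (n j : ℕ) (hj : j ≤ 2 * n + 1) :
    (-1:ℝ) ^ (2 * n + 1 - j) = - (-1) ^ j := by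
  have h1 : (-1:ℝ) ^ (2 * n + 1 - j) * (-1) ^ j = -1 := by
    rw [← pow_add, Nat.sub_add_cancel hj]
    exact Odd.neg_one_pow ⟨n, rfl⟩
  have h2 := ValG_sq j
  calc (-1:ℝ) ^ (2 * n + 1 - j) = (-1:ℝ) ^ (2 * n + 1 - j) * ((-1) ^ j * (-1) ^ j) := by
        rw [h2, mul_one]
    _ = ((-1:ℝ) ^ (2 * n + 1 - j) * (-1) ^ j) * (-1) ^ j := by ring
    _ = - (-1) ^ j := by rw [h1]; ring

private theorem ValG_refl (n : ℕ) (w : ℝ → ℝ) :
    ∑ i ∈ range (2 * n + 1 + 1), (-1:ℝ) ^ i * (w i * (aa i * aa (2 * n + 1 - i))) =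
    - ∑ i ∈ range (2 * n + 1 + 1),
      (-1:ℝ) ^ i * (w (2 * (n:ℝ) + 1 - i) * (aa i * aa (2 * n + 1 - i))) := by
  rw [← Finset.sum_range_reflect, ← Finset.sum_neg_distrib]
  refine sum_congr rfl fun i hi => ?_
  have hi' : i ≤ 2 * n + 1 := by
    have := Finset.mem_range.mp hi
    omega
  have q1 : 2 * n + 1 + 1 - 1 - i = 2 * n + 1 - i := by omega
  have q2 : 2 * n + 1 - (2 * n + 1 - i) = i := by omega
  rw [q1, q2]
  have q3 : ((2 * n + 1 - i : ℕ) : ℝ) = 2 * (n:ℝ) + 1 - i := by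
    rw [Nat.cast_sub hi']; push_cast; ring
  rw [q3, ValG_odd n i hi']
  ring

private theorem ValG_ch (n : ℕ) (h : ℕ → ℝ) (hh : ∀ i, i ≤ 2 * n + 1 → h i =
    ((3 * i).factorial : ℝ) * ((3 * (2 * n + 1 - i)).factorial : ℝ) /
      (3 ^ (2 * n + 1) * ((i.factorial : ℝ) * ((2 * n + 1 - i).factorial : ℝ))))
    (i : ℕ) (hi : i ≤ 2 * n) :
    (((2 * n).choose i : ℕ) : ℝ) * h i = ((2 * n).factorial : ℝ) / 3 ^ (2 * n + 1) *
      ((2 * (n:ℝ) + 1 - i) * (aa i * aa (2 * n + 1 - i))) := by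
  rw [hh i (by omega)]
  unfold aa
  have h1 : (((2 * n).choose i : ℕ) : ℝ) =
      ((2 * n).factorial : ℝ) / ((i.factorial : ℝ) * ((2 * n - i).factorial : ℝ)) :=
    Nat.cast_choose ℝ hi
  rw [h1]
  have h2 : (2 * n + 1 - i) = (2 * n - i) + 1 := by omega
  have h3 : ((2 * n + 1 - i).factorial : ℝ) =
      (2 * (n:ℝ) + 1 - i) * ((2 * n - i).factorial : ℝ) := by
    rw [h2, Nat.factorial_succ]
    push_cast
    rw [Nat.cast_sub hi]
    push_cast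
    ring
  have h4 : 2 * (n:ℝ) + 1 - i ≠ 0 := by
    have : (i : ℝ) ≤ 2 * n := by exact_mod_cast hi
    have h0 : (0:ℝ) < 2 * (n:ℝ) + 1 - i := by linarith
    exact ne_of_gt h0
  have h5 : (i.factorial : ℝ) ≠ 0 := by positivity
  have h6 : ((2 * n - i).factorial : ℝ) ≠ 0 := by positivity
  rw [h3]
  generalize ((3 * (2 * n + 1 - i)).factorial : ℝ) = P
  generalize ((3 * i).factorial : ℝ) = Q
  generalize ((2 * n - i).factorial : ℝ) = R at h6 ⊢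
  generalize (i.factorial : ℝ) = S at h5 ⊢
  generalize 2 * (n:ℝ) + 1 - i = U at h4 ⊢
  field_simp

private theorem ValG_SS (n : ℕ) (h : ℕ → ℝ) (hh : ∀ i, i ≤ 2 * n + 1 → h i =
    ((3 * i).factorial : ℝ) * ((3 * (2 * n + 1 - i)).factorial : ℝ) /
      (3 ^ (2 * n + 1) * ((i.factorial : ℝ) * ((2 * n + 1 - i).factorial : ℝ)))) :
    SS (2 * n) h = ∑ i ∈ range (2 * n + 1), ∑ j ∈ range (2 * n + 1),
      3 * (((2 * (n:ℝ) + 1) - i - j) * (((-1) ^ i * ((((2 * n).choose i : ℕ) : ℝ) * h i)) *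
        ((-1) ^ j * ((((2 * n).choose j : ℕ) : ℝ) * h j)))) := by
  unfold SS
  refine sum_congr rfl fun i hi => ?_
  rw [← Finset.sum_range_reflect]
  refine sum_congr rfl fun j hj => ?_
  have hj' : j ≤ 2 * n := by
    have := Finset.mem_range.mp hj
    omega
  have q1 : 2 * n + 1 - 1 - j = 2 * n - j := by omega
  rw [q1, Nat.choose_symm hj', pow_add, ValG_even n j hj', Nat.cast_sub hj']
  have q2 : h (2 * n - j + 1) = h j := by
    rw [hh (2 * n - j + 1) (by omega), hh j (by omega)]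
    have a1 : 2 * n + 1 - (2 * n - j + 1) = j := by omega
    have a2 : 2 * n + 1 - j = 2 * n - j + 1 := by omega
    rw [a1, a2, mul_comm (((3 * (2 * n - j + 1)).factorial : ℕ) : ℝ),
      mul_comm (((2 * n - j + 1).factorial : ℕ) : ℝ)]
  rw [q2]
  push_cast
  ring

theorem SS_val (n : ℕ) (h : ℕ → ℝ) (hh : ∀ i, i ≤ 2 * n + 1 → h i =
    ((3 * i).factorial : ℝ) * ((3 * (2 * n + 1 - i)).factorial : ℝ) /
      (3 ^ (2 * n + 1) * ((i.factorial : ℝ) * ((2 * n + 1 - i).factorial : ℝ)))) :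
    SS (2 * n) h = 3 * ((2 * n).factorial : ℝ) ^ 2 * (2 * (n : ℝ) + 1) * Tw (2 * n + 1) ^ 2 / (4 * 9 ^ (2 * n + 1)) := by
  rw [ValG_SS n h hh]
  have hc : ∀ i ∈ range (2 * n + 1), (-1:ℝ) ^ i * ((((2 * n).choose i : ℕ) : ℝ) * h i) =
      ((2 * n).factorial : ℝ) / 3 ^ (2 * n + 1) *
      ((-1:ℝ) ^ i * ((2 * (n:ℝ) + 1 - i) * (aa i * aa (2 * n + 1 - i)))) := by
    intro i hi
    have hi' : i ≤ 2 * n := by
      have := Finset.mem_range.mp hi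
      omega
    rw [ValG_ch n h hh i hi']
    ring
  rw [ValG_dbl (2 * n + 1) (2 * (n:ℝ) + 1)
    (fun i => (-1:ℝ) ^ i * ((((2 * n).choose i : ℕ) : ℝ) * h i))]
  have hA0 : ∑ i ∈ range (2 * n + 1), (-1:ℝ) ^ i * ((((2 * n).choose i : ℕ) : ℝ) * h i) =
      ((2 * n).factorial : ℝ) / 3 ^ (2 * n + 1) *
      ∑ i ∈ range (2 * n + 1 + 1),
        (-1:ℝ) ^ i * ((2 * (n:ℝ) + 1 - i) * (aa i * aa (2 * n + 1 - i))) := by
    rw [Finset.sum_range_succ _ (2 * n + 1), mul_add, Finset.mul_sum, Finset.sum_congr rfl hc]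
    push_cast
    ring
  have hA1 : ∑ i ∈ range (2 * n + 1),
      (i:ℝ) * ((-1:ℝ) ^ i * ((((2 * n).choose i : ℕ) : ℝ) * h i)) =
      ((2 * n).factorial : ℝ) / 3 ^ (2 * n + 1) *
      ∑ i ∈ range (2 * n + 1 + 1),
        (-1:ℝ) ^ i * (((i:ℝ) * (2 * (n:ℝ) + 1 - i)) * (aa i * aa (2 * n + 1 - i))) := by
    rw [Finset.sum_range_succ _ (2 * n + 1), mul_add, Finset.mul_sum]
    have e : ∀ i ∈ range (2 * n + 1),
        (i:ℝ) * ((-1:ℝ) ^ i * ((((2 * n).choose i : ℕ) : ℝ) * h i)) =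
        ((2 * n).factorial : ℝ) / 3 ^ (2 * n + 1) *
        ((-1:ℝ) ^ i * (((i:ℝ) * (2 * (n:ℝ) + 1 - i)) * (aa i * aa (2 * n + 1 - i)))) := by
      intro i hi
      rw [hc i hi]
      ring
    rw [Finset.sum_congr rfl e]
    push_cast
    ring
  rw [hA0, hA1]
  have r1 := ValG_refl n (fun x => 2 * (n:ℝ) + 1 - x)
  have r2 := ValG_refl n (fun x => (2 * (n:ℝ) + 1 - x) * (2 * (n:ℝ) + 1 - 2 * x))
  simp only [sub_sub_cancel] at r1 r2
  have hT : Tw (2 * n + 1) = 2 * ∑ i ∈ range (2 * n + 1 + 1),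
        (-1:ℝ) ^ i * ((2 * (n:ℝ) + 1 - i) * (aa i * aa (2 * n + 1 - i))) := by
    rw [two_mul (∑ i ∈ range (2 * n + 1 + 1), _)]
    nth_rewrite 2 [r1]
    rw [← sub_eq_add_neg, ← Finset.sum_sub_distrib]
    unfold Tw
    refine sum_congr rfl fun i _ => ?_
    push_cast
    ring
  have hB : (2 * (n:ℝ) + 1) * Tw (2 * n + 1) = 2 * ∑ i ∈ range (2 * n + 1 + 1),
        (-1:ℝ) ^ i * ((2 * (n:ℝ) + 1 - i) * (2 * (n:ℝ) + 1 - 2 * i) *
          (aa i * aa (2 * n + 1 - i))) := by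
    rw [two_mul (∑ i ∈ range (2 * n + 1 + 1), _)]
    nth_rewrite 2 [r2]
    rw [← sub_eq_add_neg, ← Finset.sum_sub_distrib]
    unfold Tw
    rw [Finset.mul_sum]
    refine sum_congr rfl fun i _ => ?_
    push_cast
    ring
  have hC : (2 * (n:ℝ) + 1) * (∑ i ∈ range (2 * n + 1 + 1),
        (-1:ℝ) ^ i * ((2 * (n:ℝ) + 1 - i) * (aa i * aa (2 * n + 1 - i)))) -
      2 * (∑ i ∈ range (2 * n + 1 + 1),
        (-1:ℝ) ^ i * (((i:ℝ) * (2 * (n:ℝ) + 1 - i)) * (aa i * aa (2 * n + 1 - i)))) =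
      ∑ i ∈ range (2 * n + 1 + 1),
        (-1:ℝ) ^ i * ((2 * (n:ℝ) + 1 - i) * (2 * (n:ℝ) + 1 - 2 * i) *
          (aa i * aa (2 * n + 1 - i))) := by
    rw [Finset.mul_sum, Finset.mul_sum, ← Finset.sum_sub_distrib]
    refine sum_congr rfl fun i _ => ?_
    ring
  generalize (∑ i ∈ range (2 * n + 1 + 1),
        (-1:ℝ) ^ i * ((2 * (n:ℝ) + 1 - i) * (aa i * aa (2 * n + 1 - i)))) = X at hT hC ⊢
  generalize (∑ i ∈ range (2 * n + 1 + 1),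
        (-1:ℝ) ^ i * (((i:ℝ) * (2 * (n:ℝ) + 1 - i)) * (aa i * aa (2 * n + 1 - i)))) = Y at hC ⊢
  generalize (∑ i ∈ range (2 * n + 1 + 1),
        (-1:ℝ) ^ i * ((2 * (n:ℝ) + 1 - i) * (2 * (n:ℝ) + 1 - 2 * i) *
          (aa i * aa (2 * n + 1 - i)))) = Z at hB hC
  have h9 : (9:ℝ) ^ (2 * n + 1) = 3 ^ (2 * n + 1) * 3 ^ (2 * n + 1) := by
    rw [← mul_pow]; norm_num
  rw [h9]
  have hX : X = Tw (2 * n + 1) / 2 := by linarith
  have hZ : Z = (2 * (n:ℝ) + 1) * Tw (2 * n + 1) / 2 := by linarith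
  have hY : 2 * Y = (2 * (n:ℝ) + 1) * X - Z := by linarith
  have h3 : (3:ℝ) ^ (2 * n + 1) ≠ 0 := by positivity
  generalize (3:ℝ) ^ (2 * n + 1) = p at h3 ⊢
  generalize ((2 * n).factorial : ℝ) = F
  have hfin : 3 * (F / p * X) * ((2 * (n:ℝ) + 1) * (F / p * X) - 2 * (F / p * Y)) =
      3 * (F / p) ^ 2 * X * ((2 * (n:ℝ) + 1) * X - 2 * Y) := by ring
  rw [hfin, hY]
  have h5 : (2 * (n:ℝ) + 1) * X - ((2 * (n:ℝ) + 1) * X - Z) = Z := by ring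
  rw [h5, hX, hZ]
  field_simp
  ring

end Q4
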