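import Pool.Agent.Lib.MP_216314_pr.Q4.Hom4
import Pool.Agent.Lib.MP_216314_pr.Q4.ValC
import Pool.Agent.Lib.MP_216314_pr.Q4.ValF
import Pool.Agent.Lib.MP_216314_pr.Q4.ValG
import Pool.Agent.Lib.MP_216314_pr.Q.QFin

/-!
# The exact four-leg value

`m = 2n`, `M = 2n+1`. `hom_value`, `PhF_FF`, `PhF_expand`, `hE_val` (`m + 1 - i = 2n+1-i`), `SS_val`, `VE_val`: `3 * PhF = 3 VE SS/∏ l!`,
`= 3 * [An (2n+2) 3^((2n+1) 2n/2)/((2n+1)! (6n+4)!)] * [3 (2n)!² (2n+1) T²/(4 9^(2n+1))]`, and `EE_neg_one`: `3^((n+1)(2n+1)) An (2n+2)`; `(2n+1) 2n/2 = n (2n+1)`, `(n+1)(2n+1) = n (2n+1) + (2n+1)`, so the quotient is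
`9 (2n)!² (2n+1) T²/(4 9^(2n+1) 3^(2n+1) (2n+1)! (6n+4)!) = rr n` (`(2n+1)! = (2n+1) (2n)!`).
-/

set_option autoImplicit false

noncomputable section

namespace Q4

open Finset CY

private theorem ValH_alg (N9 N3 N0 A B T An Pr g : ℝ) (h9 : N9 ≠ 0) (h3 : N3 ≠ 0) (hA : A ≠ 0) (hB : B ≠ 0)
    (hg : g ≠ 0) : 3 * (An * N0 * Pr / (g * A * B) * (3 * A ^ 2 * g * T ^ 2 / (4 * N9))) =
      9 * A * T ^ 2 / (4 * (N9 * N3) * B) * (N0 * N3 * An) * Pr := by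
  field_simp
  ring

/-- the real identity -/
private theorem ValH_real (n : ℕ) (Pr : ℝ) (_hPr : Pr ≠ 0)
    (hP : Pr = ∏ l ∈ range (2 * (2 * n) + 4), (l.factorial : ℝ)) :
    3 * (VE (2 * n) * SS (2 * n) (fun i => hE (2 * n) (3 * i))) =
      (rr n * (3 ^ ((n + 1) * (2 * n + 1)) * CYQ.An (2 * n + 2))) * Pr := by
  have h1 := SS_val n (fun i => hE (2 * n) (3 * i)) (fun i hi => hE_val (2 * n) i hi)
  have h2 := VE_val (2 * n)
  rw [← hP] at h2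
  have e1 : (2 * n + 1) * (2 * n) / 2 = n * (2 * n + 1) := by
    rw [show (2 * n + 1) * (2 * n) = 2 * (n * (2 * n + 1)) by ring]
    exact Nat.mul_div_cancel_left _ (by norm_num)
  have e2 : 3 * (2 * n) + 4 = 6 * n + 4 := by ring
  have e3 : (n + 1) * (2 * n + 1) = n * (2 * n + 1) + (2 * n + 1) := by ring
  rw [e1, e2] at h2
  have e4 : (3 : ℝ) ^ ((n + 1) * (2 * n + 1)) = 3 ^ (n * (2 * n + 1)) * 3 ^ (2 * n + 1) := by
    rw [e3, pow_add]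
  rw [h1, e4]
  have f1 : (((2 * n + 1).factorial : ℕ) : ℝ) = (2 * (n : ℝ) + 1) * ((2 * n).factorial : ℝ) := by
    rw [Nat.factorial_succ]
    push_cast
    ring
  rw [f1] at h2
  have g1 : (((2 * n).factorial : ℕ) : ℝ) ≠ 0 := by exact_mod_cast Nat.factorial_ne_zero _
  have g2 : (((6 * n + 4).factorial : ℕ) : ℝ) ≠ 0 := by exact_mod_cast Nat.factorial_ne_zero _
  have g3 : (2 * (n : ℝ) + 1) ≠ 0 := by positivity
  have h27 : (27 : ℝ) ^ (2 * n + 1) = 9 ^ (2 * n + 1) * 3 ^ (2 * n + 1) := by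
    rw [← mul_pow]
    norm_num
  have hVE : VE (2 * n) = CYQ.An (2 * n + 2) * 3 ^ (n * (2 * n + 1)) * Pr /
      ((2 * (n : ℝ) + 1) * ((2 * n).factorial : ℝ) * ((6 * n + 4).factorial : ℝ)) := by
    rw [eq_div_iff (mul_ne_zero (mul_ne_zero g3 g1) g2)]
    exact h2
  have h9 : (9 : ℝ) ^ (2 * n + 1) ≠ 0 := by positivity
  have h3 : (3 : ℝ) ^ (2 * n + 1) ≠ 0 := by positivity
  unfold rr
  rw [h27, hVE]
  exact ValH_alg _ _ _ _ _ _ _ _ _ h9 h3 g1 g2 g3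

/-- exact value: four legs = `rr n` times the value at fugacity `-1` -/
theorem four_value (n : ℕ) {q : ℂ} (hq : q ^ 2 + q + 1 = 0) {Pb P : Pat (2 * n + 2) → MvPolynomial ℕ ℂ}
    (hPb : IsPsi (q ^ 2) (2 * n + 2) Pb) (hP : IsPsi q (2 * n + 2) P) :
    WB 2 2 (ev Pb fun _ => 1) (ev P fun _ => 1) = (rr n : ℂ) * EE (-1) Pb P (fun _ => 1) := by
  have h1 := hom_value n hq hPb hP
  have h2 := CYQ.EE_neg_one hq n hPb hP
  have e : 4 * n + 4 = 2 * (2 * n) + 4 := by ring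
  rw [h1, h2, e, PhF_FF]
  have h3 := PhF_expand (2 * n)
  obtain ⟨Pr, hPr⟩ : ∃ Pr : ℝ, Pr = ∏ l ∈ range (2 * (2 * n) + 4), (l.factorial : ℝ) := ⟨_, rfl⟩
  have hPr0 : Pr ≠ 0 := by
    rw [hPr]
    exact Finset.prod_ne_zero_iff.mpr fun l _ => by exact_mod_cast Nat.factorial_ne_zero l
  have h4 := ValH_real n Pr hPr0 hPr
  have h5 : (∏ l ∈ range (2 * (2 * n) + 4), (l.factorial : ℂ)) = (Pr : ℂ) := by
    rw [hPr]
    push_cast
    rfl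
  rw [h5] at h3
  have h6 := congrArg Complex.ofReal h4
  rw [Complex.ofReal_mul, Complex.ofReal_mul _ Pr] at h6
  rw [← h3] at h6
  have hPc : (Pr : ℂ) ≠ 0 := by exact_mod_cast hPr0
  apply mul_right_cancel₀ hPc
  push_cast at h6 ⊢
  linear_combination h6

end Q4
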