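import Pool.Agent.Lib.MP_216314_pr.Q4.ValD

/-!
# The recurrence of the alternating sum (Zeilberger)

`F M i = (-1)^i (M-2i) a_i a_{M-i}`, `a_{k+1} = a_k * 3 (3k+1)(3k+2)/(k+1)`. With `k = M - i`, `c = 81 (3M+5)(3M+7)(M+2)/(M+3)`,
`Q = (945 M + 1602 M² + 891 M³ + 162 M⁴) - (1431 + 3447 M + 2511 M² + 567 M³) i + (1053 + 1620 M + 567 M²) i² - 162 (1+M) i³` divided by `(M+1)(M+3)`:
(*) `-(3i+1)(3i+2)(k+2) Q(M,i+1) - i (3k+1)(3k+2) Q(M,i) = 9 (M+2-2i)(3k+1)(3k+2)(3k+4)(3k+5) - c (M-2i)(k+1)(k+2)` (polynomial identity with `M = i + k`, checked).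
Put `G i = (-1)^i a_i a_k i (3k+1)(3k+2) Q(M,i)/((k+1)(k+2))`. Then `G (i+1) = -(-1)^i a_i a_k (3i+1)(3i+2) Q(M,i+1)/(k+1)` (for `i < M`; for `i = M`, `k = 0`, take this as the definition of `G (M+1)`), and (*) says
`G (i+1) - G i = F (M+2) i - c F M i` for `0 ≤ i ≤ M`. Sum over `i ≤ M` (`Finset.sum_range_sub`-like induction): `∑_{i≤M} F (M+2) i - c T M = -(-1)^M a_M (3M+1)(3M+2) Q(M,M+1)` (`G 0 = 0`). Finally
`F (M+2) (M+1) + F (M+2) (M+2) = (-1)^M (6 M a_{M+1} - (M+2) a_{M+2})` and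
`6 M a_{M+1} - (M+2) a_{M+2} = a_M (3M+1)(3M+2) Q(M,M+1)` (field_simp; ring). (In Lean: prove by induction on `s ≤ M` that the partial sum over `i < s` is `G s` in the form without division by `M - s + 1`.)
-/

set_option autoImplicit false

noncomputable section

namespace Q4

open Finset

theorem aa_succ (k : ℕ) : aa (k + 1) = aa k * (3 * (3 * (k : ℝ) + 1) * (3 * k + 2) / (k + 1)) := by
  unfold aa
  have h3 : ((3 * (k + 1)).factorial : ℝ) =
      (3 * (k : ℝ) + 3) * (3 * k + 2) * (3 * k + 1) * ((3 * k).factorial : ℝ) := by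
    have e : 3 * (k + 1) = 3 * k + 1 + 1 + 1 := by ring
    rw [e, Nat.factorial_succ, Nat.factorial_succ, Nat.factorial_succ]
    push_cast
    ring
  have h1 : ((k + 1).factorial : ℝ) = ((k : ℝ) + 1) * (k.factorial : ℝ) := by
    rw [Nat.factorial_succ]
    push_cast
    ring
  have hk : (k.factorial : ℝ) ≠ 0 := by exact_mod_cast Nat.factorial_ne_zero k
  have hk1 : (k : ℝ) + 1 ≠ 0 := by positivity
  rw [h3, h1]
  field_simp

/-- certificate -/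
private def ValW_Q (M x : ℝ) : ℝ :=
  ((945 * M + 1602 * M ^ 2 + 891 * M ^ 3 + 162 * M ^ 4) -
    (1431 + 3447 * M + 2511 * M ^ 2 + 567 * M ^ 3) * x +
    (1053 + 1620 * M + 567 * M ^ 2) * x ^ 2 - 162 * (1 + M) * x ^ 3) / ((M + 1) * (M + 3))

private theorem ValW_id (x y : ℝ) (hx : 0 ≤ x) (hy : 0 ≤ y) :
    -(3 * x + 1) * (3 * x + 2) * (y + 2) * ValW_Q (x + y) (x + 1) -
      x * (3 * y + 1) * (3 * y + 2) * ValW_Q (x + y) x =
    9 * (x + y + 2 - 2 * x) * (3 * y + 1) * (3 * y + 2) * (3 * y + 4) * (3 * y + 5) -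
      81 * (3 * (x + y) + 5) * (3 * (x + y) + 7) * (x + y + 2) / (x + y + 3) *
        (x + y - 2 * x) * (y + 1) * (y + 2) := by
  unfold ValW_Q
  have h1 : x + y + 1 ≠ 0 := by positivity
  have h3 : x + y + 3 ≠ 0 := by positivity
  field_simp
  ring

private theorem ValW_step (x y A B : ℝ) (hx : 0 ≤ x) (hy : 0 ≤ y) :
    -(A * (B * (3 * (3 * y + 1) * (3 * y + 2) / (y + 1))) * (3 * x + 1) * (3 * x + 2) *
      ValW_Q (x + 1 + y) (x + 1) / (y + 2)) -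
    ((x + 1 + y + 2 - 2 * (x + 1)) * ((A * (3 * (3 * x + 1) * (3 * x + 2) / (x + 1))) *
      (B * (3 * (3 * y + 1) * (3 * y + 2) / (y + 1)) *
        (3 * (3 * (y + 1) + 1) * (3 * (y + 1) + 2) / (y + 1 + 1)))) -
     81 * (3 * (x + 1 + y) + 5) * (3 * (x + 1 + y) + 7) * (x + 1 + y + 2) / (x + 1 + y + 3) *
      ((x + 1 + y - 2 * (x + 1)) * ((A * (3 * (3 * x + 1) * (3 * x + 2) / (x + 1))) * B))) =
    (A * (3 * (3 * x + 1) * (3 * x + 2) / (x + 1))) * B * (3 * (x + 1) + 1) * (3 * (x + 1) + 2) *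
      ValW_Q (x + 1 + y) (x + 1 + 1) / (y + 1) := by
  have h := ValW_id (x + 1) y (by positivity) hy
  have hx1 : x + 1 ≠ 0 := by positivity
  have hy1 : y + 1 ≠ 0 := by positivity
  have hy2 : y + 2 ≠ 0 := by positivity
  have hy3 : y + 1 + 1 = y + 2 := by ring
  have hM3 : x + 1 + y + 3 ≠ 0 := by positivity
  rw [hy3]
  generalize ValW_Q (x + 1 + y) (x + 1) = q1 at h ⊢
  generalize ValW_Q (x + 1 + y) (x + 1 + 1) = q2 at h ⊢
  generalize 81 * (3 * (x + 1 + y) + 5) * (3 * (x + 1 + y) + 7) * (x + 1 + y + 2) /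
    (x + 1 + y + 3) = c at h ⊢
  rw [← sub_eq_zero] at h ⊢
  have e : ∀ l r : ℝ, l - r = 0 → (A * (3 * (3 * x + 1) * (3 * x + 2) / (x + 1))) * B / ((y + 1) * (y + 2)) * (l - r) = 0 := by
    intro l r hlr
    rw [hlr, mul_zero]
  refine Eq.trans ?_ (e _ _ h)
  field_simp
  ring

private theorem ValW_sum : ∀ (s k : ℕ),
    ∑ i ∈ range (s + 1), ((-1 : ℝ) ^ i * (((s + k : ℕ) : ℝ) + 2 - 2 * i) * (aa i * aa (s + k + 2 - i)) -
      81 * (3 * ((s + k : ℕ) : ℝ) + 5) * (3 * ((s + k : ℕ) : ℝ) + 7) * (((s + k : ℕ) : ℝ) + 2) /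
        (((s + k : ℕ) : ℝ) + 3) * ((-1 : ℝ) ^ i * (((s + k : ℕ) : ℝ) - 2 * i) * (aa i * aa (s + k - i)))) =
    -((-1 : ℝ) ^ s * (aa s * aa k * (3 * (s : ℝ) + 1) * (3 * s + 2) *
      ValW_Q ((s + k : ℕ) : ℝ) ((s : ℝ) + 1) / ((k : ℝ) + 1))) := by
  intro s
  induction s with
  | zero =>
    intro k
    have h := ValW_id 0 (k : ℝ) le_rfl (Nat.cast_nonneg k)
    have hk0 : (0 : ℝ) ≤ (k : ℝ) := Nat.cast_nonneg k
    have hk1 : (k : ℝ) + 1 ≠ 0 := by positivity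
    have hk2 : (k : ℝ) + 2 ≠ 0 := by positivity
    have hk3 : (k : ℝ) + 1 + 1 = k + 2 := by ring
    rw [zero_add, Finset.sum_range_one, Nat.sub_zero, Nat.sub_zero, zero_add,
      aa_succ (k + 1), aa_succ k]
    push_cast
    simp only [pow_zero, one_mul, mul_zero, zero_add, sub_zero, zero_mul, mul_one] at h ⊢
    rw [hk3]
    generalize ValW_Q (k : ℝ) 1 = q1 at h ⊢
    generalize 81 * (3 * (k : ℝ) + 5) * (3 * (k : ℝ) + 7) * ((k : ℝ) + 2) / ((k : ℝ) + 3) = c at h ⊢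
    rw [← sub_eq_zero] at h ⊢
    have e : ∀ l r : ℝ, l - r = 0 → -(aa 0 * aa k) / (((k : ℝ) + 1) * (k + 2)) * (l - r) = 0 := by
      intro l r hlr
      rw [hlr, mul_zero]
    refine Eq.trans ?_ (e _ _ h)
    field_simp
    ring
  | succ s ih =>
    intro k
    have e1 : s + 1 + k = s + (k + 1) := by omega
    rw [Finset.sum_range_succ]
    have h := ih (k + 1)
    rw [← e1] at h
    rw [h]
    have e2 : s + 1 + k + 2 - (s + 1) = k + 1 + 1 := by omega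
    have e3 : s + 1 + k - (s + 1) = k := by omega
    rw [e2, e3, aa_succ (k + 1), aa_succ k, aa_succ s]
    have hs := ValW_step (s : ℝ) (k : ℝ) (aa s) (aa k) (Nat.cast_nonneg s) (Nat.cast_nonneg k)
    push_cast
    have hk3 : (k : ℝ) + 1 + 1 = k + 2 := by ring
    rw [hk3] at hs ⊢
    linear_combination ((-1 : ℝ) ^ s) * hs

theorem Tw_rec (M : ℕ) : Tw (M + 2) * ((M : ℝ) + 3) = 81 * (3 * (M : ℝ) + 5) * (3 * M + 7) * (M + 2) * Tw M := by
  have h := ValW_sum M 0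
  have hM3 : (M : ℝ) + 3 ≠ 0 := by positivity
  have hM1 : (M : ℝ) + 1 ≠ 0 := by positivity
  have hM2 : (M : ℝ) + 1 + 1 ≠ 0 := by positivity
  rw [Finset.sum_sub_distrib, ← Finset.mul_sum] at h
  have ha0 : aa 0 = 1 := by simp [aa]
  have ha1 : aa 1 = 6 := by
    have := aa_succ 0
    rw [zero_add, ha0] at this
    rw [this]
    norm_num
  have hT : Tw (M + 2) = ∑ i ∈ range (M + 1), ((-1 : ℝ) ^ i * ((M : ℝ) + 2 - 2 * i) * (aa i * aa (M + 2 - i))) +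
      (-1 : ℝ) ^ M * (6 * M * aa (M + 1) - (M + 2) * aa (M + 2)) := by
    unfold Tw
    rw [Finset.sum_range_succ, Finset.sum_range_succ]
    have e1 : M + 2 - (M + 1) = 1 := by omega
    have e2 : M + 2 - (M + 2) = 0 := by omega
    rw [e1, e2, ha0, ha1]
    push_cast
    ring
  have hT2 : Tw M = ∑ i ∈ range (M + 1), ((-1 : ℝ) ^ i * ((M : ℝ) - 2 * i) * (aa i * aa (M - i))) := rfl
  rw [add_zero, ← hT2] at h
  have hfin : 6 * (M : ℝ) * aa (M + 1) - (M + 2) * aa (M + 2) =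
      aa M * aa 0 * (3 * (M : ℝ) + 1) * (3 * M + 2) * ValW_Q (M : ℝ) ((M : ℝ) + 1) / (((0 : ℕ) : ℝ) + 1) := by
    rw [ha0, aa_succ (M + 1), aa_succ M]
    unfold ValW_Q
    push_cast
    field_simp
    ring
  have h5 : Tw (M + 2) = 81 * (3 * (M : ℝ) + 5) * (3 * M + 7) * (M + 2) / (M + 3) * Tw M := by
    rw [hT]
    linear_combination h + (-1 : ℝ) ^ M * hfin
  rw [h5]
  field_simp

theorem Tw_one : Tw 1 = 12 := by
  have ha0 : aa 0 = 1 := by simp [aa]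
  have ha1 : aa 1 = 6 := by
    have := aa_succ 0
    rw [zero_add, ha0] at this
    rw [this]
    norm_num
  unfold Tw
  rw [Finset.sum_range_succ, Finset.sum_range_one, Nat.sub_zero, Nat.sub_self, ha0, ha1]
  norm_num

end Q4
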